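import Pool.Agent.Gen.F5.X1C2D3Cm6.S000
import Pool.Agent.Gen.F5.X1C2D3Cm6.S001
import Pool.Agent.Gen.F5.X1C2D3Cm6.S002
import Pool.Agent.Gen.F5.X1C2D3Cm6.S003

set_option autoImplicit false
set_option maxRecDepth 100000

namespace Pool.Agent.Gen.F5.X1C2D3Cm6

open Pool.Agent.Helper72.F5

def n0 : Cl (O (nat_lit 6)) (R (nat_lit 14465))
    (p (nat_lit 0x41) (nat_lit 0) (p (nat_lit 0xb0004) (nat_lit 0) (p (nat_lit 0x200014) (nat_lit 1) (p (nat_lit 0x20000c) (nat_lit 0) (p (nat_lit 0xd1) (nat_lit 1) (p (nat_lit 0x109) (nat_lit 1) (p (nat_lit 0x101) (nat_lit 0) (p (nat_lit 0x119) (nat_lit 0) (p (nat_lit 0xc9) (nat_lit 0) (p (nat_lit 0x89) (nat_lit 1) (p (nat_lit 0x41) (nat_lit 0) (p (nat_lit 0x10a0b0a89889a) (nat_lit 0) (p (nat_lit 0x898a8a09081a) (nat_lit 0) (p (nat_lit 0x109080988879a) (nat_lit 0) (p (nat_lit 0x88878908071a) (nat_lit 0) (p (nat_lit 0x8000080000000080887868a) (nat_lit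 0) (p (nat_lit 0x10888070602) (nat_lit 0) (p (nat_lit 0x8807868582) (nat_lit 0) (p (nat_lit 0x10587060502) (nat_lit 0) (p (nat_lit 0x8506858482) (nat_lit 0) (p (nat_lit 0x160004) (nat_lit 0) (p (nat_lit 0x68612) (nat_lit 0) (p (nat_lit 0x50592) (nat_lit 0) (p (nat_lit 0x38512) (nat_lit 0) (p (nat_lit 0x50392) (nat_lit 0) (p (nat_lit 0x38312) (nat_lit 0) (p (nat_lit 0x20292) (nat_lit 0) (p (nat_lit 0x38112) (nat_lit 0) (p (nat_lit 0x20092) (nat_lit 0) (p (nat_lit 0x8012) (nat_lit 0) pn)))))))))))))))))))))))))))))) :=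
  Cl.node (nat_lit 0x111) (nat_lit 2) (by decide +kernel) (ClAll.succ (ClAll.succ ClAll.zero s63) s64)

def n1 : Cl (O (nat_lit 6)) (R (nat_lit 14465))
    (p (nat_lit 0x111) (nat_lit 1) (p (nat_lit 0xb0004) (nat_lit 0) (p (nat_lit 0x200014) (nat_lit 1) (p (nat_lit 0x20000c) (nat_lit 0) (p (nat_lit 0xd1) (nat_lit 1) (p (nat_lit 0xc9) (nat_lit 0) (p (nat_lit 0x101) (nat_lit 1) (p (nat_lit 0x119) (nat_lit 0) (p (nat_lit 0xc1) (nat_lit 0) (p (nat_lit 0x81) (nat_lit 1) (p (nat_lit 0x41) (nat_lit 1) (p (nat_lit 0x10a0b0a89889a) (nat_lit 0) (p (nat_lit 0x898a8a09081a) (nat_lit 0) (p (nat_lit 0x109080988879a) (nat_lit 0) (p (nat_lit 0x88878908071a) (nat_lit 0) (p (nat_lit 0x8000080000000080887868a) (nat_lit 0) (p (nat_lit 0x10888070602) (nat_lit 0) (p (nat_lit 0x8807868582) (nat_lit 0) (p (nat_lit 0x10587060502) (nat_lit 0) (p (nat_lit 0x8506858482) (nat_lit 0) (p (nat_lit 0x160004)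 (nat_lit 0) (p (nat_lit 0x68612) (nat_lit 0) (p (nat_lit 0x50592) (nat_lit 0) (p (nat_lit 0x38512) (nat_lit 0) (p (nat_lit 0x50392) (nat_lit 0) (p (nat_lit 0x38312) (nat_lit 0) (p (nat_lit 0x20292) (nat_lit 0) (p (nat_lit 0x38112) (nat_lit 0) (p (nat_lit 0x20092) (nat_lit 0) (p (nat_lit 0x8012) (nat_lit 0) pn)))))))))))))))))))))))))))))) :=
  Cl.node (nat_lit 0x81) (nat_lit 2) (by decide +kernel) (ClAll.succ (ClAll.succ ClAll.zero s164) s165)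

def n2 : Cl (O (nat_lit 6)) (R (nat_lit 14465))
    (p (nat_lit 0xb0004) (nat_lit 0) (p (nat_lit 0x200014) (nat_lit 1) (p (nat_lit 0x20000c) (nat_lit 0) (p (nat_lit 0xc1) (nat_lit 0) (p (nat_lit 0x81) (nat_lit 1) (p (nat_lit 0x101) (nat_lit 1) (p (nat_lit 0x111) (nat_lit 0) (p (nat_lit 0xd1) (nat_lit 1) (p (nat_lit 0x89) (nat_lit 0) (p (nat_lit 0x41) (nat_lit 0) (p (nat_lit 0x10a0b0a89889a) (nat_lit 0) (p (nat_lit 0x898a8a09081a) (nat_lit 0) (p (nat_lit 0x109080988879a) (nat_lit 0) (p (nat_lit 0x88878908071a) (nat_lit 0) (p (nat_lit 0x8000080000000080887868a) (nat_lit 0) (p (nat_lit 0x10888070602) (nat_lit 0) (p (nat_lit 0x8807868582) (nat_lit 0) (p (nat_lit 0x10587060502) (nat_lit 0) (p (nat_lit 0x8506858482) (nat_lit 0) (p (nat_lit 0x160004) (nat_lit 0) (p (nat_lit 0x68612) (nat_lit 0) (p (nat_lit 0x50592) (nat_lit 0) (p (nat_lit 0x38512) (nat_lit 0) (p (nat_lit 0x50392) (nat_lit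 0) (p (nat_lit 0x38312) (nat_lit 0) (p (nat_lit 0x20292) (nat_lit 0) (p (nat_lit 0x38112) (nat_lit 0) (p (nat_lit 0x20092) (nat_lit 0) (p (nat_lit 0x8012) (nat_lit 0) pn))))))))))))))))))))))))))))) :=
  Cl.node (nat_lit 0x119) (nat_lit 2) (by decide +kernel) (ClAll.succ (ClAll.succ ClAll.zero s42) s43)

def n3 : Cl (O (nat_lit 6)) (R (nat_lit 14465))
    (p (nat_lit 0xb0004) (nat_lit 0) (p (nat_lit 0x200014) (nat_lit 0) (p (nat_lit 0x20000c) (nat_lit 0) (p (nat_lit 0xd1) (nat_lit 1) (p (nat_lit 0x109) (nat_lit 1) (p (nat_lit 0x101) (nat_lit 0) (p (nat_lit 0x119) (nat_lit 0) (p (nat_lit 0xc9) (nat_lit 0) (p (nat_lit 0x89) (nat_lit 1) (p (nat_lit 0x41) (nat_lit 0) (p (nat_lit 0x10a0b0a89889a) (nat_lit 0) (p (nat_lit 0x898a8a09081a) (nat_lit 0) (p (nat_lit 0x109080988879a) (nat_lit 0) (p (nat_lit 0x88878908071a) (nat_lit 0) (p (nat_lit 0x8000080000000080887868a) (nat_lit 0) (p (nat_lit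 0x10888070602) (nat_lit 0) (p (nat_lit 0x8807868582) (nat_lit 0) (p (nat_lit 0x10587060502) (nat_lit 0) (p (nat_lit 0x8506858482) (nat_lit 0) (p (nat_lit 0x160004) (nat_lit 0) (p (nat_lit 0x68612) (nat_lit 0) (p (nat_lit 0x50592) (nat_lit 0) (p (nat_lit 0x38512) (nat_lit 0) (p (nat_lit 0x50392) (nat_lit 0) (p (nat_lit 0x38312) (nat_lit 0) (p (nat_lit 0x20292) (nat_lit 0) (p (nat_lit 0x38112) (nat_lit 0) (p (nat_lit 0x20092) (nat_lit 0) (p (nat_lit 0x8012) (nat_lit 0) pn))))))))))))))))))))))))))))) :=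
  Cl.node (nat_lit 0x41) (nat_lit 2) (by decide +kernel) (ClAll.succ (ClAll.succ ClAll.zero s60) s61)

def n4 : Cl (O (nat_lit 6)) (R (nat_lit 14465))
    (p (nat_lit 0xb0004) (nat_lit 0) (p (nat_lit 0x200014) (nat_lit 1) (p (nat_lit 0x20000c) (nat_lit 0) (p (nat_lit 0xd1) (nat_lit 1) (p (nat_lit 0x109) (nat_lit 1) (p (nat_lit 0x101) (nat_lit 0) (p (nat_lit 0x119) (nat_lit 0) (p (nat_lit 0xc9) (nat_lit 0) (p (nat_lit 0x89) (nat_lit 1) (p (nat_lit 0x41) (nat_lit 0) (p (nat_lit 0x10a0b0a89889a) (nat_lit 0) (p (nat_lit 0x898a8a09081a) (nat_lit 0) (p (nat_lit 0x109080988879a) (nat_lit 0) (p (nat_lit 0x88878908071a) (nat_lit 0) (p (nat_lit 0x8000080000000080887868a) (nat_lit 0) (p (nat_lit 0x10888070602) (nat_lit 0) (p (nat_lit 0x8807868582) (nat_lit 0) (p (nat_lit 0x10587060502) (nat_lit 0) (p (nat_lit 0x8506858482) (nat_lit 0) (p (nat_lit 0x160004) (nat_lit 0) (p (nat_lit 0x68612)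 (nat_lit 0) (p (nat_lit 0x50592) (nat_lit 0) (p (nat_lit 0x38512) (nat_lit 0) (p (nat_lit 0x50392) (nat_lit 0) (p (nat_lit 0x38312) (nat_lit 0) (p (nat_lit 0x20292) (nat_lit 0) (p (nat_lit 0x38112) (nat_lit 0) (p (nat_lit 0x20092) (nat_lit 0) (p (nat_lit 0x8012) (nat_lit 0) pn))))))))))))))))))))))))))))) :=
  Cl.node (nat_lit 0x41) (nat_lit 2) (by decide +kernel) (ClAll.succ (ClAll.succ ClAll.zero n0) s65)

def n5 : Cl (O (nat_lit 6)) (R (nat_lit 14465))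
    (p (nat_lit 0xb0004) (nat_lit 0) (p (nat_lit 0x200014) (nat_lit 1) (p (nat_lit 0x20000c) (nat_lit 0) (p (nat_lit 0xd1) (nat_lit 1) (p (nat_lit 0xc1) (nat_lit 0) (p (nat_lit 0x101) (nat_lit 1) (p (nat_lit 0x119) (nat_lit 0) (p (nat_lit 0xc9) (nat_lit 0) (p (nat_lit 0x89) (nat_lit 1) (p (nat_lit 0x41) (nat_lit 0) (p (nat_lit 0x10a0b0a89889a) (nat_lit 0) (p (nat_lit 0x898a8a09081a) (nat_lit 0) (p (nat_lit 0x109080988879a) (nat_lit 0) (p (nat_lit 0x88878908071a) (nat_lit 0) (p (nat_lit 0x8000080000000080887868a) (nat_lit 0) (p (nat_lit 0x10888070602) (nat_lit 0) (p (nat_lit 0x8807868582) (nat_lit 0) (p (nat_lit 0x10587060502) (nat_lit 0) (p (nat_lit 0x8506858482) (nat_lit 0) (p (nat_lit 0x160004) (nat_lit 0) (p (nat_lit 0x68612) (nat_lit 0) (p (nat_lit 0x50592) (nat_lit 0) (p (nat_lit 0x38512) (nat_lit 0) (p (nat_lit 0x50392) (nat_lit 0) (p (nat_lit 0x38312) (nat_lit 0) (p (nat_lit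 0x20292) (nat_lit 0) (p (nat_lit 0x38112) (nat_lit 0) (p (nat_lit 0x20092) (nat_lit 0) (p (nat_lit 0x8012) (nat_lit 0) pn))))))))))))))))))))))))))))) :=
  Cl.node (nat_lit 0x109) (nat_lit 2) (by decide +kernel) (ClAll.succ (ClAll.succ ClAll.zero s71) s72)

def n6 : Cl (O (nat_lit 6)) (R (nat_lit 14465))
    (p (nat_lit 0xb0004) (nat_lit 0) (p (nat_lit 0x200014) (nat_lit 0) (p (nat_lit 0x20000c) (nat_lit 0) (p (nat_lit 0x111) (nat_lit 1) (p (nat_lit 0x101) (nat_lit 0) (p (nat_lit 0xc1) (nat_lit 1) (p (nat_lit 0x119) (nat_lit 1) (p (nat_lit 0xc9) (nat_lit 0) (p (nat_lit 0x89) (nat_lit 1) (p (nat_lit 0x41) (nat_lit 0) (p (nat_lit 0x10a0b0a89889a) (nat_lit 0) (p (nat_lit 0x898a8a09081a) (nat_lit 0) (p (nat_lit 0x109080988879a) (nat_lit 0) (p (nat_lit 0x88878908071a) (nat_lit 0) (p (nat_lit 0x8000080000000080887868a) (nat_lit 0) (p (nat_lit 0x10888070602) (nat_lit 0) (p (nat_lit 0x8807868582)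 (nat_lit 0) (p (nat_lit 0x10587060502) (nat_lit 0) (p (nat_lit 0x8506858482) (nat_lit 0) (p (nat_lit 0x160004) (nat_lit 0) (p (nat_lit 0x68612) (nat_lit 0) (p (nat_lit 0x50592) (nat_lit 0) (p (nat_lit 0x38512) (nat_lit 0) (p (nat_lit 0x50392) (nat_lit 0) (p (nat_lit 0x38312) (nat_lit 0) (p (nat_lit 0x20292) (nat_lit 0) (p (nat_lit 0x38112) (nat_lit 0) (p (nat_lit 0x20092) (nat_lit 0) (p (nat_lit 0x8012) (nat_lit 0) pn))))))))))))))))))))))))))))) :=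
  Cl.node (nat_lit 0xd1) (nat_lit 2) (by decide +kernel) (ClAll.succ (ClAll.succ ClAll.zero s82) s83)

def n7 : Cl (O (nat_lit 6)) (R (nat_lit 14465))
    (p (nat_lit 0xb0004) (nat_lit 0) (p (nat_lit 0x200014) (nat_lit 1) (p (nat_lit 0x20000c) (nat_lit 0) (p (nat_lit 0x111) (nat_lit 1) (p (nat_lit 0x101) (nat_lit 0) (p (nat_lit 0xc1) (nat_lit 1) (p (nat_lit 0x119) (nat_lit 1) (p (nat_lit 0xc9) (nat_lit 0) (p (nat_lit 0x89) (nat_lit 1) (p (nat_lit 0x41) (nat_lit 0) (p (nat_lit 0x10a0b0a89889a) (nat_lit 0) (p (nat_lit 0x898a8a09081a) (nat_lit 0) (p (nat_lit 0x109080988879a) (nat_lit 0) (p (nat_lit 0x88878908071a) (nat_lit 0) (p (nat_lit 0x8000080000000080887868a) (nat_lit 0) (p (nat_lit 0x10888070602) (nat_lit 0) (p (nat_lit 0x8807868582) (nat_lit 0) (p (nat_lit 0x10587060502) (nat_lit 0) (p (nat_lit 0x8506858482) (nat_lit 0) (p (nat_lit 0x160004) (nat_lit 0) (p (nat_lit 0x68612)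 (nat_lit 0) (p (nat_lit 0x50592) (nat_lit 0) (p (nat_lit 0x38512) (nat_lit 0) (p (nat_lit 0x50392) (nat_lit 0) (p (nat_lit 0x38312) (nat_lit 0) (p (nat_lit 0x20292) (nat_lit 0) (p (nat_lit 0x38112) (nat_lit 0) (p (nat_lit 0x20092) (nat_lit 0) (p (nat_lit 0x8012) (nat_lit 0) pn))))))))))))))))))))))))))))) :=
  Cl.node (nat_lit 0xd1) (nat_lit 2) (by decide +kernel) (ClAll.succ (ClAll.succ ClAll.zero s85) s86)

def n8 : Cl (O (nat_lit 6)) (R (nat_lit 14465))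
    (p (nat_lit 0xb0004) (nat_lit 0) (p (nat_lit 0x200014) (nat_lit 0) (p (nat_lit 0x20000c) (nat_lit 0) (p (nat_lit 0xc9) (nat_lit 0) (p (nat_lit 0x89) (nat_lit 1) (p (nat_lit 0x101) (nat_lit 1) (p (nat_lit 0x111) (nat_lit 0) (p (nat_lit 0xd1) (nat_lit 1) (p (nat_lit 0x81) (nat_lit 0) (p (nat_lit 0x41) (nat_lit 1) (p (nat_lit 0x10a0b0a89889a) (nat_lit 0) (p (nat_lit 0x898a8a09081a) (nat_lit 0) (p (nat_lit 0x109080988879a) (nat_lit 0) (p (nat_lit 0x88878908071a) (nat_lit 0) (p (nat_lit 0x8000080000000080887868a) (nat_lit 0) (p (nat_lit 0x10888070602) (nat_lit 0) (p (nat_lit 0x8807868582) (nat_lit 0) (p (nat_lit 0x10587060502) (nat_lit 0) (p (nat_lit 0x8506858482) (nat_lit 0) (p (nat_lit 0x160004) (nat_lit 0) (p (nat_lit 0x68612) (nat_lit 0) (p (nat_lit 0x50592) (nat_lit 0) (p (nat_lit 0x38512) (nat_lit 0) (p (nat_lit 0x50392) (nat_lit 0) (p (nat_lit 0x38312) (nat_lit 0) (p (nat_lit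 0x20292) (nat_lit 0) (p (nat_lit 0x38112) (nat_lit 0) (p (nat_lit 0x20092) (nat_lit 0) (p (nat_lit 0x8012) (nat_lit 0) pn))))))))))))))))))))))))))))) :=
  Cl.node (nat_lit 0x119) (nat_lit 2) (by decide +kernel) (ClAll.succ (ClAll.succ ClAll.zero s139) s140)

def n9 : Cl (O (nat_lit 6)) (R (nat_lit 14465))
    (p (nat_lit 0xb0004) (nat_lit 0) (p (nat_lit 0x200014) (nat_lit 1) (p (nat_lit 0x20000c) (nat_lit 0) (p (nat_lit 0xd1) (nat_lit 1) (p (nat_lit 0xc9) (nat_lit 0) (p (nat_lit 0x101) (nat_lit 1) (p (nat_lit 0x119) (nat_lit 0) (p (nat_lit 0xc1) (nat_lit 0) (p (nat_lit 0x81) (nat_lit 1) (p (nat_lit 0x41) (nat_lit 1) (p (nat_lit 0x10a0b0a89889a) (nat_lit 0) (p (nat_lit 0x898a8a09081a) (nat_lit 0) (p (nat_lit 0x109080988879a) (nat_lit 0) (p (nat_lit 0x88878908071a) (nat_lit 0) (p (nat_lit 0x8000080000000080887868a) (nat_lit 0) (p (nat_lit 0x10888070602) (nat_lit 0) (p (nat_lit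 0x8807868582) (nat_lit 0) (p (nat_lit 0x10587060502) (nat_lit 0) (p (nat_lit 0x8506858482) (nat_lit 0) (p (nat_lit 0x160004) (nat_lit 0) (p (nat_lit 0x68612) (nat_lit 0) (p (nat_lit 0x50592) (nat_lit 0) (p (nat_lit 0x38512) (nat_lit 0) (p (nat_lit 0x50392) (nat_lit 0) (p (nat_lit 0x38312) (nat_lit 0) (p (nat_lit 0x20292) (nat_lit 0) (p (nat_lit 0x38112) (nat_lit 0) (p (nat_lit 0x20092) (nat_lit 0) (p (nat_lit 0x8012) (nat_lit 0) pn))))))))))))))))))))))))))))) :=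
  Cl.node (nat_lit 0x111) (nat_lit 2) (by decide +kernel) (ClAll.succ (ClAll.succ ClAll.zero s163) n1)

def n10 : Cl (O (nat_lit 6)) (R (nat_lit 14465))
    (p (nat_lit 0x20000c) (nat_lit 0) (p (nat_lit 0x109) (nat_lit 1) (p (nat_lit 0x101) (nat_lit 0) (p (nat_lit 0x81) (nat_lit 1) (p (nat_lit 0xc1) (nat_lit 1) (p (nat_lit 0x119) (nat_lit 1) (p (nat_lit 0xd1) (nat_lit 0) (p (nat_lit 0x89) (nat_lit 0) (p (nat_lit 0x41) (nat_lit 0) (p (nat_lit 0x10a0b0a89889a) (nat_lit 0) (p (nat_lit 0x898a8a09081a) (nat_lit 0) (p (nat_lit 0x109080988879a) (nat_lit 0) (p (nat_lit 0x88878908071a) (nat_lit 0) (p (nat_lit 0x8000080000000080887868a) (nat_lit 0) (p (nat_lit 0x10888070602) (nat_lit 0) (p (nat_lit 0x8807868582) (nat_lit 0) (p (nat_lit 0x10587060502) (nat_lit 0) (p (nat_lit 0x8506858482) (nat_lit 0) (p (nat_lit 0x160004) (nat_lit 0) (p (nat_lit 0x68612) (nat_lit 0) (p (nat_lit 0x50592)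 (nat_lit 0) (p (nat_lit 0x38512) (nat_lit 0) (p (nat_lit 0x50392) (nat_lit 0) (p (nat_lit 0x38312) (nat_lit 0) (p (nat_lit 0x20292) (nat_lit 0) (p (nat_lit 0x38112) (nat_lit 0) (p (nat_lit 0x20092) (nat_lit 0) (p (nat_lit 0x8012) (nat_lit 0) pn)))))))))))))))))))))))))))) :=
  Cl.node (nat_lit 0x200014) (nat_lit 2) (by decide +kernel) (ClAll.succ (ClAll.succ ClAll.zero s23) s24)

def n11 : Cl (O (nat_lit 6)) (R (nat_lit 14465))
    (p (nat_lit 0x200014) (nat_lit 0) (p (nat_lit 0x20000c) (nat_lit 0) (p (nat_lit 0xc1) (nat_lit 0) (p (nat_lit 0x81) (nat_lit 1) (p (nat_lit 0x101) (nat_lit 1) (p (nat_lit 0x111) (nat_lit 0) (p (nat_lit 0xd1) (nat_lit 1) (p (nat_lit 0x89) (nat_lit 0) (p (nat_lit 0x41) (nat_lit 0) (p (nat_lit 0x10a0b0a89889a) (nat_lit 0) (p (nat_lit 0x898a8a09081a) (nat_lit 0) (p (nat_lit 0x109080988879a) (nat_lit 0) (p (nat_lit 0x88878908071a) (nat_lit 0) (p (nat_lit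 0x8000080000000080887868a) (nat_lit 0) (p (nat_lit 0x10888070602) (nat_lit 0) (p (nat_lit 0x8807868582) (nat_lit 0) (p (nat_lit 0x10587060502) (nat_lit 0) (p (nat_lit 0x8506858482) (nat_lit 0) (p (nat_lit 0x160004) (nat_lit 0) (p (nat_lit 0x68612) (nat_lit 0) (p (nat_lit 0x50592) (nat_lit 0) (p (nat_lit 0x38512) (nat_lit 0) (p (nat_lit 0x50392) (nat_lit 0) (p (nat_lit 0x38312) (nat_lit 0) (p (nat_lit 0x20292) (nat_lit 0) (p (nat_lit 0x38112) (nat_lit 0) (p (nat_lit 0x20092) (nat_lit 0) (p (nat_lit 0x8012) (nat_lit 0) pn)))))))))))))))))))))))))))) :=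
  Cl.node (nat_lit 0x119) (nat_lit 2) (by decide +kernel) (ClAll.succ (ClAll.succ ClAll.zero s40) s41)

def n12 : Cl (O (nat_lit 6)) (R (nat_lit 14465))
    (p (nat_lit 0x200014) (nat_lit 1) (p (nat_lit 0x20000c) (nat_lit 0) (p (nat_lit 0xc1) (nat_lit 0) (p (nat_lit 0x81) (nat_lit 1) (p (nat_lit 0x101) (nat_lit 1) (p (nat_lit 0x111) (nat_lit 0) (p (nat_lit 0xd1) (nat_lit 1) (p (nat_lit 0x89) (nat_lit 0) (p (nat_lit 0x41) (nat_lit 0) (p (nat_lit 0x10a0b0a89889a) (nat_lit 0) (p (nat_lit 0x898a8a09081a) (nat_lit 0) (p (nat_lit 0x109080988879a) (nat_lit 0) (p (nat_lit 0x88878908071a) (nat_lit 0) (p (nat_lit 0x8000080000000080887868a) (nat_lit 0) (p (nat_lit 0x10888070602) (nat_lit 0) (p (nat_lit 0x8807868582) (nat_lit 0) (p (nat_lit 0x10587060502) (nat_lit 0) (p (nat_lit 0x8506858482) (nat_lit 0) (p (nat_lit 0x160004) (nat_lit 0) (p (nat_lit 0x68612) (nat_lit 0) (p (nat_lit 0x50592)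 (nat_lit 0) (p (nat_lit 0x38512) (nat_lit 0) (p (nat_lit 0x50392) (nat_lit 0) (p (nat_lit 0x38312) (nat_lit 0) (p (nat_lit 0x20292) (nat_lit 0) (p (nat_lit 0x38112) (nat_lit 0) (p (nat_lit 0x20092) (nat_lit 0) (p (nat_lit 0x8012) (nat_lit 0) pn)))))))))))))))))))))))))))) :=
  Cl.node (nat_lit 0xb0004) (nat_lit 2) (by decide +kernel) (ClAll.succ (ClAll.succ ClAll.zero n2) s44)

def n13 : Cl (O (nat_lit 6)) (R (nat_lit 14465))
    (p (nat_lit 0x20000c) (nat_lit 0) (p (nat_lit 0xd1) (nat_lit 1) (p (nat_lit 0x111) (nat_lit 1) (p (nat_lit 0x109) (nat_lit 0) (p (nat_lit 0x101) (nat_lit 0) (p (nat_lit 0x119) (nat_lit 0) (p (nat_lit 0xc9) (nat_lit 0) (p (nat_lit 0x89) (nat_lit 1) (p (nat_lit 0x41) (nat_lit 0) (p (nat_lit 0x10a0b0a89889a) (nat_lit 0) (p (nat_lit 0x898a8a09081a) (nat_lit 0) (p (nat_lit 0x109080988879a) (nat_lit 0) (p (nat_lit 0x88878908071a) (nat_lit 0) (p (nat_lit 0x8000080000000080887868a)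 (nat_lit 0) (p (nat_lit 0x10888070602) (nat_lit 0) (p (nat_lit 0x8807868582) (nat_lit 0) (p (nat_lit 0x10587060502) (nat_lit 0) (p (nat_lit 0x8506858482) (nat_lit 0) (p (nat_lit 0x160004) (nat_lit 0) (p (nat_lit 0x68612) (nat_lit 0) (p (nat_lit 0x50592) (nat_lit 0) (p (nat_lit 0x38512) (nat_lit 0) (p (nat_lit 0x50392) (nat_lit 0) (p (nat_lit 0x38312) (nat_lit 0) (p (nat_lit 0x20292) (nat_lit 0) (p (nat_lit 0x38112) (nat_lit 0) (p (nat_lit 0x20092) (nat_lit 0) (p (nat_lit 0x8012) (nat_lit 0) pn)))))))))))))))))))))))))))) :=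
  Cl.node (nat_lit 0x200014) (nat_lit 2) (by decide +kernel) (ClAll.succ (ClAll.succ ClAll.zero s54) s55)

def n14 : Cl (O (nat_lit 6)) (R (nat_lit 14465))
    (p (nat_lit 0x200014) (nat_lit 0) (p (nat_lit 0x20000c) (nat_lit 0) (p (nat_lit 0xd1) (nat_lit 1) (p (nat_lit 0x109) (nat_lit 1) (p (nat_lit 0x101) (nat_lit 0) (p (nat_lit 0x119) (nat_lit 0) (p (nat_lit 0xc9) (nat_lit 0) (p (nat_lit 0x89) (nat_lit 1) (p (nat_lit 0x41) (nat_lit 0) (p (nat_lit 0x10a0b0a89889a) (nat_lit 0) (p (nat_lit 0x898a8a09081a) (nat_lit 0) (p (nat_lit 0x109080988879a) (nat_lit 0) (p (nat_lit 0x88878908071a) (nat_lit 0) (p (nat_lit 0x8000080000000080887868a) (nat_lit 0) (p (nat_lit 0x10888070602) (nat_lit 0) (p (nat_lit 0x8807868582) (nat_lit 0) (p (nat_lit 0x10587060502) (nat_lit 0) (p (nat_lit 0x8506858482) (nat_lit 0) (p (nat_lit 0x160004) (nat_lit 0) (p (nat_lit 0x68612) (nat_lit 0) (p (nat_lit 0x50592)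 (nat_lit 0) (p (nat_lit 0x38512) (nat_lit 0) (p (nat_lit 0x50392) (nat_lit 0) (p (nat_lit 0x38312) (nat_lit 0) (p (nat_lit 0x20292) (nat_lit 0) (p (nat_lit 0x38112) (nat_lit 0) (p (nat_lit 0x20092) (nat_lit 0) (p (nat_lit 0x8012) (nat_lit 0) pn)))))))))))))))))))))))))))) :=
  Cl.node (nat_lit 0xb0004) (nat_lit 2) (by decide +kernel) (ClAll.succ (ClAll.succ ClAll.zero n3) s62)

def n15 : Cl (O (nat_lit 6)) (R (nat_lit 14465))
    (p (nat_lit 0x200014) (nat_lit 1) (p (nat_lit 0x20000c) (nat_lit 0) (p (nat_lit 0xd1) (nat_lit 1) (p (nat_lit 0x109) (nat_lit 1) (p (nat_lit 0x101) (nat_lit 0) (p (nat_lit 0x119) (nat_lit 0) (p (nat_lit 0xc9) (nat_lit 0) (p (nat_lit 0x89) (nat_lit 1) (p (nat_lit 0x41) (nat_lit 0) (p (nat_lit 0x10a0b0a89889a) (nat_lit 0) (p (nat_lit 0x898a8a09081a) (nat_lit 0) (p (nat_lit 0x109080988879a) (nat_lit 0) (p (nat_lit 0x88878908071a) (nat_lit 0) (p (nat_lit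 0x8000080000000080887868a) (nat_lit 0) (p (nat_lit 0x10888070602) (nat_lit 0) (p (nat_lit 0x8807868582) (nat_lit 0) (p (nat_lit 0x10587060502) (nat_lit 0) (p (nat_lit 0x8506858482) (nat_lit 0) (p (nat_lit 0x160004) (nat_lit 0) (p (nat_lit 0x68612) (nat_lit 0) (p (nat_lit 0x50592) (nat_lit 0) (p (nat_lit 0x38512) (nat_lit 0) (p (nat_lit 0x50392) (nat_lit 0) (p (nat_lit 0x38312) (nat_lit 0) (p (nat_lit 0x20292) (nat_lit 0) (p (nat_lit 0x38112) (nat_lit 0) (p (nat_lit 0x20092) (nat_lit 0) (p (nat_lit 0x8012) (nat_lit 0) pn)))))))))))))))))))))))))))) :=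
  Cl.node (nat_lit 0xb0004) (nat_lit 2) (by decide +kernel) (ClAll.succ (ClAll.succ ClAll.zero n4) s66)

def n16 : Cl (O (nat_lit 6)) (R (nat_lit 14465))
    (p (nat_lit 0x200014) (nat_lit 1) (p (nat_lit 0x20000c) (nat_lit 0) (p (nat_lit 0xd1) (nat_lit 1) (p (nat_lit 0xc1) (nat_lit 0) (p (nat_lit 0x101) (nat_lit 1) (p (nat_lit 0x119) (nat_lit 0) (p (nat_lit 0xc9) (nat_lit 0) (p (nat_lit 0x89) (nat_lit 1) (p (nat_lit 0x41) (nat_lit 0) (p (nat_lit 0x10a0b0a89889a) (nat_lit 0) (p (nat_lit 0x898a8a09081a) (nat_lit 0) (p (nat_lit 0x109080988879a) (nat_lit 0) (p (nat_lit 0x88878908071a) (nat_lit 0) (p (nat_lit 0x8000080000000080887868a) (nat_lit 0) (p (nat_lit 0x10888070602) (nat_lit 0) (p (nat_lit 0x8807868582) (nat_lit 0) (p (nat_lit 0x10587060502) (nat_lit 0) (p (nat_lit 0x8506858482) (nat_lit 0) (p (nat_lit 0x160004) (nat_lit 0) (p (nat_lit 0x68612) (nat_lit 0) (p (nat_lit 0x50592)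 (nat_lit 0) (p (nat_lit 0x38512) (nat_lit 0) (p (nat_lit 0x50392) (nat_lit 0) (p (nat_lit 0x38312) (nat_lit 0) (p (nat_lit 0x20292) (nat_lit 0) (p (nat_lit 0x38112) (nat_lit 0) (p (nat_lit 0x20092) (nat_lit 0) (p (nat_lit 0x8012) (nat_lit 0) pn)))))))))))))))))))))))))))) :=
  Cl.node (nat_lit 0xb0004) (nat_lit 2) (by decide +kernel) (ClAll.succ (ClAll.succ ClAll.zero n5) s73)

def n17 : Cl (O (nat_lit 6)) (R (nat_lit 14465))
    (p (nat_lit 0x200014) (nat_lit 0) (p (nat_lit 0x20000c) (nat_lit 0) (p (nat_lit 0x111) (nat_lit 1) (p (nat_lit 0x101) (nat_lit 0) (p (nat_lit 0xc1) (nat_lit 1) (p (nat_lit 0x119) (nat_lit 1) (p (nat_lit 0xc9) (nat_lit 0) (p (nat_lit 0x89) (nat_lit 1) (p (nat_lit 0x41) (nat_lit 0) (p (nat_lit 0x10a0b0a89889a) (nat_lit 0) (p (nat_lit 0x898a8a09081a) (nat_lit 0) (p (nat_lit 0x109080988879a) (nat_lit 0) (p (nat_lit 0x88878908071a) (nat_lit 0) (p (nat_lit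 0x8000080000000080887868a) (nat_lit 0) (p (nat_lit 0x10888070602) (nat_lit 0) (p (nat_lit 0x8807868582) (nat_lit 0) (p (nat_lit 0x10587060502) (nat_lit 0) (p (nat_lit 0x8506858482) (nat_lit 0) (p (nat_lit 0x160004) (nat_lit 0) (p (nat_lit 0x68612) (nat_lit 0) (p (nat_lit 0x50592) (nat_lit 0) (p (nat_lit 0x38512) (nat_lit 0) (p (nat_lit 0x50392) (nat_lit 0) (p (nat_lit 0x38312) (nat_lit 0) (p (nat_lit 0x20292) (nat_lit 0) (p (nat_lit 0x38112) (nat_lit 0) (p (nat_lit 0x20092) (nat_lit 0) (p (nat_lit 0x8012) (nat_lit 0) pn)))))))))))))))))))))))))))) :=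
  Cl.node (nat_lit 0xb0004) (nat_lit 2) (by decide +kernel) (ClAll.succ (ClAll.succ ClAll.zero n6) s84)

def n18 : Cl (O (nat_lit 6)) (R (nat_lit 14465))
    (p (nat_lit 0x200014) (nat_lit 1) (p (nat_lit 0x20000c) (nat_lit 0) (p (nat_lit 0x111) (nat_lit 1) (p (nat_lit 0x101) (nat_lit 0) (p (nat_lit 0xc1) (nat_lit 1) (p (nat_lit 0x119) (nat_lit 1) (p (nat_lit 0xc9) (nat_lit 0) (p (nat_lit 0x89) (nat_lit 1) (p (nat_lit 0x41) (nat_lit 0) (p (nat_lit 0x10a0b0a89889a) (nat_lit 0) (p (nat_lit 0x898a8a09081a) (nat_lit 0) (p (nat_lit 0x109080988879a) (nat_lit 0) (p (nat_lit 0x88878908071a) (nat_lit 0) (p (nat_lit 0x8000080000000080887868a) (nat_lit 0) (p (nat_lit 0x10888070602) (nat_lit 0) (p (nat_lit 0x8807868582) (nat_lit 0) (p (nat_lit 0x10587060502) (nat_lit 0) (p (nat_lit 0x8506858482) (nat_lit 0) (p (nat_lit 0x160004) (nat_lit 0) (p (nat_lit 0x68612) (nat_lit 0) (p (nat_lit 0x50592)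 (nat_lit 0) (p (nat_lit 0x38512) (nat_lit 0) (p (nat_lit 0x50392) (nat_lit 0) (p (nat_lit 0x38312) (nat_lit 0) (p (nat_lit 0x20292) (nat_lit 0) (p (nat_lit 0x38112) (nat_lit 0) (p (nat_lit 0x20092) (nat_lit 0) (p (nat_lit 0x8012) (nat_lit 0) pn)))))))))))))))))))))))))))) :=
  Cl.node (nat_lit 0xb0004) (nat_lit 2) (by decide +kernel) (ClAll.succ (ClAll.succ ClAll.zero n7) s87)

def n19 : Cl (O (nat_lit 6)) (R (nat_lit 14465))
    (p (nat_lit 0xb0004) (nat_lit 0) (p (nat_lit 0x20000c) (nat_lit 1) (p (nat_lit 0x89) (nat_lit 0) (p (nat_lit 0x109) (nat_lit 1) (p (nat_lit 0x101) (nat_lit 0) (p (nat_lit 0x119) (nat_lit 0) (p (nat_lit 0xd1) (nat_lit 0) (p (nat_lit 0x81) (nat_lit 0) (p (nat_lit 0x41) (nat_lit 1) (p (nat_lit 0x10a0b0a89889a) (nat_lit 0) (p (nat_lit 0x898a8a09081a) (nat_lit 0) (p (nat_lit 0x109080988879a) (nat_lit 0) (p (nat_lit 0x88878908071a) (nat_lit 0) (p (nat_lit 0x8000080000000080887868a)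 (nat_lit 0) (p (nat_lit 0x10888070602) (nat_lit 0) (p (nat_lit 0x8807868582) (nat_lit 0) (p (nat_lit 0x10587060502) (nat_lit 0) (p (nat_lit 0x8506858482) (nat_lit 0) (p (nat_lit 0x160004) (nat_lit 0) (p (nat_lit 0x68612) (nat_lit 0) (p (nat_lit 0x50592) (nat_lit 0) (p (nat_lit 0x38512) (nat_lit 0) (p (nat_lit 0x50392) (nat_lit 0) (p (nat_lit 0x38312) (nat_lit 0) (p (nat_lit 0x20292) (nat_lit 0) (p (nat_lit 0x38112) (nat_lit 0) (p (nat_lit 0x20092) (nat_lit 0) (p (nat_lit 0x8012) (nat_lit 0) pn)))))))))))))))))))))))))))) :=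
  Cl.node (nat_lit 0x200014) (nat_lit 2) (by decide +kernel) (ClAll.succ (ClAll.succ ClAll.zero s96) s97)

def n20 : Cl (O (nat_lit 6)) (R (nat_lit 14465))
    (p (nat_lit 0x20000c) (nat_lit 0) (p (nat_lit 0x109) (nat_lit 1) (p (nat_lit 0x89) (nat_lit 1) (p (nat_lit 0x101) (nat_lit 0) (p (nat_lit 0xc1) (nat_lit 1) (p (nat_lit 0x119) (nat_lit 1) (p (nat_lit 0xd1) (nat_lit 0) (p (nat_lit 0x81) (nat_lit 0) (p (nat_lit 0x41) (nat_lit 1) (p (nat_lit 0x10a0b0a89889a) (nat_lit 0) (p (nat_lit 0x898a8a09081a) (nat_lit 0) (p (nat_lit 0x109080988879a) (nat_lit 0) (p (nat_lit 0x88878908071a) (nat_lit 0) (p (nat_lit 0x8000080000000080887868a) (nat_lit 0) (p (nat_lit 0x10888070602) (nat_lit 0) (p (nat_lit 0x8807868582) (nat_lit 0) (p (nat_lit 0x10587060502) (nat_lit 0) (p (nat_lit 0x8506858482) (nat_lit 0) (p (nat_lit 0x160004) (nat_lit 0) (p (nat_lit 0x68612) (nat_lit 0) (p (nat_lit 0x50592)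 (nat_lit 0) (p (nat_lit 0x38512) (nat_lit 0) (p (nat_lit 0x50392) (nat_lit 0) (p (nat_lit 0x38312) (nat_lit 0) (p (nat_lit 0x20292) (nat_lit 0) (p (nat_lit 0x38112) (nat_lit 0) (p (nat_lit 0x20092) (nat_lit 0) (p (nat_lit 0x8012) (nat_lit 0) pn)))))))))))))))))))))))))))) :=
  Cl.node (nat_lit 0x200014) (nat_lit 2) (by decide +kernel) (ClAll.succ (ClAll.succ ClAll.zero s120) s121)

def n21 : Cl (O (nat_lit 6)) (R (nat_lit 14465))
    (p (nat_lit 0xb0004) (nat_lit 0) (p (nat_lit 0x20000c) (nat_lit 1) (p (nat_lit 0x89) (nat_lit 0) (p (nat_lit 0x101) (nat_lit 1) (p (nat_lit 0xc1) (nat_lit 1) (p (nat_lit 0x119) (nat_lit 1) (p (nat_lit 0xd1) (nat_lit 0) (p (nat_lit 0x81) (nat_lit 0) (p (nat_lit 0x41) (nat_lit 1) (p (nat_lit 0x10a0b0a89889a) (nat_lit 0) (p (nat_lit 0x898a8a09081a) (nat_lit 0) (p (nat_lit 0x109080988879a) (nat_lit 0) (p (nat_lit 0x88878908071a) (nat_lit 0) (p (nat_lit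 0x8000080000000080887868a) (nat_lit 0) (p (nat_lit 0x10888070602) (nat_lit 0) (p (nat_lit 0x8807868582) (nat_lit 0) (p (nat_lit 0x10587060502) (nat_lit 0) (p (nat_lit 0x8506858482) (nat_lit 0) (p (nat_lit 0x160004) (nat_lit 0) (p (nat_lit 0x68612) (nat_lit 0) (p (nat_lit 0x50592) (nat_lit 0) (p (nat_lit 0x38512) (nat_lit 0) (p (nat_lit 0x50392) (nat_lit 0) (p (nat_lit 0x38312) (nat_lit 0) (p (nat_lit 0x20292) (nat_lit 0) (p (nat_lit 0x38112) (nat_lit 0) (p (nat_lit 0x20092) (nat_lit 0) (p (nat_lit 0x8012) (nat_lit 0) pn)))))))))))))))))))))))))))) :=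
  Cl.node (nat_lit 0x200014) (nat_lit 2) (by decide +kernel) (ClAll.succ (ClAll.succ ClAll.zero s124) s125)

def n22 : Cl (O (nat_lit 6)) (R (nat_lit 14465))
    (p (nat_lit 0x200014) (nat_lit 0) (p (nat_lit 0x20000c) (nat_lit 0) (p (nat_lit 0xc9) (nat_lit 0) (p (nat_lit 0x89) (nat_lit 1) (p (nat_lit 0x101) (nat_lit 1) (p (nat_lit 0x111) (nat_lit 0) (p (nat_lit 0xd1) (nat_lit 1) (p (nat_lit 0x81) (nat_lit 0) (p (nat_lit 0x41) (nat_lit 1) (p (nat_lit 0x10a0b0a89889a) (nat_lit 0) (p (nat_lit 0x898a8a09081a) (nat_lit 0) (p (nat_lit 0x109080988879a) (nat_lit 0) (p (nat_lit 0x88878908071a) (nat_lit 0) (p (nat_lit 0x8000080000000080887868a) (nat_lit 0) (p (nat_lit 0x10888070602) (nat_lit 0) (p (nat_lit 0x8807868582) (nat_lit 0) (p (nat_lit 0x10587060502) (nat_lit 0) (p (nat_lit 0x8506858482) (nat_lit 0) (p (nat_lit 0x160004) (nat_lit 0) (p (nat_lit 0x68612) (nat_lit 0) (p (nat_lit 0x50592)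 (nat_lit 0) (p (nat_lit 0x38512) (nat_lit 0) (p (nat_lit 0x50392) (nat_lit 0) (p (nat_lit 0x38312) (nat_lit 0) (p (nat_lit 0x20292) (nat_lit 0) (p (nat_lit 0x38112) (nat_lit 0) (p (nat_lit 0x20092) (nat_lit 0) (p (nat_lit 0x8012) (nat_lit 0) pn)))))))))))))))))))))))))))) :=
  Cl.node (nat_lit 0xb0004) (nat_lit 2) (by decide +kernel) (ClAll.succ (ClAll.succ ClAll.zero n8) s141)

def n23 : Cl (O (nat_lit 6)) (R (nat_lit 14465))
    (p (nat_lit 0xb0004) (nat_lit 0) (p (nat_lit 0x20000c) (nat_lit 1) (p (nat_lit 0xc9) (nat_lit 0) (p (nat_lit 0x89) (nat_lit 1) (p (nat_lit 0x101) (nat_lit 1) (p (nat_lit 0x111) (nat_lit 0) (p (nat_lit 0xd1) (nat_lit 1) (p (nat_lit 0x81) (nat_lit 0) (p (nat_lit 0x41) (nat_lit 1) (p (nat_lit 0x10a0b0a89889a) (nat_lit 0) (p (nat_lit 0x898a8a09081a) (nat_lit 0) (p (nat_lit 0x109080988879a) (nat_lit 0) (p (nat_lit 0x88878908071a) (nat_lit 0) (p (nat_lit 0x8000080000000080887868a)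 (nat_lit 0) (p (nat_lit 0x10888070602) (nat_lit 0) (p (nat_lit 0x8807868582) (nat_lit 0) (p (nat_lit 0x10587060502) (nat_lit 0) (p (nat_lit 0x8506858482) (nat_lit 0) (p (nat_lit 0x160004) (nat_lit 0) (p (nat_lit 0x68612) (nat_lit 0) (p (nat_lit 0x50592) (nat_lit 0) (p (nat_lit 0x38512) (nat_lit 0) (p (nat_lit 0x50392) (nat_lit 0) (p (nat_lit 0x38312) (nat_lit 0) (p (nat_lit 0x20292) (nat_lit 0) (p (nat_lit 0x38112) (nat_lit 0) (p (nat_lit 0x20092) (nat_lit 0) (p (nat_lit 0x8012) (nat_lit 0) pn)))))))))))))))))))))))))))) :=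
  Cl.node (nat_lit 0x200014) (nat_lit 2) (by decide +kernel) (ClAll.succ (ClAll.succ ClAll.zero s143) s144)

def n24 : Cl (O (nat_lit 6)) (R (nat_lit 14465))
    (p (nat_lit 0x200014) (nat_lit 1) (p (nat_lit 0x20000c) (nat_lit 0) (p (nat_lit 0xd1) (nat_lit 1) (p (nat_lit 0xc9) (nat_lit 0) (p (nat_lit 0x101) (nat_lit 1) (p (nat_lit 0x119) (nat_lit 0) (p (nat_lit 0xc1) (nat_lit 0) (p (nat_lit 0x81) (nat_lit 1) (p (nat_lit 0x41) (nat_lit 1) (p (nat_lit 0x10a0b0a89889a) (nat_lit 0) (p (nat_lit 0x898a8a09081a) (nat_lit 0) (p (nat_lit 0x109080988879a) (nat_lit 0) (p (nat_lit 0x88878908071a) (nat_lit 0) (p (nat_lit 0x8000080000000080887868a) (nat_lit 0) (p (nat_lit 0x10888070602) (nat_lit 0) (p (nat_lit 0x8807868582) (nat_lit 0) (p (nat_lit 0x10587060502) (nat_lit 0) (p (nat_lit 0x8506858482) (nat_lit 0) (p (nat_lit 0x160004) (nat_lit 0) (p (nat_lit 0x68612) (nat_lit 0) (p (nat_lit 0x50592)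 (nat_lit 0) (p (nat_lit 0x38512) (nat_lit 0) (p (nat_lit 0x50392) (nat_lit 0) (p (nat_lit 0x38312) (nat_lit 0) (p (nat_lit 0x20292) (nat_lit 0) (p (nat_lit 0x38112) (nat_lit 0) (p (nat_lit 0x20092) (nat_lit 0) (p (nat_lit 0x8012) (nat_lit 0) pn)))))))))))))))))))))))))))) :=
  Cl.node (nat_lit 0xb0004) (nat_lit 2) (by decide +kernel) (ClAll.succ (ClAll.succ ClAll.zero n9) s166)

def n25 : Cl (O (nat_lit 6)) (R (nat_lit 14465))
    (p (nat_lit 0x20000c) (nat_lit 0) (p (nat_lit 0xc9) (nat_lit 1) (p (nat_lit 0x109) (nat_lit 1) (p (nat_lit 0x101) (nat_lit 0) (p (nat_lit 0x119) (nat_lit 0) (p (nat_lit 0xd1) (nat_lit 0) (p (nat_lit 0x89) (nat_lit 0) (p (nat_lit 0x41) (nat_lit 0) (p (nat_lit 0x10a0b0a89889a) (nat_lit 0) (p (nat_lit 0x898a8a09081a) (nat_lit 0) (p (nat_lit 0x109080988879a) (nat_lit 0) (p (nat_lit 0x88878908071a) (nat_lit 0) (p (nat_lit 0x8000080000000080887868a) (nat_lit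 0) (p (nat_lit 0x10888070602) (nat_lit 0) (p (nat_lit 0x8807868582) (nat_lit 0) (p (nat_lit 0x10587060502) (nat_lit 0) (p (nat_lit 0x8506858482) (nat_lit 0) (p (nat_lit 0x160004) (nat_lit 0) (p (nat_lit 0x68612) (nat_lit 0) (p (nat_lit 0x50592) (nat_lit 0) (p (nat_lit 0x38512) (nat_lit 0) (p (nat_lit 0x50392) (nat_lit 0) (p (nat_lit 0x38312) (nat_lit 0) (p (nat_lit 0x20292) (nat_lit 0) (p (nat_lit 0x38112) (nat_lit 0) (p (nat_lit 0x20092) (nat_lit 0) (p (nat_lit 0x8012) (nat_lit 0) pn))))))))))))))))))))))))))) :=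
  Cl.node (nat_lit 0x200014) (nat_lit 2) (by decide +kernel) (ClAll.succ (ClAll.succ ClAll.zero s2) s3)

def n26 : Cl (O (nat_lit 6)) (R (nat_lit 14465))
    (p (nat_lit 0x20000c) (nat_lit 0) (p (nat_lit 0xc9) (nat_lit 1) (p (nat_lit 0x81) (nat_lit 0) (p (nat_lit 0x101) (nat_lit 1) (p (nat_lit 0x119) (nat_lit 0) (p (nat_lit 0xd1) (nat_lit 0) (p (nat_lit 0x89) (nat_lit 0) (p (nat_lit 0x41) (nat_lit 0) (p (nat_lit 0x10a0b0a89889a) (nat_lit 0) (p (nat_lit 0x898a8a09081a) (nat_lit 0) (p (nat_lit 0x109080988879a) (nat_lit 0) (p (nat_lit 0x88878908071a) (nat_lit 0) (p (nat_lit 0x8000080000000080887868a) (nat_lit 0) (p (nat_lit 0x10888070602) (nat_lit 0) (p (nat_lit 0x8807868582) (nat_lit 0) (p (nat_lit 0x10587060502) (nat_lit 0) (p (nat_lit 0x8506858482) (nat_lit 0) (p (nat_lit 0x160004) (nat_lit 0) (p (nat_lit 0x68612) (nat_lit 0) (p (nat_lit 0x50592) (nat_lit 0) (p (nat_lit 0x38512)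 (nat_lit 0) (p (nat_lit 0x50392) (nat_lit 0) (p (nat_lit 0x38312) (nat_lit 0) (p (nat_lit 0x20292) (nat_lit 0) (p (nat_lit 0x38112) (nat_lit 0) (p (nat_lit 0x20092) (nat_lit 0) (p (nat_lit 0x8012) (nat_lit 0) pn))))))))))))))))))))))))))) :=
  Cl.node (nat_lit 0x200014) (nat_lit 2) (by decide +kernel) (ClAll.succ (ClAll.succ ClAll.zero s7) s8)

def n27 : Cl (O (nat_lit 6)) (R (nat_lit 14465))
    (p (nat_lit 0xc9) (nat_lit 1) (p (nat_lit 0xc1) (nat_lit 0) (p (nat_lit 0x81) (nat_lit 1) (p (nat_lit 0x101) (nat_lit 1) (p (nat_lit 0x119) (nat_lit 0) (p (nat_lit 0xd1) (nat_lit 0) (p (nat_lit 0x89) (nat_lit 0) (p (nat_lit 0x41) (nat_lit 0) (p (nat_lit 0x10a0b0a89889a) (nat_lit 0) (p (nat_lit 0x898a8a09081a) (nat_lit 0) (p (nat_lit 0x109080988879a) (nat_lit 0) (p (nat_lit 0x88878908071a) (nat_lit 0) (p (nat_lit 0x8000080000000080887868a) (nat_lit 0) (p (nat_lit 0x10888070602) (nat_lit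 0) (p (nat_lit 0x8807868582) (nat_lit 0) (p (nat_lit 0x10587060502) (nat_lit 0) (p (nat_lit 0x8506858482) (nat_lit 0) (p (nat_lit 0x160004) (nat_lit 0) (p (nat_lit 0x68612) (nat_lit 0) (p (nat_lit 0x50592) (nat_lit 0) (p (nat_lit 0x38512) (nat_lit 0) (p (nat_lit 0x50392) (nat_lit 0) (p (nat_lit 0x38312) (nat_lit 0) (p (nat_lit 0x20292) (nat_lit 0) (p (nat_lit 0x38112) (nat_lit 0) (p (nat_lit 0x20092) (nat_lit 0) (p (nat_lit 0x8012) (nat_lit 0) pn))))))))))))))))))))))))))) :=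
  Cl.node (nat_lit 0x20000c) (nat_lit 2) (by decide +kernel) (ClAll.succ (ClAll.succ ClAll.zero s11) s12)

def n28 : Cl (O (nat_lit 6)) (R (nat_lit 14465))
    (p (nat_lit 0x109) (nat_lit 0) (p (nat_lit 0x101) (nat_lit 0) (p (nat_lit 0x81) (nat_lit 1) (p (nat_lit 0xc1) (nat_lit 1) (p (nat_lit 0x119) (nat_lit 1) (p (nat_lit 0xd1) (nat_lit 0) (p (nat_lit 0x89) (nat_lit 0) (p (nat_lit 0x41) (nat_lit 0) (p (nat_lit 0x10a0b0a89889a) (nat_lit 0) (p (nat_lit 0x898a8a09081a) (nat_lit 0) (p (nat_lit 0x109080988879a) (nat_lit 0) (p (nat_lit 0x88878908071a) (nat_lit 0) (p (nat_lit 0x8000080000000080887868a) (nat_lit 0) (p (nat_lit 0x10888070602) (nat_lit 0) (p (nat_lit 0x8807868582) (nat_lit 0) (p (nat_lit 0x10587060502) (nat_lit 0) (p (nat_lit 0x8506858482) (nat_lit 0) (p (nat_lit 0x160004) (nat_lit 0) (p (nat_lit 0x68612) (nat_lit 0) (p (nat_lit 0x50592) (nat_lit 0) (p (nat_lit 0x38512)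 (nat_lit 0) (p (nat_lit 0x50392) (nat_lit 0) (p (nat_lit 0x38312) (nat_lit 0) (p (nat_lit 0x20292) (nat_lit 0) (p (nat_lit 0x38112) (nat_lit 0) (p (nat_lit 0x20092) (nat_lit 0) (p (nat_lit 0x8012) (nat_lit 0) pn))))))))))))))))))))))))))) :=
  Cl.node (nat_lit 0x20000c) (nat_lit 2) (by decide +kernel) (ClAll.succ (ClAll.succ ClAll.zero s21) s22)

def n29 : Cl (O (nat_lit 6)) (R (nat_lit 14465))
    (p (nat_lit 0x109) (nat_lit 1) (p (nat_lit 0x101) (nat_lit 0) (p (nat_lit 0x81) (nat_lit 1) (p (nat_lit 0xc1) (nat_lit 1) (p (nat_lit 0x119) (nat_lit 1) (p (nat_lit 0xd1) (nat_lit 0) (p (nat_lit 0x89) (nat_lit 0) (p (nat_lit 0x41) (nat_lit 0) (p (nat_lit 0x10a0b0a89889a) (nat_lit 0) (p (nat_lit 0x898a8a09081a) (nat_lit 0) (p (nat_lit 0x109080988879a) (nat_lit 0) (p (nat_lit 0x88878908071a) (nat_lit 0) (p (nat_lit 0x8000080000000080887868a) (nat_lit 0) (p (nat_lit 0x10888070602) (nat_lit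 0) (p (nat_lit 0x8807868582) (nat_lit 0) (p (nat_lit 0x10587060502) (nat_lit 0) (p (nat_lit 0x8506858482) (nat_lit 0) (p (nat_lit 0x160004) (nat_lit 0) (p (nat_lit 0x68612) (nat_lit 0) (p (nat_lit 0x50592) (nat_lit 0) (p (nat_lit 0x38512) (nat_lit 0) (p (nat_lit 0x50392) (nat_lit 0) (p (nat_lit 0x38312) (nat_lit 0) (p (nat_lit 0x20292) (nat_lit 0) (p (nat_lit 0x38112) (nat_lit 0) (p (nat_lit 0x20092) (nat_lit 0) (p (nat_lit 0x8012) (nat_lit 0) pn))))))))))))))))))))))))))) :=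
  Cl.node (nat_lit 0x20000c) (nat_lit 2) (by decide +kernel) (ClAll.succ (ClAll.succ ClAll.zero n10) s25)

def n30 : Cl (O (nat_lit 6)) (R (nat_lit 14465))
    (p (nat_lit 0x200014) (nat_lit 0) (p (nat_lit 0x20000c) (nat_lit 0) (p (nat_lit 0x109) (nat_lit 1) (p (nat_lit 0x101) (nat_lit 0) (p (nat_lit 0x111) (nat_lit 0) (p (nat_lit 0xd1) (nat_lit 1) (p (nat_lit 0x89) (nat_lit 0) (p (nat_lit 0x41) (nat_lit 0) (p (nat_lit 0x10a0b0a89889a) (nat_lit 0) (p (nat_lit 0x898a8a09081a) (nat_lit 0) (p (nat_lit 0x109080988879a) (nat_lit 0) (p (nat_lit 0x88878908071a) (nat_lit 0) (p (nat_lit 0x8000080000000080887868a) (nat_lit 0) (p (nat_lit 0x10888070602) (nat_lit 0) (p (nat_lit 0x8807868582) (nat_lit 0) (p (nat_lit 0x10587060502) (nat_lit 0) (p (nat_lit 0x8506858482) (nat_lit 0) (p (nat_lit 0x160004) (nat_lit 0) (p (nat_lit 0x68612) (nat_lit 0) (p (nat_lit 0x50592) (nat_lit 0) (p (nat_lit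 0x38512) (nat_lit 0) (p (nat_lit 0x50392) (nat_lit 0) (p (nat_lit 0x38312) (nat_lit 0) (p (nat_lit 0x20292) (nat_lit 0) (p (nat_lit 0x38112) (nat_lit 0) (p (nat_lit 0x20092) (nat_lit 0) (p (nat_lit 0x8012) (nat_lit 0) pn))))))))))))))))))))))))))) :=
  Cl.node (nat_lit 0xc1) (nat_lit 2) (by decide +kernel) (ClAll.succ (ClAll.succ ClAll.zero s28) s29)

def n31 : Cl (O (nat_lit 6)) (R (nat_lit 14465))
    (p (nat_lit 0xb0004) (nat_lit 0) (p (nat_lit 0x20000c) (nat_lit 1) (p (nat_lit 0x109) (nat_lit 1) (p (nat_lit 0x101) (nat_lit 0) (p (nat_lit 0x111) (nat_lit 0) (p (nat_lit 0xd1) (nat_lit 1) (p (nat_lit 0x89) (nat_lit 0) (p (nat_lit 0x41) (nat_lit 0) (p (nat_lit 0x10a0b0a89889a) (nat_lit 0) (p (nat_lit 0x898a8a09081a) (nat_lit 0) (p (nat_lit 0x109080988879a) (nat_lit 0) (p (nat_lit 0x88878908071a) (nat_lit 0) (p (nat_lit 0x8000080000000080887868a) (nat_lit 0) (p (nat_lit 0x10888070602)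 (nat_lit 0) (p (nat_lit 0x8807868582) (nat_lit 0) (p (nat_lit 0x10587060502) (nat_lit 0) (p (nat_lit 0x8506858482) (nat_lit 0) (p (nat_lit 0x160004) (nat_lit 0) (p (nat_lit 0x68612) (nat_lit 0) (p (nat_lit 0x50592) (nat_lit 0) (p (nat_lit 0x38512) (nat_lit 0) (p (nat_lit 0x50392) (nat_lit 0) (p (nat_lit 0x38312) (nat_lit 0) (p (nat_lit 0x20292) (nat_lit 0) (p (nat_lit 0x38112) (nat_lit 0) (p (nat_lit 0x20092) (nat_lit 0) (p (nat_lit 0x8012) (nat_lit 0) pn))))))))))))))))))))))))))) :=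
  Cl.node (nat_lit 0x200014) (nat_lit 2) (by decide +kernel) (ClAll.succ (ClAll.succ ClAll.zero s31) s32)

def n32 : Cl (O (nat_lit 6)) (R (nat_lit 14465))
    (p (nat_lit 0x200014) (nat_lit 0) (p (nat_lit 0x20000c) (nat_lit 0) (p (nat_lit 0x81) (nat_lit 0) (p (nat_lit 0x101) (nat_lit 1) (p (nat_lit 0x111) (nat_lit 0) (p (nat_lit 0xd1) (nat_lit 1) (p (nat_lit 0x89) (nat_lit 0) (p (nat_lit 0x41) (nat_lit 0) (p (nat_lit 0x10a0b0a89889a) (nat_lit 0) (p (nat_lit 0x898a8a09081a) (nat_lit 0) (p (nat_lit 0x109080988879a) (nat_lit 0) (p (nat_lit 0x88878908071a) (nat_lit 0) (p (nat_lit 0x8000080000000080887868a) (nat_lit 0) (p (nat_lit 0x10888070602) (nat_lit 0) (p (nat_lit 0x8807868582) (nat_lit 0) (p (nat_lit 0x10587060502) (nat_lit 0) (p (nat_lit 0x8506858482) (nat_lit 0) (p (nat_lit 0x160004) (nat_lit 0) (p (nat_lit 0x68612) (nat_lit 0) (p (nat_lit 0x50592) (nat_lit 0) (p (nat_lit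 0x38512) (nat_lit 0) (p (nat_lit 0x50392) (nat_lit 0) (p (nat_lit 0x38312) (nat_lit 0) (p (nat_lit 0x20292) (nat_lit 0) (p (nat_lit 0x38112) (nat_lit 0) (p (nat_lit 0x20092) (nat_lit 0) (p (nat_lit 0x8012) (nat_lit 0) pn))))))))))))))))))))))))))) :=
  Cl.node (nat_lit 0x119) (nat_lit 2) (by decide +kernel) (ClAll.succ (ClAll.succ ClAll.zero s34) s35)

def n33 : Cl (O (nat_lit 6)) (R (nat_lit 14465))
    (p (nat_lit 0xb0004) (nat_lit 0) (p (nat_lit 0x20000c) (nat_lit 1) (p (nat_lit 0x81) (nat_lit 0) (p (nat_lit 0x101) (nat_lit 1) (p (nat_lit 0x111) (nat_lit 0) (p (nat_lit 0xd1) (nat_lit 1) (p (nat_lit 0x89) (nat_lit 0) (p (nat_lit 0x41) (nat_lit 0) (p (nat_lit 0x10a0b0a89889a) (nat_lit 0) (p (nat_lit 0x898a8a09081a) (nat_lit 0) (p (nat_lit 0x109080988879a) (nat_lit 0) (p (nat_lit 0x88878908071a) (nat_lit 0) (p (nat_lit 0x8000080000000080887868a) (nat_lit 0) (p (nat_lit 0x10888070602)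 (nat_lit 0) (p (nat_lit 0x8807868582) (nat_lit 0) (p (nat_lit 0x10587060502) (nat_lit 0) (p (nat_lit 0x8506858482) (nat_lit 0) (p (nat_lit 0x160004) (nat_lit 0) (p (nat_lit 0x68612) (nat_lit 0) (p (nat_lit 0x50592) (nat_lit 0) (p (nat_lit 0x38512) (nat_lit 0) (p (nat_lit 0x50392) (nat_lit 0) (p (nat_lit 0x38312) (nat_lit 0) (p (nat_lit 0x20292) (nat_lit 0) (p (nat_lit 0x38112) (nat_lit 0) (p (nat_lit 0x20092) (nat_lit 0) (p (nat_lit 0x8012) (nat_lit 0) pn))))))))))))))))))))))))))) :=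
  Cl.node (nat_lit 0x200014) (nat_lit 2) (by decide +kernel) (ClAll.succ (ClAll.succ ClAll.zero s37) s38)

def n34 : Cl (O (nat_lit 6)) (R (nat_lit 14465))
    (p (nat_lit 0x20000c) (nat_lit 0) (p (nat_lit 0xc1) (nat_lit 0) (p (nat_lit 0x81) (nat_lit 1) (p (nat_lit 0x101) (nat_lit 1) (p (nat_lit 0x111) (nat_lit 0) (p (nat_lit 0xd1) (nat_lit 1) (p (nat_lit 0x89) (nat_lit 0) (p (nat_lit 0x41) (nat_lit 0) (p (nat_lit 0x10a0b0a89889a) (nat_lit 0) (p (nat_lit 0x898a8a09081a) (nat_lit 0) (p (nat_lit 0x109080988879a) (nat_lit 0) (p (nat_lit 0x88878908071a) (nat_lit 0) (p (nat_lit 0x8000080000000080887868a) (nat_lit 0) (p (nat_lit 0x10888070602) (nat_lit 0) (p (nat_lit 0x8807868582) (nat_lit 0) (p (nat_lit 0x10587060502) (nat_lit 0) (p (nat_lit 0x8506858482) (nat_lit 0) (p (nat_lit 0x160004) (nat_lit 0) (p (nat_lit 0x68612) (nat_lit 0) (p (nat_lit 0x50592) (nat_lit 0) (p (nat_lit 0x38512)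 (nat_lit 0) (p (nat_lit 0x50392) (nat_lit 0) (p (nat_lit 0x38312) (nat_lit 0) (p (nat_lit 0x20292) (nat_lit 0) (p (nat_lit 0x38112) (nat_lit 0) (p (nat_lit 0x20092) (nat_lit 0) (p (nat_lit 0x8012) (nat_lit 0) pn))))))))))))))))))))))))))) :=
  Cl.node (nat_lit 0x200014) (nat_lit 2) (by decide +kernel) (ClAll.succ (ClAll.succ ClAll.zero n11) n12)

def n35 : Cl (O (nat_lit 6)) (R (nat_lit 14465))
    (p (nat_lit 0xd1) (nat_lit 1) (p (nat_lit 0x111) (nat_lit 1) (p (nat_lit 0x109) (nat_lit 0) (p (nat_lit 0x101) (nat_lit 0) (p (nat_lit 0x119) (nat_lit 0) (p (nat_lit 0xc9) (nat_lit 0) (p (nat_lit 0x89) (nat_lit 1) (p (nat_lit 0x41) (nat_lit 0) (p (nat_lit 0x10a0b0a89889a) (nat_lit 0) (p (nat_lit 0x898a8a09081a) (nat_lit 0) (p (nat_lit 0x109080988879a) (nat_lit 0) (p (nat_lit 0x88878908071a) (nat_lit 0) (p (nat_lit 0x8000080000000080887868a) (nat_lit 0) (p (nat_lit 0x10888070602) (nat_lit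 0) (p (nat_lit 0x8807868582) (nat_lit 0) (p (nat_lit 0x10587060502) (nat_lit 0) (p (nat_lit 0x8506858482) (nat_lit 0) (p (nat_lit 0x160004) (nat_lit 0) (p (nat_lit 0x68612) (nat_lit 0) (p (nat_lit 0x50592) (nat_lit 0) (p (nat_lit 0x38512) (nat_lit 0) (p (nat_lit 0x50392) (nat_lit 0) (p (nat_lit 0x38312) (nat_lit 0) (p (nat_lit 0x20292) (nat_lit 0) (p (nat_lit 0x38112) (nat_lit 0) (p (nat_lit 0x20092) (nat_lit 0) (p (nat_lit 0x8012) (nat_lit 0) pn))))))))))))))))))))))))))) :=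
  Cl.node (nat_lit 0x20000c) (nat_lit 2) (by decide +kernel) (ClAll.succ (ClAll.succ ClAll.zero n13) s56)

def n36 : Cl (O (nat_lit 6)) (R (nat_lit 14465))
    (p (nat_lit 0x20000c) (nat_lit 0) (p (nat_lit 0xd1) (nat_lit 0) (p (nat_lit 0x109) (nat_lit 1) (p (nat_lit 0x101) (nat_lit 0) (p (nat_lit 0x119) (nat_lit 0) (p (nat_lit 0xc9) (nat_lit 0) (p (nat_lit 0x89) (nat_lit 1) (p (nat_lit 0x41) (nat_lit 0) (p (nat_lit 0x10a0b0a89889a) (nat_lit 0) (p (nat_lit 0x898a8a09081a) (nat_lit 0) (p (nat_lit 0x109080988879a) (nat_lit 0) (p (nat_lit 0x88878908071a) (nat_lit 0) (p (nat_lit 0x8000080000000080887868a) (nat_lit 0) (p (nat_lit 0x10888070602) (nat_lit 0) (p (nat_lit 0x8807868582) (nat_lit 0) (p (nat_lit 0x10587060502) (nat_lit 0) (p (nat_lit 0x8506858482) (nat_lit 0) (p (nat_lit 0x160004) (nat_lit 0) (p (nat_lit 0x68612) (nat_lit 0) (p (nat_lit 0x50592) (nat_lit 0) (p (nat_lit 0x38512)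 (nat_lit 0) (p (nat_lit 0x50392) (nat_lit 0) (p (nat_lit 0x38312) (nat_lit 0) (p (nat_lit 0x20292) (nat_lit 0) (p (nat_lit 0x38112) (nat_lit 0) (p (nat_lit 0x20092) (nat_lit 0) (p (nat_lit 0x8012) (nat_lit 0) pn))))))))))))))))))))))))))) :=
  Cl.node (nat_lit 0x200014) (nat_lit 2) (by decide +kernel) (ClAll.succ (ClAll.succ ClAll.zero s57) s58)

def n37 : Cl (O (nat_lit 6)) (R (nat_lit 14465))
    (p (nat_lit 0x20000c) (nat_lit 0) (p (nat_lit 0xd1) (nat_lit 1) (p (nat_lit 0x109) (nat_lit 1) (p (nat_lit 0x101) (nat_lit 0) (p (nat_lit 0x119) (nat_lit 0) (p (nat_lit 0xc9) (nat_lit 0) (p (nat_lit 0x89) (nat_lit 1) (p (nat_lit 0x41) (nat_lit 0) (p (nat_lit 0x10a0b0a89889a) (nat_lit 0) (p (nat_lit 0x898a8a09081a) (nat_lit 0) (p (nat_lit 0x109080988879a) (nat_lit 0) (p (nat_lit 0x88878908071a) (nat_lit 0) (p (nat_lit 0x8000080000000080887868a) (nat_lit 0) (p (nat_lit 0x10888070602)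 (nat_lit 0) (p (nat_lit 0x8807868582) (nat_lit 0) (p (nat_lit 0x10587060502) (nat_lit 0) (p (nat_lit 0x8506858482) (nat_lit 0) (p (nat_lit 0x160004) (nat_lit 0) (p (nat_lit 0x68612) (nat_lit 0) (p (nat_lit 0x50592) (nat_lit 0) (p (nat_lit 0x38512) (nat_lit 0) (p (nat_lit 0x50392) (nat_lit 0) (p (nat_lit 0x38312) (nat_lit 0) (p (nat_lit 0x20292) (nat_lit 0) (p (nat_lit 0x38112) (nat_lit 0) (p (nat_lit 0x20092) (nat_lit 0) (p (nat_lit 0x8012) (nat_lit 0) pn))))))))))))))))))))))))))) :=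
  Cl.node (nat_lit 0x200014) (nat_lit 2) (by decide +kernel) (ClAll.succ (ClAll.succ ClAll.zero n14) n15)

def n38 : Cl (O (nat_lit 6)) (R (nat_lit 14465))
    (p (nat_lit 0x20000c) (nat_lit 0) (p (nat_lit 0xd1) (nat_lit 1) (p (nat_lit 0xc1) (nat_lit 0) (p (nat_lit 0x101) (nat_lit 1) (p (nat_lit 0x119) (nat_lit 0) (p (nat_lit 0xc9) (nat_lit 0) (p (nat_lit 0x89) (nat_lit 1) (p (nat_lit 0x41) (nat_lit 0) (p (nat_lit 0x10a0b0a89889a) (nat_lit 0) (p (nat_lit 0x898a8a09081a) (nat_lit 0) (p (nat_lit 0x109080988879a) (nat_lit 0) (p (nat_lit 0x88878908071a) (nat_lit 0) (p (nat_lit 0x8000080000000080887868a) (nat_lit 0) (p (nat_lit 0x10888070602) (nat_lit 0) (p (nat_lit 0x8807868582) (nat_lit 0) (p (nat_lit 0x10587060502) (nat_lit 0) (p (nat_lit 0x8506858482) (nat_lit 0) (p (nat_lit 0x160004) (nat_lit 0) (p (nat_lit 0x68612) (nat_lit 0) (p (nat_lit 0x50592) (nat_lit 0) (p (nat_lit 0x38512)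 (nat_lit 0) (p (nat_lit 0x50392) (nat_lit 0) (p (nat_lit 0x38312) (nat_lit 0) (p (nat_lit 0x20292) (nat_lit 0) (p (nat_lit 0x38112) (nat_lit 0) (p (nat_lit 0x20092) (nat_lit 0) (p (nat_lit 0x8012) (nat_lit 0) pn))))))))))))))))))))))))))) :=
  Cl.node (nat_lit 0x200014) (nat_lit 2) (by decide +kernel) (ClAll.succ (ClAll.succ ClAll.zero s70) n16)

def n39 : Cl (O (nat_lit 6)) (R (nat_lit 14465))
    (p (nat_lit 0x20000c) (nat_lit 0) (p (nat_lit 0x111) (nat_lit 1) (p (nat_lit 0xd1) (nat_lit 1) (p (nat_lit 0xc1) (nat_lit 0) (p (nat_lit 0x119) (nat_lit 1) (p (nat_lit 0xc9) (nat_lit 0) (p (nat_lit 0x89) (nat_lit 1) (p (nat_lit 0x41) (nat_lit 0) (p (nat_lit 0x10a0b0a89889a) (nat_lit 0) (p (nat_lit 0x898a8a09081a) (nat_lit 0) (p (nat_lit 0x109080988879a) (nat_lit 0) (p (nat_lit 0x88878908071a) (nat_lit 0) (p (nat_lit 0x8000080000000080887868a) (nat_lit 0) (p (nat_lit 0x10888070602) (nat_lit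 0) (p (nat_lit 0x8807868582) (nat_lit 0) (p (nat_lit 0x10587060502) (nat_lit 0) (p (nat_lit 0x8506858482) (nat_lit 0) (p (nat_lit 0x160004) (nat_lit 0) (p (nat_lit 0x68612) (nat_lit 0) (p (nat_lit 0x50592) (nat_lit 0) (p (nat_lit 0x38512) (nat_lit 0) (p (nat_lit 0x50392) (nat_lit 0) (p (nat_lit 0x38312) (nat_lit 0) (p (nat_lit 0x20292) (nat_lit 0) (p (nat_lit 0x38112) (nat_lit 0) (p (nat_lit 0x20092) (nat_lit 0) (p (nat_lit 0x8012) (nat_lit 0) pn))))))))))))))))))))))))))) :=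
  Cl.node (nat_lit 0x200014) (nat_lit 2) (by decide +kernel) (ClAll.succ (ClAll.succ ClAll.zero s78) s79)

def n40 : Cl (O (nat_lit 6)) (R (nat_lit 14465))
    (p (nat_lit 0x20000c) (nat_lit 0) (p (nat_lit 0x111) (nat_lit 1) (p (nat_lit 0x101) (nat_lit 0) (p (nat_lit 0xc1) (nat_lit 1) (p (nat_lit 0x119) (nat_lit 1) (p (nat_lit 0xc9) (nat_lit 0) (p (nat_lit 0x89) (nat_lit 1) (p (nat_lit 0x41) (nat_lit 0) (p (nat_lit 0x10a0b0a89889a) (nat_lit 0) (p (nat_lit 0x898a8a09081a) (nat_lit 0) (p (nat_lit 0x109080988879a) (nat_lit 0) (p (nat_lit 0x88878908071a) (nat_lit 0) (p (nat_lit 0x8000080000000080887868a) (nat_lit 0) (p (nat_lit 0x10888070602) (nat_lit 0) (p (nat_lit 0x8807868582) (nat_lit 0) (p (nat_lit 0x10587060502) (nat_lit 0) (p (nat_lit 0x8506858482) (nat_lit 0) (p (nat_lit 0x160004) (nat_lit 0) (p (nat_lit 0x68612) (nat_lit 0) (p (nat_lit 0x50592) (nat_lit 0) (p (nat_lit 0x38512)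 (nat_lit 0) (p (nat_lit 0x50392) (nat_lit 0) (p (nat_lit 0x38312) (nat_lit 0) (p (nat_lit 0x20292) (nat_lit 0) (p (nat_lit 0x38112) (nat_lit 0) (p (nat_lit 0x20092) (nat_lit 0) (p (nat_lit 0x8012) (nat_lit 0) pn))))))))))))))))))))))))))) :=
  Cl.node (nat_lit 0x200014) (nat_lit 2) (by decide +kernel) (ClAll.succ (ClAll.succ ClAll.zero n17) n18)

def n41 : Cl (O (nat_lit 6)) (R (nat_lit 14465))
    (p (nat_lit 0x20000c) (nat_lit 1) (p (nat_lit 0x89) (nat_lit 0) (p (nat_lit 0x109) (nat_lit 1) (p (nat_lit 0x101) (nat_lit 0) (p (nat_lit 0x119) (nat_lit 0) (p (nat_lit 0xd1) (nat_lit 0) (p (nat_lit 0x81) (nat_lit 0) (p (nat_lit 0x41) (nat_lit 1) (p (nat_lit 0x10a0b0a89889a) (nat_lit 0) (p (nat_lit 0x898a8a09081a) (nat_lit 0) (p (nat_lit 0x109080988879a) (nat_lit 0) (p (nat_lit 0x88878908071a) (nat_lit 0) (p (nat_lit 0x8000080000000080887868a) (nat_lit 0) (p (nat_lit 0x10888070602)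 (nat_lit 0) (p (nat_lit 0x8807868582) (nat_lit 0) (p (nat_lit 0x10587060502) (nat_lit 0) (p (nat_lit 0x8506858482) (nat_lit 0) (p (nat_lit 0x160004) (nat_lit 0) (p (nat_lit 0x68612) (nat_lit 0) (p (nat_lit 0x50592) (nat_lit 0) (p (nat_lit 0x38512) (nat_lit 0) (p (nat_lit 0x50392) (nat_lit 0) (p (nat_lit 0x38312) (nat_lit 0) (p (nat_lit 0x20292) (nat_lit 0) (p (nat_lit 0x38112) (nat_lit 0) (p (nat_lit 0x20092) (nat_lit 0) (p (nat_lit 0x8012) (nat_lit 0) pn))))))))))))))))))))))))))) :=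
  Cl.node (nat_lit 0xb0004) (nat_lit 2) (by decide +kernel) (ClAll.succ (ClAll.succ ClAll.zero n19) s98)

def n42 : Cl (O (nat_lit 6)) (R (nat_lit 14465))
    (p (nat_lit 0xc9) (nat_lit 1) (p (nat_lit 0x89) (nat_lit 1) (p (nat_lit 0xc1) (nat_lit 0) (p (nat_lit 0x101) (nat_lit 1) (p (nat_lit 0x119) (nat_lit 0) (p (nat_lit 0xd1) (nat_lit 0) (p (nat_lit 0x81) (nat_lit 0) (p (nat_lit 0x41) (nat_lit 1) (p (nat_lit 0x10a0b0a89889a) (nat_lit 0) (p (nat_lit 0x898a8a09081a) (nat_lit 0) (p (nat_lit 0x109080988879a) (nat_lit 0) (p (nat_lit 0x88878908071a) (nat_lit 0) (p (nat_lit 0x8000080000000080887868a) (nat_lit 0) (p (nat_lit 0x10888070602) (nat_lit 0) (p (nat_lit 0x8807868582) (nat_lit 0) (p (nat_lit 0x10587060502) (nat_lit 0) (p (nat_lit 0x8506858482) (nat_lit 0) (p (nat_lit 0x160004) (nat_lit 0) (p (nat_lit 0x68612) (nat_lit 0) (p (nat_lit 0x50592) (nat_lit 0) (p (nat_lit 0x38512)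 (nat_lit 0) (p (nat_lit 0x50392) (nat_lit 0) (p (nat_lit 0x38312) (nat_lit 0) (p (nat_lit 0x20292) (nat_lit 0) (p (nat_lit 0x38112) (nat_lit 0) (p (nat_lit 0x20092) (nat_lit 0) (p (nat_lit 0x8012) (nat_lit 0) pn))))))))))))))))))))))))))) :=
  Cl.node (nat_lit 0x20000c) (nat_lit 2) (by decide +kernel) (ClAll.succ (ClAll.succ ClAll.zero s104) s105)

def n43 : Cl (O (nat_lit 6)) (R (nat_lit 14465))
    (p (nat_lit 0x20000c) (nat_lit 0) (p (nat_lit 0x89) (nat_lit 1) (p (nat_lit 0xc1) (nat_lit 1) (p (nat_lit 0x101) (nat_lit 1) (p (nat_lit 0x119) (nat_lit 0) (p (nat_lit 0xd1) (nat_lit 0) (p (nat_lit 0x81) (nat_lit 0) (p (nat_lit 0x41) (nat_lit 1) (p (nat_lit 0x10a0b0a89889a) (nat_lit 0) (p (nat_lit 0x898a8a09081a) (nat_lit 0) (p (nat_lit 0x109080988879a) (nat_lit 0) (p (nat_lit 0x88878908071a) (nat_lit 0) (p (nat_lit 0x8000080000000080887868a) (nat_lit 0) (p (nat_lit 0x10888070602)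 (nat_lit 0) (p (nat_lit 0x8807868582) (nat_lit 0) (p (nat_lit 0x10587060502) (nat_lit 0) (p (nat_lit 0x8506858482) (nat_lit 0) (p (nat_lit 0x160004) (nat_lit 0) (p (nat_lit 0x68612) (nat_lit 0) (p (nat_lit 0x50592) (nat_lit 0) (p (nat_lit 0x38512) (nat_lit 0) (p (nat_lit 0x50392) (nat_lit 0) (p (nat_lit 0x38312) (nat_lit 0) (p (nat_lit 0x20292) (nat_lit 0) (p (nat_lit 0x38112) (nat_lit 0) (p (nat_lit 0x20092) (nat_lit 0) (p (nat_lit 0x8012) (nat_lit 0) pn))))))))))))))))))))))))))) :=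
  Cl.node (nat_lit 0x200014) (nat_lit 2) (by decide +kernel) (ClAll.succ (ClAll.succ ClAll.zero s108) s109)

def n44 : Cl (O (nat_lit 6)) (R (nat_lit 14465))
    (p (nat_lit 0x109) (nat_lit 0) (p (nat_lit 0x89) (nat_lit 1) (p (nat_lit 0xc9) (nat_lit 1) (p (nat_lit 0xc1) (nat_lit 0) (p (nat_lit 0x119) (nat_lit 1) (p (nat_lit 0xd1) (nat_lit 0) (p (nat_lit 0x81) (nat_lit 0) (p (nat_lit 0x41) (nat_lit 1) (p (nat_lit 0x10a0b0a89889a) (nat_lit 0) (p (nat_lit 0x898a8a09081a) (nat_lit 0) (p (nat_lit 0x109080988879a) (nat_lit 0) (p (nat_lit 0x88878908071a) (nat_lit 0) (p (nat_lit 0x8000080000000080887868a) (nat_lit 0) (p (nat_lit 0x10888070602) (nat_lit 0) (p (nat_lit 0x8807868582) (nat_lit 0) (p (nat_lit 0x10587060502) (nat_lit 0) (p (nat_lit 0x8506858482) (nat_lit 0) (p (nat_lit 0x160004) (nat_lit 0) (p (nat_lit 0x68612) (nat_lit 0) (p (nat_lit 0x50592) (nat_lit 0) (p (nat_lit 0x38512)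 (nat_lit 0) (p (nat_lit 0x50392) (nat_lit 0) (p (nat_lit 0x38312) (nat_lit 0) (p (nat_lit 0x20292) (nat_lit 0) (p (nat_lit 0x38112) (nat_lit 0) (p (nat_lit 0x20092) (nat_lit 0) (p (nat_lit 0x8012) (nat_lit 0) pn))))))))))))))))))))))))))) :=
  Cl.node (nat_lit 0x20000c) (nat_lit 2) (by decide +kernel) (ClAll.succ (ClAll.succ ClAll.zero s113) s114)

def n45 : Cl (O (nat_lit 6)) (R (nat_lit 14465))
    (p (nat_lit 0x109) (nat_lit 1) (p (nat_lit 0x89) (nat_lit 1) (p (nat_lit 0xc9) (nat_lit 1) (p (nat_lit 0xc1) (nat_lit 0) (p (nat_lit 0x119) (nat_lit 1) (p (nat_lit 0xd1) (nat_lit 0) (p (nat_lit 0x81) (nat_lit 0) (p (nat_lit 0x41) (nat_lit 1) (p (nat_lit 0x10a0b0a89889a) (nat_lit 0) (p (nat_lit 0x898a8a09081a) (nat_lit 0) (p (nat_lit 0x109080988879a) (nat_lit 0) (p (nat_lit 0x88878908071a) (nat_lit 0) (p (nat_lit 0x8000080000000080887868a) (nat_lit 0) (p (nat_lit 0x10888070602) (nat_lit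 0) (p (nat_lit 0x8807868582) (nat_lit 0) (p (nat_lit 0x10587060502) (nat_lit 0) (p (nat_lit 0x8506858482) (nat_lit 0) (p (nat_lit 0x160004) (nat_lit 0) (p (nat_lit 0x68612) (nat_lit 0) (p (nat_lit 0x50592) (nat_lit 0) (p (nat_lit 0x38512) (nat_lit 0) (p (nat_lit 0x50392) (nat_lit 0) (p (nat_lit 0x38312) (nat_lit 0) (p (nat_lit 0x20292) (nat_lit 0) (p (nat_lit 0x38112) (nat_lit 0) (p (nat_lit 0x20092) (nat_lit 0) (p (nat_lit 0x8012) (nat_lit 0) pn))))))))))))))))))))))))))) :=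
  Cl.node (nat_lit 0x20000c) (nat_lit 2) (by decide +kernel) (ClAll.succ (ClAll.succ ClAll.zero s115) s116)

def n46 : Cl (O (nat_lit 6)) (R (nat_lit 14465))
    (p (nat_lit 0x109) (nat_lit 0) (p (nat_lit 0x89) (nat_lit 1) (p (nat_lit 0x101) (nat_lit 0) (p (nat_lit 0xc1) (nat_lit 1) (p (nat_lit 0x119) (nat_lit 1) (p (nat_lit 0xd1) (nat_lit 0) (p (nat_lit 0x81) (nat_lit 0) (p (nat_lit 0x41) (nat_lit 1) (p (nat_lit 0x10a0b0a89889a) (nat_lit 0) (p (nat_lit 0x898a8a09081a) (nat_lit 0) (p (nat_lit 0x109080988879a) (nat_lit 0) (p (nat_lit 0x88878908071a) (nat_lit 0) (p (nat_lit 0x8000080000000080887868a) (nat_lit 0) (p (nat_lit 0x10888070602) (nat_lit 0) (p (nat_lit 0x8807868582) (nat_lit 0) (p (nat_lit 0x10587060502) (nat_lit 0) (p (nat_lit 0x8506858482) (nat_lit 0) (p (nat_lit 0x160004) (nat_lit 0) (p (nat_lit 0x68612) (nat_lit 0) (p (nat_lit 0x50592) (nat_lit 0) (p (nat_lit 0x38512)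 (nat_lit 0) (p (nat_lit 0x50392) (nat_lit 0) (p (nat_lit 0x38312) (nat_lit 0) (p (nat_lit 0x20292) (nat_lit 0) (p (nat_lit 0x38112) (nat_lit 0) (p (nat_lit 0x20092) (nat_lit 0) (p (nat_lit 0x8012) (nat_lit 0) pn))))))))))))))))))))))))))) :=
  Cl.node (nat_lit 0x20000c) (nat_lit 2) (by decide +kernel) (ClAll.succ (ClAll.succ ClAll.zero s118) s119)

def n47 : Cl (O (nat_lit 6)) (R (nat_lit 14465))
    (p (nat_lit 0x109) (nat_lit 1) (p (nat_lit 0x89) (nat_lit 1) (p (nat_lit 0x101) (nat_lit 0) (p (nat_lit 0xc1) (nat_lit 1) (p (nat_lit 0x119) (nat_lit 1) (p (nat_lit 0xd1) (nat_lit 0) (p (nat_lit 0x81) (nat_lit 0) (p (nat_lit 0x41) (nat_lit 1) (p (nat_lit 0x10a0b0a89889a) (nat_lit 0) (p (nat_lit 0x898a8a09081a) (nat_lit 0) (p (nat_lit 0x109080988879a) (nat_lit 0) (p (nat_lit 0x88878908071a) (nat_lit 0) (p (nat_lit 0x8000080000000080887868a) (nat_lit 0) (p (nat_lit 0x10888070602) (nat_lit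 0) (p (nat_lit 0x8807868582) (nat_lit 0) (p (nat_lit 0x10587060502) (nat_lit 0) (p (nat_lit 0x8506858482) (nat_lit 0) (p (nat_lit 0x160004) (nat_lit 0) (p (nat_lit 0x68612) (nat_lit 0) (p (nat_lit 0x50592) (nat_lit 0) (p (nat_lit 0x38512) (nat_lit 0) (p (nat_lit 0x50392) (nat_lit 0) (p (nat_lit 0x38312) (nat_lit 0) (p (nat_lit 0x20292) (nat_lit 0) (p (nat_lit 0x38112) (nat_lit 0) (p (nat_lit 0x20092) (nat_lit 0) (p (nat_lit 0x8012) (nat_lit 0) pn))))))))))))))))))))))))))) :=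
  Cl.node (nat_lit 0x20000c) (nat_lit 2) (by decide +kernel) (ClAll.succ (ClAll.succ ClAll.zero n20) s122)

def n48 : Cl (O (nat_lit 6)) (R (nat_lit 14465))
    (p (nat_lit 0x20000c) (nat_lit 1) (p (nat_lit 0x89) (nat_lit 0) (p (nat_lit 0x101) (nat_lit 1) (p (nat_lit 0xc1) (nat_lit 1) (p (nat_lit 0x119) (nat_lit 1) (p (nat_lit 0xd1) (nat_lit 0) (p (nat_lit 0x81) (nat_lit 0) (p (nat_lit 0x41) (nat_lit 1) (p (nat_lit 0x10a0b0a89889a) (nat_lit 0) (p (nat_lit 0x898a8a09081a) (nat_lit 0) (p (nat_lit 0x109080988879a) (nat_lit 0) (p (nat_lit 0x88878908071a) (nat_lit 0) (p (nat_lit 0x8000080000000080887868a) (nat_lit 0) (p (nat_lit 0x10888070602) (nat_lit 0) (p (nat_lit 0x8807868582) (nat_lit 0) (p (nat_lit 0x10587060502) (nat_lit 0) (p (nat_lit 0x8506858482) (nat_lit 0) (p (nat_lit 0x160004) (nat_lit 0) (p (nat_lit 0x68612) (nat_lit 0) (p (nat_lit 0x50592) (nat_lit 0) (p (nat_lit 0x38512)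 (nat_lit 0) (p (nat_lit 0x50392) (nat_lit 0) (p (nat_lit 0x38312) (nat_lit 0) (p (nat_lit 0x20292) (nat_lit 0) (p (nat_lit 0x38112) (nat_lit 0) (p (nat_lit 0x20092) (nat_lit 0) (p (nat_lit 0x8012) (nat_lit 0) pn))))))))))))))))))))))))))) :=
  Cl.node (nat_lit 0xb0004) (nat_lit 2) (by decide +kernel) (ClAll.succ (ClAll.succ ClAll.zero n21) s126)

def n49 : Cl (O (nat_lit 6)) (R (nat_lit 14465))
    (p (nat_lit 0x20000c) (nat_lit 0) (p (nat_lit 0x89) (nat_lit 1) (p (nat_lit 0x101) (nat_lit 1) (p (nat_lit 0xc1) (nat_lit 1) (p (nat_lit 0x119) (nat_lit 1) (p (nat_lit 0xd1) (nat_lit 0) (p (nat_lit 0x81) (nat_lit 0) (p (nat_lit 0x41) (nat_lit 1) (p (nat_lit 0x10a0b0a89889a) (nat_lit 0) (p (nat_lit 0x898a8a09081a) (nat_lit 0) (p (nat_lit 0x109080988879a) (nat_lit 0) (p (nat_lit 0x88878908071a) (nat_lit 0) (p (nat_lit 0x8000080000000080887868a) (nat_lit 0) (p (nat_lit 0x10888070602) (nat_lit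 0) (p (nat_lit 0x8807868582) (nat_lit 0) (p (nat_lit 0x10587060502) (nat_lit 0) (p (nat_lit 0x8506858482) (nat_lit 0) (p (nat_lit 0x160004) (nat_lit 0) (p (nat_lit 0x68612) (nat_lit 0) (p (nat_lit 0x50592) (nat_lit 0) (p (nat_lit 0x38512) (nat_lit 0) (p (nat_lit 0x50392) (nat_lit 0) (p (nat_lit 0x38312) (nat_lit 0) (p (nat_lit 0x20292) (nat_lit 0) (p (nat_lit 0x38112) (nat_lit 0) (p (nat_lit 0x20092) (nat_lit 0) (p (nat_lit 0x8012) (nat_lit 0) pn))))))))))))))))))))))))))) :=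
  Cl.node (nat_lit 0x200014) (nat_lit 2) (by decide +kernel) (ClAll.succ (ClAll.succ ClAll.zero s127) s128)

def n50 : Cl (O (nat_lit 6)) (R (nat_lit 14465))
    (p (nat_lit 0xc9) (nat_lit 0) (p (nat_lit 0x89) (nat_lit 1) (p (nat_lit 0x109) (nat_lit 1) (p (nat_lit 0x101) (nat_lit 0) (p (nat_lit 0x111) (nat_lit 0) (p (nat_lit 0xd1) (nat_lit 1) (p (nat_lit 0x81) (nat_lit 0) (p (nat_lit 0x41) (nat_lit 1) (p (nat_lit 0x10a0b0a89889a) (nat_lit 0) (p (nat_lit 0x898a8a09081a) (nat_lit 0) (p (nat_lit 0x109080988879a) (nat_lit 0) (p (nat_lit 0x88878908071a) (nat_lit 0) (p (nat_lit 0x8000080000000080887868a) (nat_lit 0) (p (nat_lit 0x10888070602) (nat_lit 0) (p (nat_lit 0x8807868582) (nat_lit 0) (p (nat_lit 0x10587060502) (nat_lit 0) (p (nat_lit 0x8506858482) (nat_lit 0) (p (nat_lit 0x160004) (nat_lit 0) (p (nat_lit 0x68612) (nat_lit 0) (p (nat_lit 0x50592) (nat_lit 0) (p (nat_lit 0x38512)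 (nat_lit 0) (p (nat_lit 0x50392) (nat_lit 0) (p (nat_lit 0x38312) (nat_lit 0) (p (nat_lit 0x20292) (nat_lit 0) (p (nat_lit 0x38112) (nat_lit 0) (p (nat_lit 0x20092) (nat_lit 0) (p (nat_lit 0x8012) (nat_lit 0) pn))))))))))))))))))))))))))) :=
  Cl.node (nat_lit 0x20000c) (nat_lit 2) (by decide +kernel) (ClAll.succ (ClAll.succ ClAll.zero s133) s134)

def n51 : Cl (O (nat_lit 6)) (R (nat_lit 14465))
    (p (nat_lit 0x20000c) (nat_lit 0) (p (nat_lit 0xc9) (nat_lit 0) (p (nat_lit 0x89) (nat_lit 1) (p (nat_lit 0x101) (nat_lit 1) (p (nat_lit 0x111) (nat_lit 0) (p (nat_lit 0xd1) (nat_lit 1) (p (nat_lit 0x81) (nat_lit 0) (p (nat_lit 0x41) (nat_lit 1) (p (nat_lit 0x10a0b0a89889a) (nat_lit 0) (p (nat_lit 0x898a8a09081a) (nat_lit 0) (p (nat_lit 0x109080988879a) (nat_lit 0) (p (nat_lit 0x88878908071a) (nat_lit 0) (p (nat_lit 0x8000080000000080887868a) (nat_lit 0) (p (nat_lit 0x10888070602)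 (nat_lit 0) (p (nat_lit 0x8807868582) (nat_lit 0) (p (nat_lit 0x10587060502) (nat_lit 0) (p (nat_lit 0x8506858482) (nat_lit 0) (p (nat_lit 0x160004) (nat_lit 0) (p (nat_lit 0x68612) (nat_lit 0) (p (nat_lit 0x50592) (nat_lit 0) (p (nat_lit 0x38512) (nat_lit 0) (p (nat_lit 0x50392) (nat_lit 0) (p (nat_lit 0x38312) (nat_lit 0) (p (nat_lit 0x20292) (nat_lit 0) (p (nat_lit 0x38112) (nat_lit 0) (p (nat_lit 0x20092) (nat_lit 0) (p (nat_lit 0x8012) (nat_lit 0) pn))))))))))))))))))))))))))) :=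
  Cl.node (nat_lit 0x200014) (nat_lit 2) (by decide +kernel) (ClAll.succ (ClAll.succ ClAll.zero n22) s142)

def n52 : Cl (O (nat_lit 6)) (R (nat_lit 14465))
    (p (nat_lit 0x20000c) (nat_lit 1) (p (nat_lit 0xc9) (nat_lit 0) (p (nat_lit 0x89) (nat_lit 1) (p (nat_lit 0x101) (nat_lit 1) (p (nat_lit 0x111) (nat_lit 0) (p (nat_lit 0xd1) (nat_lit 1) (p (nat_lit 0x81) (nat_lit 0) (p (nat_lit 0x41) (nat_lit 1) (p (nat_lit 0x10a0b0a89889a) (nat_lit 0) (p (nat_lit 0x898a8a09081a) (nat_lit 0) (p (nat_lit 0x109080988879a) (nat_lit 0) (p (nat_lit 0x88878908071a) (nat_lit 0) (p (nat_lit 0x8000080000000080887868a) (nat_lit 0) (p (nat_lit 0x10888070602) (nat_lit 0) (p (nat_lit 0x8807868582) (nat_lit 0) (p (nat_lit 0x10587060502) (nat_lit 0) (p (nat_lit 0x8506858482) (nat_lit 0) (p (nat_lit 0x160004) (nat_lit 0) (p (nat_lit 0x68612) (nat_lit 0) (p (nat_lit 0x50592) (nat_lit 0) (p (nat_lit 0x38512)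 (nat_lit 0) (p (nat_lit 0x50392) (nat_lit 0) (p (nat_lit 0x38312) (nat_lit 0) (p (nat_lit 0x20292) (nat_lit 0) (p (nat_lit 0x38112) (nat_lit 0) (p (nat_lit 0x20092) (nat_lit 0) (p (nat_lit 0x8012) (nat_lit 0) pn))))))))))))))))))))))))))) :=
  Cl.node (nat_lit 0xb0004) (nat_lit 2) (by decide +kernel) (ClAll.succ (ClAll.succ ClAll.zero n23) s145)

def n53 : Cl (O (nat_lit 6)) (R (nat_lit 14465))
    (p (nat_lit 0xd1) (nat_lit 1) (p (nat_lit 0x111) (nat_lit 1) (p (nat_lit 0x109) (nat_lit 0) (p (nat_lit 0x101) (nat_lit 0) (p (nat_lit 0x119) (nat_lit 0) (p (nat_lit 0xc1) (nat_lit 0) (p (nat_lit 0x81) (nat_lit 1) (p (nat_lit 0x41) (nat_lit 1) (p (nat_lit 0x10a0b0a89889a) (nat_lit 0) (p (nat_lit 0x898a8a09081a) (nat_lit 0) (p (nat_lit 0x109080988879a) (nat_lit 0) (p (nat_lit 0x88878908071a) (nat_lit 0) (p (nat_lit 0x8000080000000080887868a) (nat_lit 0) (p (nat_lit 0x10888070602) (nat_lit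 0) (p (nat_lit 0x8807868582) (nat_lit 0) (p (nat_lit 0x10587060502) (nat_lit 0) (p (nat_lit 0x8506858482) (nat_lit 0) (p (nat_lit 0x160004) (nat_lit 0) (p (nat_lit 0x68612) (nat_lit 0) (p (nat_lit 0x50592) (nat_lit 0) (p (nat_lit 0x38512) (nat_lit 0) (p (nat_lit 0x50392) (nat_lit 0) (p (nat_lit 0x38312) (nat_lit 0) (p (nat_lit 0x20292) (nat_lit 0) (p (nat_lit 0x38112) (nat_lit 0) (p (nat_lit 0x20092) (nat_lit 0) (p (nat_lit 0x8012) (nat_lit 0) pn))))))))))))))))))))))))))) :=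
  Cl.node (nat_lit 0x20000c) (nat_lit 2) (by decide +kernel) (ClAll.succ (ClAll.succ ClAll.zero s154) s155)

def n54 : Cl (O (nat_lit 6)) (R (nat_lit 14465))
    (p (nat_lit 0xd1) (nat_lit 1) (p (nat_lit 0xc9) (nat_lit 0) (p (nat_lit 0x109) (nat_lit 1) (p (nat_lit 0x101) (nat_lit 0) (p (nat_lit 0x119) (nat_lit 0) (p (nat_lit 0xc1) (nat_lit 0) (p (nat_lit 0x81) (nat_lit 1) (p (nat_lit 0x41) (nat_lit 1) (p (nat_lit 0x10a0b0a89889a) (nat_lit 0) (p (nat_lit 0x898a8a09081a) (nat_lit 0) (p (nat_lit 0x109080988879a) (nat_lit 0) (p (nat_lit 0x88878908071a) (nat_lit 0) (p (nat_lit 0x8000080000000080887868a) (nat_lit 0) (p (nat_lit 0x10888070602) (nat_lit 0) (p (nat_lit 0x8807868582) (nat_lit 0) (p (nat_lit 0x10587060502) (nat_lit 0) (p (nat_lit 0x8506858482) (nat_lit 0) (p (nat_lit 0x160004) (nat_lit 0) (p (nat_lit 0x68612) (nat_lit 0) (p (nat_lit 0x50592) (nat_lit 0) (p (nat_lit 0x38512)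 (nat_lit 0) (p (nat_lit 0x50392) (nat_lit 0) (p (nat_lit 0x38312) (nat_lit 0) (p (nat_lit 0x20292) (nat_lit 0) (p (nat_lit 0x38112) (nat_lit 0) (p (nat_lit 0x20092) (nat_lit 0) (p (nat_lit 0x8012) (nat_lit 0) pn))))))))))))))))))))))))))) :=
  Cl.node (nat_lit 0x20000c) (nat_lit 2) (by decide +kernel) (ClAll.succ (ClAll.succ ClAll.zero s157) s158)

def n55 : Cl (O (nat_lit 6)) (R (nat_lit 14465))
    (p (nat_lit 0x20000c) (nat_lit 0) (p (nat_lit 0xd1) (nat_lit 1) (p (nat_lit 0xc9) (nat_lit 0) (p (nat_lit 0x101) (nat_lit 1) (p (nat_lit 0x119) (nat_lit 0) (p (nat_lit 0xc1) (nat_lit 0) (p (nat_lit 0x81) (nat_lit 1) (p (nat_lit 0x41) (nat_lit 1) (p (nat_lit 0x10a0b0a89889a) (nat_lit 0) (p (nat_lit 0x898a8a09081a) (nat_lit 0) (p (nat_lit 0x109080988879a) (nat_lit 0) (p (nat_lit 0x88878908071a) (nat_lit 0) (p (nat_lit 0x8000080000000080887868a) (nat_lit 0) (p (nat_lit 0x10888070602)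 (nat_lit 0) (p (nat_lit 0x8807868582) (nat_lit 0) (p (nat_lit 0x10587060502) (nat_lit 0) (p (nat_lit 0x8506858482) (nat_lit 0) (p (nat_lit 0x160004) (nat_lit 0) (p (nat_lit 0x68612) (nat_lit 0) (p (nat_lit 0x50592) (nat_lit 0) (p (nat_lit 0x38512) (nat_lit 0) (p (nat_lit 0x50392) (nat_lit 0) (p (nat_lit 0x38312) (nat_lit 0) (p (nat_lit 0x20292) (nat_lit 0) (p (nat_lit 0x38112) (nat_lit 0) (p (nat_lit 0x20092) (nat_lit 0) (p (nat_lit 0x8012) (nat_lit 0) pn))))))))))))))))))))))))))) :=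
  Cl.node (nat_lit 0x200014) (nat_lit 2) (by decide +kernel) (ClAll.succ (ClAll.succ ClAll.zero s162) n24)

def n56 : Cl (O (nat_lit 6)) (R (nat_lit 14465))
    (p (nat_lit 0x20000c) (nat_lit 0) (p (nat_lit 0x111) (nat_lit 1) (p (nat_lit 0xd1) (nat_lit 1) (p (nat_lit 0xc9) (nat_lit 0) (p (nat_lit 0x119) (nat_lit 1) (p (nat_lit 0xc1) (nat_lit 0) (p (nat_lit 0x81) (nat_lit 1) (p (nat_lit 0x41) (nat_lit 1) (p (nat_lit 0x10a0b0a89889a) (nat_lit 0) (p (nat_lit 0x898a8a09081a) (nat_lit 0) (p (nat_lit 0x109080988879a) (nat_lit 0) (p (nat_lit 0x88878908071a) (nat_lit 0) (p (nat_lit 0x8000080000000080887868a) (nat_lit 0) (p (nat_lit 0x10888070602) (nat_lit 0) (p (nat_lit 0x8807868582) (nat_lit 0) (p (nat_lit 0x10587060502) (nat_lit 0) (p (nat_lit 0x8506858482) (nat_lit 0) (p (nat_lit 0x160004) (nat_lit 0) (p (nat_lit 0x68612) (nat_lit 0) (p (nat_lit 0x50592) (nat_lit 0) (p (nat_lit 0x38512)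 (nat_lit 0) (p (nat_lit 0x50392) (nat_lit 0) (p (nat_lit 0x38312) (nat_lit 0) (p (nat_lit 0x20292) (nat_lit 0) (p (nat_lit 0x38112) (nat_lit 0) (p (nat_lit 0x20092) (nat_lit 0) (p (nat_lit 0x8012) (nat_lit 0) pn))))))))))))))))))))))))))) :=
  Cl.node (nat_lit 0x200014) (nat_lit 2) (by decide +kernel) (ClAll.succ (ClAll.succ ClAll.zero s171) s172)

def n57 : Cl (O (nat_lit 6)) (R (nat_lit 14465))
    (p (nat_lit 0x20000c) (nat_lit 0) (p (nat_lit 0x111) (nat_lit 1) (p (nat_lit 0x109) (nat_lit 0) (p (nat_lit 0xc9) (nat_lit 1) (p (nat_lit 0x119) (nat_lit 1) (p (nat_lit 0xc1) (nat_lit 0) (p (nat_lit 0x81) (nat_lit 1) (p (nat_lit 0x41) (nat_lit 1) (p (nat_lit 0x10a0b0a89889a) (nat_lit 0) (p (nat_lit 0x898a8a09081a) (nat_lit 0) (p (nat_lit 0x109080988879a) (nat_lit 0) (p (nat_lit 0x88878908071a) (nat_lit 0) (p (nat_lit 0x8000080000000080887868a) (nat_lit 0) (p (nat_lit 0x10888070602)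 (nat_lit 0) (p (nat_lit 0x8807868582) (nat_lit 0) (p (nat_lit 0x10587060502) (nat_lit 0) (p (nat_lit 0x8506858482) (nat_lit 0) (p (nat_lit 0x160004) (nat_lit 0) (p (nat_lit 0x68612) (nat_lit 0) (p (nat_lit 0x50592) (nat_lit 0) (p (nat_lit 0x38512) (nat_lit 0) (p (nat_lit 0x50392) (nat_lit 0) (p (nat_lit 0x38312) (nat_lit 0) (p (nat_lit 0x20292) (nat_lit 0) (p (nat_lit 0x38112) (nat_lit 0) (p (nat_lit 0x20092) (nat_lit 0) (p (nat_lit 0x8012) (nat_lit 0) pn))))))))))))))))))))))))))) :=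
  Cl.node (nat_lit 0x200014) (nat_lit 2) (by decide +kernel) (ClAll.succ (ClAll.succ ClAll.zero s175) s176)

def n58 : Cl (O (nat_lit 6)) (R (nat_lit 14465))
    (p (nat_lit 0xc9) (nat_lit 1) (p (nat_lit 0x109) (nat_lit 1) (p (nat_lit 0x101) (nat_lit 0) (p (nat_lit 0x119) (nat_lit 0) (p (nat_lit 0xd1) (nat_lit 0) (p (nat_lit 0x89) (nat_lit 0) (p (nat_lit 0x41) (nat_lit 0) (p (nat_lit 0x10a0b0a89889a) (nat_lit 0) (p (nat_lit 0x898a8a09081a) (nat_lit 0) (p (nat_lit 0x109080988879a) (nat_lit 0) (p (nat_lit 0x88878908071a) (nat_lit 0) (p (nat_lit 0x8000080000000080887868a) (nat_lit 0) (p (nat_lit 0x10888070602) (nat_lit 0) (p (nat_lit 0x8807868582) (nat_lit 0) (p (nat_lit 0x10587060502) (nat_lit 0) (p (nat_lit 0x8506858482) (nat_lit 0) (p (nat_lit 0x160004) (nat_lit 0) (p (nat_lit 0x68612) (nat_lit 0) (p (nat_lit 0x50592) (nat_lit 0) (p (nat_lit 0x38512) (nat_lit 0) (p (nat_lit 0x50392)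 (nat_lit 0) (p (nat_lit 0x38312) (nat_lit 0) (p (nat_lit 0x20292) (nat_lit 0) (p (nat_lit 0x38112) (nat_lit 0) (p (nat_lit 0x20092) (nat_lit 0) (p (nat_lit 0x8012) (nat_lit 0) pn)))))))))))))))))))))))))) :=
  Cl.node (nat_lit 0x20000c) (nat_lit 2) (by decide +kernel) (ClAll.succ (ClAll.succ ClAll.zero n25) s4)

def n59 : Cl (O (nat_lit 6)) (R (nat_lit 14465))
    (p (nat_lit 0xc9) (nat_lit 0) (p (nat_lit 0x81) (nat_lit 0) (p (nat_lit 0x101) (nat_lit 1) (p (nat_lit 0x119) (nat_lit 0) (p (nat_lit 0xd1) (nat_lit 0) (p (nat_lit 0x89) (nat_lit 0) (p (nat_lit 0x41) (nat_lit 0) (p (nat_lit 0x10a0b0a89889a) (nat_lit 0) (p (nat_lit 0x898a8a09081a) (nat_lit 0) (p (nat_lit 0x109080988879a) (nat_lit 0) (p (nat_lit 0x88878908071a) (nat_lit 0) (p (nat_lit 0x8000080000000080887868a) (nat_lit 0) (p (nat_lit 0x10888070602) (nat_lit 0) (p (nat_lit 0x8807868582) (nat_lit 0) (p (nat_lit 0x10587060502)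 (nat_lit 0) (p (nat_lit 0x8506858482) (nat_lit 0) (p (nat_lit 0x160004) (nat_lit 0) (p (nat_lit 0x68612) (nat_lit 0) (p (nat_lit 0x50592) (nat_lit 0) (p (nat_lit 0x38512) (nat_lit 0) (p (nat_lit 0x50392) (nat_lit 0) (p (nat_lit 0x38312) (nat_lit 0) (p (nat_lit 0x20292) (nat_lit 0) (p (nat_lit 0x38112) (nat_lit 0) (p (nat_lit 0x20092) (nat_lit 0) (p (nat_lit 0x8012) (nat_lit 0) pn)))))))))))))))))))))))))) :=
  Cl.node (nat_lit 0x20000c) (nat_lit 2) (by decide +kernel) (ClAll.succ (ClAll.succ ClAll.zero s5) s6)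

def n60 : Cl (O (nat_lit 6)) (R (nat_lit 14465))
    (p (nat_lit 0xc9) (nat_lit 1) (p (nat_lit 0x81) (nat_lit 0) (p (nat_lit 0x101) (nat_lit 1) (p (nat_lit 0x119) (nat_lit 0) (p (nat_lit 0xd1) (nat_lit 0) (p (nat_lit 0x89) (nat_lit 0) (p (nat_lit 0x41) (nat_lit 0) (p (nat_lit 0x10a0b0a89889a) (nat_lit 0) (p (nat_lit 0x898a8a09081a) (nat_lit 0) (p (nat_lit 0x109080988879a) (nat_lit 0) (p (nat_lit 0x88878908071a) (nat_lit 0) (p (nat_lit 0x8000080000000080887868a) (nat_lit 0) (p (nat_lit 0x10888070602) (nat_lit 0) (p (nat_lit 0x8807868582) (nat_lit 0) (p (nat_lit 0x10587060502) (nat_lit 0) (p (nat_lit 0x8506858482) (nat_lit 0) (p (nat_lit 0x160004) (nat_lit 0) (p (nat_lit 0x68612) (nat_lit 0) (p (nat_lit 0x50592) (nat_lit 0) (p (nat_lit 0x38512) (nat_lit 0) (p (nat_lit 0x50392) (nat_lit 0) (p (nat_lit 0x38312) (nat_lit 0) (p (nat_lit 0x20292) (nat_lit 0) (p (nat_lit 0x38112) (nat_lit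 0) (p (nat_lit 0x20092) (nat_lit 0) (p (nat_lit 0x8012) (nat_lit 0) pn)))))))))))))))))))))))))) :=
  Cl.node (nat_lit 0x20000c) (nat_lit 2) (by decide +kernel) (ClAll.succ (ClAll.succ ClAll.zero n26) s9)

def n61 : Cl (O (nat_lit 6)) (R (nat_lit 14465))
    (p (nat_lit 0xc1) (nat_lit 0) (p (nat_lit 0x81) (nat_lit 1) (p (nat_lit 0x101) (nat_lit 1) (p (nat_lit 0x119) (nat_lit 0) (p (nat_lit 0xd1) (nat_lit 0) (p (nat_lit 0x89) (nat_lit 0) (p (nat_lit 0x41) (nat_lit 0) (p (nat_lit 0x10a0b0a89889a) (nat_lit 0) (p (nat_lit 0x898a8a09081a) (nat_lit 0) (p (nat_lit 0x109080988879a) (nat_lit 0) (p (nat_lit 0x88878908071a) (nat_lit 0) (p (nat_lit 0x8000080000000080887868a) (nat_lit 0) (p (nat_lit 0x10888070602) (nat_lit 0) (p (nat_lit 0x8807868582) (nat_lit 0) (p (nat_lit 0x10587060502) (nat_lit 0) (p (nat_lit 0x8506858482) (nat_lit 0) (p (nat_lit 0x160004) (nat_lit 0) (p (nat_lit 0x68612)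 (nat_lit 0) (p (nat_lit 0x50592) (nat_lit 0) (p (nat_lit 0x38512) (nat_lit 0) (p (nat_lit 0x50392) (nat_lit 0) (p (nat_lit 0x38312) (nat_lit 0) (p (nat_lit 0x20292) (nat_lit 0) (p (nat_lit 0x38112) (nat_lit 0) (p (nat_lit 0x20092) (nat_lit 0) (p (nat_lit 0x8012) (nat_lit 0) pn)))))))))))))))))))))))))) :=
  Cl.node (nat_lit 0xc9) (nat_lit 2) (by decide +kernel) (ClAll.succ (ClAll.succ ClAll.zero s10) n27)

def n62 : Cl (O (nat_lit 6)) (R (nat_lit 14465))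
    (p (nat_lit 0x109) (nat_lit 1) (p (nat_lit 0xc9) (nat_lit 1) (p (nat_lit 0xc1) (nat_lit 0) (p (nat_lit 0x119) (nat_lit 1) (p (nat_lit 0xd1) (nat_lit 0) (p (nat_lit 0x89) (nat_lit 0) (p (nat_lit 0x41) (nat_lit 0) (p (nat_lit 0x10a0b0a89889a) (nat_lit 0) (p (nat_lit 0x898a8a09081a) (nat_lit 0) (p (nat_lit 0x109080988879a) (nat_lit 0) (p (nat_lit 0x88878908071a) (nat_lit 0) (p (nat_lit 0x8000080000000080887868a) (nat_lit 0) (p (nat_lit 0x10888070602) (nat_lit 0) (p (nat_lit 0x8807868582) (nat_lit 0) (p (nat_lit 0x10587060502) (nat_lit 0) (p (nat_lit 0x8506858482) (nat_lit 0) (p (nat_lit 0x160004) (nat_lit 0) (p (nat_lit 0x68612) (nat_lit 0) (p (nat_lit 0x50592) (nat_lit 0) (p (nat_lit 0x38512) (nat_lit 0) (p (nat_lit 0x50392) (nat_lit 0) (p (nat_lit 0x38312) (nat_lit 0) (p (nat_lit 0x20292) (nat_lit 0) (p (nat_lit 0x38112) (nat_lit 0) (p (nat_lit 0x20092) (nat_lit 0) (p (nat_lit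 0x8012) (nat_lit 0) pn)))))))))))))))))))))))))) :=
  Cl.node (nat_lit 0x20000c) (nat_lit 2) (by decide +kernel) (ClAll.succ (ClAll.succ ClAll.zero s16) s17)

def n63 : Cl (O (nat_lit 6)) (R (nat_lit 14465))
    (p (nat_lit 0x109) (nat_lit 1) (p (nat_lit 0x81) (nat_lit 0) (p (nat_lit 0xc1) (nat_lit 1) (p (nat_lit 0x119) (nat_lit 1) (p (nat_lit 0xd1) (nat_lit 0) (p (nat_lit 0x89) (nat_lit 0) (p (nat_lit 0x41) (nat_lit 0) (p (nat_lit 0x10a0b0a89889a) (nat_lit 0) (p (nat_lit 0x898a8a09081a) (nat_lit 0) (p (nat_lit 0x109080988879a) (nat_lit 0) (p (nat_lit 0x88878908071a) (nat_lit 0) (p (nat_lit 0x8000080000000080887868a) (nat_lit 0) (p (nat_lit 0x10888070602) (nat_lit 0) (p (nat_lit 0x8807868582) (nat_lit 0) (p (nat_lit 0x10587060502) (nat_lit 0) (p (nat_lit 0x8506858482) (nat_lit 0) (p (nat_lit 0x160004) (nat_lit 0) (p (nat_lit 0x68612) (nat_lit 0) (p (nat_lit 0x50592) (nat_lit 0)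 (p (nat_lit 0x38512) (nat_lit 0) (p (nat_lit 0x50392) (nat_lit 0) (p (nat_lit 0x38312) (nat_lit 0) (p (nat_lit 0x20292) (nat_lit 0) (p (nat_lit 0x38112) (nat_lit 0) (p (nat_lit 0x20092) (nat_lit 0) (p (nat_lit 0x8012) (nat_lit 0) pn)))))))))))))))))))))))))) :=
  Cl.node (nat_lit 0x20000c) (nat_lit 2) (by decide +kernel) (ClAll.succ (ClAll.succ ClAll.zero s19) s20)

def n64 : Cl (O (nat_lit 6)) (R (nat_lit 14465))
    (p (nat_lit 0x101) (nat_lit 0) (p (nat_lit 0x81) (nat_lit 1) (p (nat_lit 0xc1) (nat_lit 1) (p (nat_lit 0x119) (nat_lit 1) (p (nat_lit 0xd1) (nat_lit 0) (p (nat_lit 0x89) (nat_lit 0) (p (nat_lit 0x41) (nat_lit 0) (p (nat_lit 0x10a0b0a89889a) (nat_lit 0) (p (nat_lit 0x898a8a09081a) (nat_lit 0) (p (nat_lit 0x109080988879a) (nat_lit 0) (p (nat_lit 0x88878908071a) (nat_lit 0) (p (nat_lit 0x8000080000000080887868a) (nat_lit 0) (p (nat_lit 0x10888070602) (nat_lit 0) (p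 (nat_lit 0x8807868582) (nat_lit 0) (p (nat_lit 0x10587060502) (nat_lit 0) (p (nat_lit 0x8506858482) (nat_lit 0) (p (nat_lit 0x160004) (nat_lit 0) (p (nat_lit 0x68612) (nat_lit 0) (p (nat_lit 0x50592) (nat_lit 0) (p (nat_lit 0x38512) (nat_lit 0) (p (nat_lit 0x50392) (nat_lit 0) (p (nat_lit 0x38312) (nat_lit 0) (p (nat_lit 0x20292) (nat_lit 0) (p (nat_lit 0x38112) (nat_lit 0) (p (nat_lit 0x20092) (nat_lit 0) (p (nat_lit 0x8012) (nat_lit 0) pn)))))))))))))))))))))))))) :=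
  Cl.node (nat_lit 0x109) (nat_lit 2) (by decide +kernel) (ClAll.succ (ClAll.succ ClAll.zero n28) n29)

def n65 : Cl (O (nat_lit 6)) (R (nat_lit 14465))
    (p (nat_lit 0x20000c) (nat_lit 0) (p (nat_lit 0x109) (nat_lit 1) (p (nat_lit 0x101) (nat_lit 0) (p (nat_lit 0x111) (nat_lit 0) (p (nat_lit 0xd1) (nat_lit 1) (p (nat_lit 0x89) (nat_lit 0) (p (nat_lit 0x41) (nat_lit 0) (p (nat_lit 0x10a0b0a89889a) (nat_lit 0) (p (nat_lit 0x898a8a09081a) (nat_lit 0) (p (nat_lit 0x109080988879a) (nat_lit 0) (p (nat_lit 0x88878908071a) (nat_lit 0) (p (nat_lit 0x8000080000000080887868a) (nat_lit 0) (p (nat_lit 0x10888070602) (nat_lit 0) (p (nat_lit 0x8807868582) (nat_lit 0) (p (nat_lit 0x10587060502) (nat_lit 0) (p (nat_lit 0x8506858482) (nat_lit 0) (p (nat_lit 0x160004) (nat_lit 0) (p (nat_lit 0x68612) (nat_lit 0) (p (nat_lit 0x50592) (nat_lit 0) (p (nat_lit 0x38512) (nat_lit 0) (p (nat_lit 0x50392)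 (nat_lit 0) (p (nat_lit 0x38312) (nat_lit 0) (p (nat_lit 0x20292) (nat_lit 0) (p (nat_lit 0x38112) (nat_lit 0) (p (nat_lit 0x20092) (nat_lit 0) (p (nat_lit 0x8012) (nat_lit 0) pn)))))))))))))))))))))))))) :=
  Cl.node (nat_lit 0x200014) (nat_lit 2) (by decide +kernel) (ClAll.succ (ClAll.succ ClAll.zero n30) s30)

def n66 : Cl (O (nat_lit 6)) (R (nat_lit 14465))
    (p (nat_lit 0x20000c) (nat_lit 1) (p (nat_lit 0x109) (nat_lit 1) (p (nat_lit 0x101) (nat_lit 0) (p (nat_lit 0x111) (nat_lit 0) (p (nat_lit 0xd1) (nat_lit 1) (p (nat_lit 0x89) (nat_lit 0) (p (nat_lit 0x41) (nat_lit 0) (p (nat_lit 0x10a0b0a89889a) (nat_lit 0) (p (nat_lit 0x898a8a09081a) (nat_lit 0) (p (nat_lit 0x109080988879a) (nat_lit 0) (p (nat_lit 0x88878908071a) (nat_lit 0) (p (nat_lit 0x8000080000000080887868a) (nat_lit 0) (p (nat_lit 0x10888070602) (nat_lit 0) (p (nat_lit 0x8807868582) (nat_lit 0) (p (nat_lit 0x10587060502)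 (nat_lit 0) (p (nat_lit 0x8506858482) (nat_lit 0) (p (nat_lit 0x160004) (nat_lit 0) (p (nat_lit 0x68612) (nat_lit 0) (p (nat_lit 0x50592) (nat_lit 0) (p (nat_lit 0x38512) (nat_lit 0) (p (nat_lit 0x50392) (nat_lit 0) (p (nat_lit 0x38312) (nat_lit 0) (p (nat_lit 0x20292) (nat_lit 0) (p (nat_lit 0x38112) (nat_lit 0) (p (nat_lit 0x20092) (nat_lit 0) (p (nat_lit 0x8012) (nat_lit 0) pn)))))))))))))))))))))))))) :=
  Cl.node (nat_lit 0xb0004) (nat_lit 2) (by decide +kernel) (ClAll.succ (ClAll.succ ClAll.zero n31) s33)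

def n67 : Cl (O (nat_lit 6)) (R (nat_lit 14465))
    (p (nat_lit 0x20000c) (nat_lit 0) (p (nat_lit 0x81) (nat_lit 0) (p (nat_lit 0x101) (nat_lit 1) (p (nat_lit 0x111) (nat_lit 0) (p (nat_lit 0xd1) (nat_lit 1) (p (nat_lit 0x89) (nat_lit 0) (p (nat_lit 0x41) (nat_lit 0) (p (nat_lit 0x10a0b0a89889a) (nat_lit 0) (p (nat_lit 0x898a8a09081a) (nat_lit 0) (p (nat_lit 0x109080988879a) (nat_lit 0) (p (nat_lit 0x88878908071a) (nat_lit 0) (p (nat_lit 0x8000080000000080887868a) (nat_lit 0) (p (nat_lit 0x10888070602) (nat_lit 0) (p (nat_lit 0x8807868582) (nat_lit 0) (p (nat_lit 0x10587060502) (nat_lit 0) (p (nat_lit 0x8506858482) (nat_lit 0) (p (nat_lit 0x160004) (nat_lit 0) (p (nat_lit 0x68612) (nat_lit 0) (p (nat_lit 0x50592) (nat_lit 0) (p (nat_lit 0x38512) (nat_lit 0) (p (nat_lit 0x50392) (nat_lit 0) (p (nat_lit 0x38312) (nat_lit 0) (p (nat_lit 0x20292) (nat_lit 0) (p (nat_lit 0x38112)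 (nat_lit 0) (p (nat_lit 0x20092) (nat_lit 0) (p (nat_lit 0x8012) (nat_lit 0) pn)))))))))))))))))))))))))) :=
  Cl.node (nat_lit 0x200014) (nat_lit 2) (by decide +kernel) (ClAll.succ (ClAll.succ ClAll.zero n32) s36)

def n68 : Cl (O (nat_lit 6)) (R (nat_lit 14465))
    (p (nat_lit 0x20000c) (nat_lit 1) (p (nat_lit 0x81) (nat_lit 0) (p (nat_lit 0x101) (nat_lit 1) (p (nat_lit 0x111) (nat_lit 0) (p (nat_lit 0xd1) (nat_lit 1) (p (nat_lit 0x89) (nat_lit 0) (p (nat_lit 0x41) (nat_lit 0) (p (nat_lit 0x10a0b0a89889a) (nat_lit 0) (p (nat_lit 0x898a8a09081a) (nat_lit 0) (p (nat_lit 0x109080988879a) (nat_lit 0) (p (nat_lit 0x88878908071a) (nat_lit 0) (p (nat_lit 0x8000080000000080887868a) (nat_lit 0) (p (nat_lit 0x10888070602) (nat_lit 0) (p (nat_lit 0x8807868582) (nat_lit 0) (p (nat_lit 0x10587060502) (nat_lit 0) (p (nat_lit 0x8506858482) (nat_lit 0) (p (nat_lit 0x160004) (nat_lit 0) (p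 (nat_lit 0x68612) (nat_lit 0) (p (nat_lit 0x50592) (nat_lit 0) (p (nat_lit 0x38512) (nat_lit 0) (p (nat_lit 0x50392) (nat_lit 0) (p (nat_lit 0x38312) (nat_lit 0) (p (nat_lit 0x20292) (nat_lit 0) (p (nat_lit 0x38112) (nat_lit 0) (p (nat_lit 0x20092) (nat_lit 0) (p (nat_lit 0x8012) (nat_lit 0) pn)))))))))))))))))))))))))) :=
  Cl.node (nat_lit 0xb0004) (nat_lit 2) (by decide +kernel) (ClAll.succ (ClAll.succ ClAll.zero n33) s39)

def n69 : Cl (O (nat_lit 6)) (R (nat_lit 14465))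
    (p (nat_lit 0xc1) (nat_lit 0) (p (nat_lit 0x81) (nat_lit 1) (p (nat_lit 0x101) (nat_lit 1) (p (nat_lit 0x111) (nat_lit 0) (p (nat_lit 0xd1) (nat_lit 1) (p (nat_lit 0x89) (nat_lit 0) (p (nat_lit 0x41) (nat_lit 0) (p (nat_lit 0x10a0b0a89889a) (nat_lit 0) (p (nat_lit 0x898a8a09081a) (nat_lit 0) (p (nat_lit 0x109080988879a) (nat_lit 0) (p (nat_lit 0x88878908071a) (nat_lit 0) (p (nat_lit 0x8000080000000080887868a) (nat_lit 0) (p (nat_lit 0x10888070602) (nat_lit 0) (p (nat_lit 0x8807868582) (nat_lit 0) (p (nat_lit 0x10587060502) (nat_lit 0) (p (nat_lit 0x8506858482) (nat_lit 0) (p (nat_lit 0x160004) (nat_lit 0) (p (nat_lit 0x68612) (nat_lit 0) (p (nat_lit 0x50592) (nat_lit 0) (p (nat_lit 0x38512) (nat_lit 0) (p (nat_lit 0x50392) (nat_lit 0) (p (nat_lit 0x38312) (nat_lit 0) (p (nat_lit 0x20292) (nat_lit 0) (p (nat_lit 0x38112) (nat_lit 0) (p (nat_lit 0x20092) (nat_lit 0) (p (nat_lit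 0x8012) (nat_lit 0) pn)))))))))))))))))))))))))) :=
  Cl.node (nat_lit 0x20000c) (nat_lit 2) (by decide +kernel) (ClAll.succ (ClAll.succ ClAll.zero n34) s45)

def n70 : Cl (O (nat_lit 6)) (R (nat_lit 14465))
    (p (nat_lit 0x101) (nat_lit 0) (p (nat_lit 0xc1) (nat_lit 1) (p (nat_lit 0x81) (nat_lit 1) (p (nat_lit 0x111) (nat_lit 1) (p (nat_lit 0xd1) (nat_lit 1) (p (nat_lit 0x89) (nat_lit 0) (p (nat_lit 0x41) (nat_lit 0) (p (nat_lit 0x10a0b0a89889a) (nat_lit 0) (p (nat_lit 0x898a8a09081a) (nat_lit 0) (p (nat_lit 0x109080988879a) (nat_lit 0) (p (nat_lit 0x88878908071a) (nat_lit 0) (p (nat_lit 0x8000080000000080887868a) (nat_lit 0) (p (nat_lit 0x10888070602) (nat_lit 0) (p (nat_lit 0x8807868582) (nat_lit 0) (p (nat_lit 0x10587060502) (nat_lit 0) (p (nat_lit 0x8506858482) (nat_lit 0) (p (nat_lit 0x160004) (nat_lit 0) (p (nat_lit 0x68612) (nat_lit 0) (p (nat_lit 0x50592) (nat_lit 0)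 (p (nat_lit 0x38512) (nat_lit 0) (p (nat_lit 0x50392) (nat_lit 0) (p (nat_lit 0x38312) (nat_lit 0) (p (nat_lit 0x20292) (nat_lit 0) (p (nat_lit 0x38112) (nat_lit 0) (p (nat_lit 0x20092) (nat_lit 0) (p (nat_lit 0x8012) (nat_lit 0) pn)))))))))))))))))))))))))) :=
  Cl.node (nat_lit 0x20000c) (nat_lit 2) (by decide +kernel) (ClAll.succ (ClAll.succ ClAll.zero s49) s50)

def n71 : Cl (O (nat_lit 6)) (R (nat_lit 14465))
    (p (nat_lit 0x111) (nat_lit 1) (p (nat_lit 0x109) (nat_lit 0) (p (nat_lit 0x101) (nat_lit 0) (p (nat_lit 0x119) (nat_lit 0) (p (nat_lit 0xc9) (nat_lit 0) (p (nat_lit 0x89) (nat_lit 1) (p (nat_lit 0x41) (nat_lit 0) (p (nat_lit 0x10a0b0a89889a) (nat_lit 0) (p (nat_lit 0x898a8a09081a) (nat_lit 0) (p (nat_lit 0x109080988879a) (nat_lit 0) (p (nat_lit 0x88878908071a) (nat_lit 0) (p (nat_lit 0x8000080000000080887868a) (nat_lit 0) (p (nat_lit 0x10888070602) (nat_lit 0) (p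 (nat_lit 0x8807868582) (nat_lit 0) (p (nat_lit 0x10587060502) (nat_lit 0) (p (nat_lit 0x8506858482) (nat_lit 0) (p (nat_lit 0x160004) (nat_lit 0) (p (nat_lit 0x68612) (nat_lit 0) (p (nat_lit 0x50592) (nat_lit 0) (p (nat_lit 0x38512) (nat_lit 0) (p (nat_lit 0x50392) (nat_lit 0) (p (nat_lit 0x38312) (nat_lit 0) (p (nat_lit 0x20292) (nat_lit 0) (p (nat_lit 0x38112) (nat_lit 0) (p (nat_lit 0x20092) (nat_lit 0) (p (nat_lit 0x8012) (nat_lit 0) pn)))))))))))))))))))))))))) :=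
  Cl.node (nat_lit 0xd1) (nat_lit 2) (by decide +kernel) (ClAll.succ (ClAll.succ ClAll.zero s53) n35)

def n72 : Cl (O (nat_lit 6)) (R (nat_lit 14465))
    (p (nat_lit 0xd1) (nat_lit 0) (p (nat_lit 0x109) (nat_lit 1) (p (nat_lit 0x101) (nat_lit 0) (p (nat_lit 0x119) (nat_lit 0) (p (nat_lit 0xc9) (nat_lit 0) (p (nat_lit 0x89) (nat_lit 1) (p (nat_lit 0x41) (nat_lit 0) (p (nat_lit 0x10a0b0a89889a) (nat_lit 0) (p (nat_lit 0x898a8a09081a) (nat_lit 0) (p (nat_lit 0x109080988879a) (nat_lit 0) (p (nat_lit 0x88878908071a) (nat_lit 0) (p (nat_lit 0x8000080000000080887868a) (nat_lit 0) (p (nat_lit 0x10888070602) (nat_lit 0) (p (nat_lit 0x8807868582) (nat_lit 0) (p (nat_lit 0x10587060502) (nat_lit 0) (p (nat_lit 0x8506858482) (nat_lit 0) (p (nat_lit 0x160004) (nat_lit 0) (p (nat_lit 0x68612) (nat_lit 0) (p (nat_lit 0x50592) (nat_lit 0) (p (nat_lit 0x38512) (nat_lit 0) (p (nat_lit 0x50392)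 (nat_lit 0) (p (nat_lit 0x38312) (nat_lit 0) (p (nat_lit 0x20292) (nat_lit 0) (p (nat_lit 0x38112) (nat_lit 0) (p (nat_lit 0x20092) (nat_lit 0) (p (nat_lit 0x8012) (nat_lit 0) pn)))))))))))))))))))))))))) :=
  Cl.node (nat_lit 0x20000c) (nat_lit 2) (by decide +kernel) (ClAll.succ (ClAll.succ ClAll.zero n36) s59)

def n73 : Cl (O (nat_lit 6)) (R (nat_lit 14465))
    (p (nat_lit 0xd1) (nat_lit 1) (p (nat_lit 0x109) (nat_lit 1) (p (nat_lit 0x101) (nat_lit 0) (p (nat_lit 0x119) (nat_lit 0) (p (nat_lit 0xc9) (nat_lit 0) (p (nat_lit 0x89) (nat_lit 1) (p (nat_lit 0x41) (nat_lit 0) (p (nat_lit 0x10a0b0a89889a) (nat_lit 0) (p (nat_lit 0x898a8a09081a) (nat_lit 0) (p (nat_lit 0x109080988879a) (nat_lit 0) (p (nat_lit 0x88878908071a) (nat_lit 0) (p (nat_lit 0x8000080000000080887868a) (nat_lit 0) (p (nat_lit 0x10888070602) (nat_lit 0) (p (nat_lit 0x8807868582) (nat_lit 0) (p (nat_lit 0x10587060502)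 (nat_lit 0) (p (nat_lit 0x8506858482) (nat_lit 0) (p (nat_lit 0x160004) (nat_lit 0) (p (nat_lit 0x68612) (nat_lit 0) (p (nat_lit 0x50592) (nat_lit 0) (p (nat_lit 0x38512) (nat_lit 0) (p (nat_lit 0x50392) (nat_lit 0) (p (nat_lit 0x38312) (nat_lit 0) (p (nat_lit 0x20292) (nat_lit 0) (p (nat_lit 0x38112) (nat_lit 0) (p (nat_lit 0x20092) (nat_lit 0) (p (nat_lit 0x8012) (nat_lit 0) pn)))))))))))))))))))))))))) :=
  Cl.node (nat_lit 0x20000c) (nat_lit 2) (by decide +kernel) (ClAll.succ (ClAll.succ ClAll.zero n37) s67)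

def n74 : Cl (O (nat_lit 6)) (R (nat_lit 14465))
    (p (nat_lit 0xd1) (nat_lit 0) (p (nat_lit 0xc1) (nat_lit 0) (p (nat_lit 0x101) (nat_lit 1) (p (nat_lit 0x119) (nat_lit 0) (p (nat_lit 0xc9) (nat_lit 0) (p (nat_lit 0x89) (nat_lit 1) (p (nat_lit 0x41) (nat_lit 0) (p (nat_lit 0x10a0b0a89889a) (nat_lit 0) (p (nat_lit 0x898a8a09081a) (nat_lit 0) (p (nat_lit 0x109080988879a) (nat_lit 0) (p (nat_lit 0x88878908071a) (nat_lit 0) (p (nat_lit 0x8000080000000080887868a) (nat_lit 0) (p (nat_lit 0x10888070602) (nat_lit 0) (p (nat_lit 0x8807868582) (nat_lit 0) (p (nat_lit 0x10587060502) (nat_lit 0) (p (nat_lit 0x8506858482) (nat_lit 0) (p (nat_lit 0x160004) (nat_lit 0) (p (nat_lit 0x68612) (nat_lit 0) (p (nat_lit 0x50592) (nat_lit 0) (p (nat_lit 0x38512) (nat_lit 0) (p (nat_lit 0x50392) (nat_lit 0) (p (nat_lit 0x38312) (nat_lit 0) (p (nat_lit 0x20292) (nat_lit 0) (p (nat_lit 0x38112) (nat_lit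 0) (p (nat_lit 0x20092) (nat_lit 0) (p (nat_lit 0x8012) (nat_lit 0) pn)))))))))))))))))))))))))) :=
  Cl.node (nat_lit 0x20000c) (nat_lit 2) (by decide +kernel) (ClAll.succ (ClAll.succ ClAll.zero s68) s69)

def n75 : Cl (O (nat_lit 6)) (R (nat_lit 14465))
    (p (nat_lit 0xd1) (nat_lit 1) (p (nat_lit 0xc1) (nat_lit 0) (p (nat_lit 0x101) (nat_lit 1) (p (nat_lit 0x119) (nat_lit 0) (p (nat_lit 0xc9) (nat_lit 0) (p (nat_lit 0x89) (nat_lit 1) (p (nat_lit 0x41) (nat_lit 0) (p (nat_lit 0x10a0b0a89889a) (nat_lit 0) (p (nat_lit 0x898a8a09081a) (nat_lit 0) (p (nat_lit 0x109080988879a) (nat_lit 0) (p (nat_lit 0x88878908071a) (nat_lit 0) (p (nat_lit 0x8000080000000080887868a) (nat_lit 0) (p (nat_lit 0x10888070602) (nat_lit 0) (p (nat_lit 0x8807868582) (nat_lit 0) (p (nat_lit 0x10587060502) (nat_lit 0) (p (nat_lit 0x8506858482) (nat_lit 0) (p (nat_lit 0x160004) (nat_lit 0) (p (nat_lit 0x68612)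 (nat_lit 0) (p (nat_lit 0x50592) (nat_lit 0) (p (nat_lit 0x38512) (nat_lit 0) (p (nat_lit 0x50392) (nat_lit 0) (p (nat_lit 0x38312) (nat_lit 0) (p (nat_lit 0x20292) (nat_lit 0) (p (nat_lit 0x38112) (nat_lit 0) (p (nat_lit 0x20092) (nat_lit 0) (p (nat_lit 0x8012) (nat_lit 0) pn)))))))))))))))))))))))))) :=
  Cl.node (nat_lit 0x20000c) (nat_lit 2) (by decide +kernel) (ClAll.succ (ClAll.succ ClAll.zero n38) s74)

def n76 : Cl (O (nat_lit 6)) (R (nat_lit 14465))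
    (p (nat_lit 0x111) (nat_lit 1) (p (nat_lit 0xd1) (nat_lit 1) (p (nat_lit 0xc1) (nat_lit 0) (p (nat_lit 0x119) (nat_lit 1) (p (nat_lit 0xc9) (nat_lit 0) (p (nat_lit 0x89) (nat_lit 1) (p (nat_lit 0x41) (nat_lit 0) (p (nat_lit 0x10a0b0a89889a) (nat_lit 0) (p (nat_lit 0x898a8a09081a) (nat_lit 0) (p (nat_lit 0x109080988879a) (nat_lit 0) (p (nat_lit 0x88878908071a) (nat_lit 0) (p (nat_lit 0x8000080000000080887868a) (nat_lit 0) (p (nat_lit 0x10888070602) (nat_lit 0) (p (nat_lit 0x8807868582) (nat_lit 0) (p (nat_lit 0x10587060502) (nat_lit 0) (p (nat_lit 0x8506858482) (nat_lit 0) (p (nat_lit 0x160004) (nat_lit 0) (p (nat_lit 0x68612) (nat_lit 0) (p (nat_lit 0x50592) (nat_lit 0) (p (nat_lit 0x38512) (nat_lit 0) (p (nat_lit 0x50392) (nat_lit 0) (p (nat_lit 0x38312) (nat_lit 0) (p (nat_lit 0x20292) (nat_lit 0) (p (nat_lit 0x38112) (nat_lit 0) (p (nat_lit 0x20092) (nat_lit 0) (p (nat_lit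 0x8012) (nat_lit 0) pn)))))))))))))))))))))))))) :=
  Cl.node (nat_lit 0x20000c) (nat_lit 2) (by decide +kernel) (ClAll.succ (ClAll.succ ClAll.zero n39) s80)

def n77 : Cl (O (nat_lit 6)) (R (nat_lit 14465))
    (p (nat_lit 0x111) (nat_lit 1) (p (nat_lit 0x101) (nat_lit 0) (p (nat_lit 0xc1) (nat_lit 1) (p (nat_lit 0x119) (nat_lit 1) (p (nat_lit 0xc9) (nat_lit 0) (p (nat_lit 0x89) (nat_lit 1) (p (nat_lit 0x41) (nat_lit 0) (p (nat_lit 0x10a0b0a89889a) (nat_lit 0) (p (nat_lit 0x898a8a09081a) (nat_lit 0) (p (nat_lit 0x109080988879a) (nat_lit 0) (p (nat_lit 0x88878908071a) (nat_lit 0) (p (nat_lit 0x8000080000000080887868a) (nat_lit 0) (p (nat_lit 0x10888070602) (nat_lit 0) (p (nat_lit 0x8807868582) (nat_lit 0) (p (nat_lit 0x10587060502) (nat_lit 0) (p (nat_lit 0x8506858482) (nat_lit 0) (p (nat_lit 0x160004) (nat_lit 0) (p (nat_lit 0x68612) (nat_lit 0) (p (nat_lit 0x50592) (nat_lit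 0) (p (nat_lit 0x38512) (nat_lit 0) (p (nat_lit 0x50392) (nat_lit 0) (p (nat_lit 0x38312) (nat_lit 0) (p (nat_lit 0x20292) (nat_lit 0) (p (nat_lit 0x38112) (nat_lit 0) (p (nat_lit 0x20092) (nat_lit 0) (p (nat_lit 0x8012) (nat_lit 0) pn)))))))))))))))))))))))))) :=
  Cl.node (nat_lit 0x20000c) (nat_lit 2) (by decide +kernel) (ClAll.succ (ClAll.succ ClAll.zero n40) s88)

def n78 : Cl (O (nat_lit 6)) (R (nat_lit 14465))
    (p (nat_lit 0x89) (nat_lit 0) (p (nat_lit 0x109) (nat_lit 1) (p (nat_lit 0x101) (nat_lit 0) (p (nat_lit 0x119) (nat_lit 0) (p (nat_lit 0xd1) (nat_lit 0) (p (nat_lit 0x81) (nat_lit 0) (p (nat_lit 0x41) (nat_lit 1) (p (nat_lit 0x10a0b0a89889a) (nat_lit 0) (p (nat_lit 0x898a8a09081a) (nat_lit 0) (p (nat_lit 0x109080988879a) (nat_lit 0) (p (nat_lit 0x88878908071a) (nat_lit 0) (p (nat_lit 0x8000080000000080887868a) (nat_lit 0) (p (nat_lit 0x10888070602) (nat_lit 0)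 (p (nat_lit 0x8807868582) (nat_lit 0) (p (nat_lit 0x10587060502) (nat_lit 0) (p (nat_lit 0x8506858482) (nat_lit 0) (p (nat_lit 0x160004) (nat_lit 0) (p (nat_lit 0x68612) (nat_lit 0) (p (nat_lit 0x50592) (nat_lit 0) (p (nat_lit 0x38512) (nat_lit 0) (p (nat_lit 0x50392) (nat_lit 0) (p (nat_lit 0x38312) (nat_lit 0) (p (nat_lit 0x20292) (nat_lit 0) (p (nat_lit 0x38112) (nat_lit 0) (p (nat_lit 0x20092) (nat_lit 0) (p (nat_lit 0x8012) (nat_lit 0) pn)))))))))))))))))))))))))) :=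
  Cl.node (nat_lit 0x20000c) (nat_lit 2) (by decide +kernel) (ClAll.succ (ClAll.succ ClAll.zero s95) n41)

def n79 : Cl (O (nat_lit 6)) (R (nat_lit 14465))
    (p (nat_lit 0x89) (nat_lit 1) (p (nat_lit 0x109) (nat_lit 1) (p (nat_lit 0x101) (nat_lit 0) (p (nat_lit 0x119) (nat_lit 0) (p (nat_lit 0xd1) (nat_lit 0) (p (nat_lit 0x81) (nat_lit 0) (p (nat_lit 0x41) (nat_lit 1) (p (nat_lit 0x10a0b0a89889a) (nat_lit 0) (p (nat_lit 0x898a8a09081a) (nat_lit 0) (p (nat_lit 0x109080988879a) (nat_lit 0) (p (nat_lit 0x88878908071a) (nat_lit 0) (p (nat_lit 0x8000080000000080887868a) (nat_lit 0) (p (nat_lit 0x10888070602) (nat_lit 0) (p (nat_lit 0x8807868582) (nat_lit 0) (p (nat_lit 0x10587060502) (nat_lit 0) (p (nat_lit 0x8506858482) (nat_lit 0) (p (nat_lit 0x160004) (nat_lit 0) (p (nat_lit 0x68612) (nat_lit 0) (p (nat_lit 0x50592) (nat_lit 0) (p (nat_lit 0x38512) (nat_lit 0) (p (nat_lit 0x50392)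 (nat_lit 0) (p (nat_lit 0x38312) (nat_lit 0) (p (nat_lit 0x20292) (nat_lit 0) (p (nat_lit 0x38112) (nat_lit 0) (p (nat_lit 0x20092) (nat_lit 0) (p (nat_lit 0x8012) (nat_lit 0) pn)))))))))))))))))))))))))) :=
  Cl.node (nat_lit 0xc9) (nat_lit 2) (by decide +kernel) (ClAll.succ (ClAll.succ ClAll.zero s99) s100)

def n80 : Cl (O (nat_lit 6)) (R (nat_lit 14465))
    (p (nat_lit 0x89) (nat_lit 0) (p (nat_lit 0xc1) (nat_lit 0) (p (nat_lit 0x101) (nat_lit 1) (p (nat_lit 0x119) (nat_lit 0) (p (nat_lit 0xd1) (nat_lit 0) (p (nat_lit 0x81) (nat_lit 0) (p (nat_lit 0x41) (nat_lit 1) (p (nat_lit 0x10a0b0a89889a) (nat_lit 0) (p (nat_lit 0x898a8a09081a) (nat_lit 0) (p (nat_lit 0x109080988879a) (nat_lit 0) (p (nat_lit 0x88878908071a) (nat_lit 0) (p (nat_lit 0x8000080000000080887868a) (nat_lit 0) (p (nat_lit 0x10888070602) (nat_lit 0) (p (nat_lit 0x8807868582) (nat_lit 0) (p (nat_lit 0x10587060502)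 (nat_lit 0) (p (nat_lit 0x8506858482) (nat_lit 0) (p (nat_lit 0x160004) (nat_lit 0) (p (nat_lit 0x68612) (nat_lit 0) (p (nat_lit 0x50592) (nat_lit 0) (p (nat_lit 0x38512) (nat_lit 0) (p (nat_lit 0x50392) (nat_lit 0) (p (nat_lit 0x38312) (nat_lit 0) (p (nat_lit 0x20292) (nat_lit 0) (p (nat_lit 0x38112) (nat_lit 0) (p (nat_lit 0x20092) (nat_lit 0) (p (nat_lit 0x8012) (nat_lit 0) pn)))))))))))))))))))))))))) :=
  Cl.node (nat_lit 0x20000c) (nat_lit 2) (by decide +kernel) (ClAll.succ (ClAll.succ ClAll.zero s101) s102)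

def n81 : Cl (O (nat_lit 6)) (R (nat_lit 14465))
    (p (nat_lit 0x89) (nat_lit 1) (p (nat_lit 0xc1) (nat_lit 0) (p (nat_lit 0x101) (nat_lit 1) (p (nat_lit 0x119) (nat_lit 0) (p (nat_lit 0xd1) (nat_lit 0) (p (nat_lit 0x81) (nat_lit 0) (p (nat_lit 0x41) (nat_lit 1) (p (nat_lit 0x10a0b0a89889a) (nat_lit 0) (p (nat_lit 0x898a8a09081a) (nat_lit 0) (p (nat_lit 0x109080988879a) (nat_lit 0) (p (nat_lit 0x88878908071a) (nat_lit 0) (p (nat_lit 0x8000080000000080887868a) (nat_lit 0) (p (nat_lit 0x10888070602) (nat_lit 0) (p (nat_lit 0x8807868582) (nat_lit 0) (p (nat_lit 0x10587060502) (nat_lit 0) (p (nat_lit 0x8506858482) (nat_lit 0) (p (nat_lit 0x160004) (nat_lit 0) (p (nat_lit 0x68612) (nat_lit 0) (p (nat_lit 0x50592) (nat_lit 0) (p (nat_lit 0x38512) (nat_lit 0) (p (nat_lit 0x50392) (nat_lit 0) (p (nat_lit 0x38312) (nat_lit 0) (p (nat_lit 0x20292) (nat_lit 0) (p (nat_lit 0x38112) (nat_lit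 0) (p (nat_lit 0x20092) (nat_lit 0) (p (nat_lit 0x8012) (nat_lit 0) pn)))))))))))))))))))))))))) :=
  Cl.node (nat_lit 0xc9) (nat_lit 2) (by decide +kernel) (ClAll.succ (ClAll.succ ClAll.zero s103) n42)

def n82 : Cl (O (nat_lit 6)) (R (nat_lit 14465))
    (p (nat_lit 0x89) (nat_lit 0) (p (nat_lit 0xc1) (nat_lit 1) (p (nat_lit 0x101) (nat_lit 1) (p (nat_lit 0x119) (nat_lit 0) (p (nat_lit 0xd1) (nat_lit 0) (p (nat_lit 0x81) (nat_lit 0) (p (nat_lit 0x41) (nat_lit 1) (p (nat_lit 0x10a0b0a89889a) (nat_lit 0) (p (nat_lit 0x898a8a09081a) (nat_lit 0) (p (nat_lit 0x109080988879a) (nat_lit 0) (p (nat_lit 0x88878908071a) (nat_lit 0) (p (nat_lit 0x8000080000000080887868a) (nat_lit 0) (p (nat_lit 0x10888070602) (nat_lit 0) (p (nat_lit 0x8807868582) (nat_lit 0) (p (nat_lit 0x10587060502) (nat_lit 0) (p (nat_lit 0x8506858482) (nat_lit 0) (p (nat_lit 0x160004) (nat_lit 0) (p (nat_lit 0x68612)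 (nat_lit 0) (p (nat_lit 0x50592) (nat_lit 0) (p (nat_lit 0x38512) (nat_lit 0) (p (nat_lit 0x50392) (nat_lit 0) (p (nat_lit 0x38312) (nat_lit 0) (p (nat_lit 0x20292) (nat_lit 0) (p (nat_lit 0x38112) (nat_lit 0) (p (nat_lit 0x20092) (nat_lit 0) (p (nat_lit 0x8012) (nat_lit 0) pn)))))))))))))))))))))))))) :=
  Cl.node (nat_lit 0x20000c) (nat_lit 2) (by decide +kernel) (ClAll.succ (ClAll.succ ClAll.zero s106) s107)

def n83 : Cl (O (nat_lit 6)) (R (nat_lit 14465))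
    (p (nat_lit 0x89) (nat_lit 1) (p (nat_lit 0xc1) (nat_lit 1) (p (nat_lit 0x101) (nat_lit 1) (p (nat_lit 0x119) (nat_lit 0) (p (nat_lit 0xd1) (nat_lit 0) (p (nat_lit 0x81) (nat_lit 0) (p (nat_lit 0x41) (nat_lit 1) (p (nat_lit 0x10a0b0a89889a) (nat_lit 0) (p (nat_lit 0x898a8a09081a) (nat_lit 0) (p (nat_lit 0x109080988879a) (nat_lit 0) (p (nat_lit 0x88878908071a) (nat_lit 0) (p (nat_lit 0x8000080000000080887868a) (nat_lit 0) (p (nat_lit 0x10888070602) (nat_lit 0) (p (nat_lit 0x8807868582) (nat_lit 0) (p (nat_lit 0x10587060502) (nat_lit 0) (p (nat_lit 0x8506858482) (nat_lit 0) (p (nat_lit 0x160004) (nat_lit 0) (p (nat_lit 0x68612) (nat_lit 0) (p (nat_lit 0x50592) (nat_lit 0) (p (nat_lit 0x38512) (nat_lit 0) (p (nat_lit 0x50392) (nat_lit 0) (p (nat_lit 0x38312) (nat_lit 0) (p (nat_lit 0x20292) (nat_lit 0) (p (nat_lit 0x38112) (nat_lit 0) (p (nat_lit 0x20092) (nat_lit 0) (p (nat_lit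 0x8012) (nat_lit 0) pn)))))))))))))))))))))))))) :=
  Cl.node (nat_lit 0x20000c) (nat_lit 2) (by decide +kernel) (ClAll.succ (ClAll.succ ClAll.zero n43) s110)

def n84 : Cl (O (nat_lit 6)) (R (nat_lit 14465))
    (p (nat_lit 0x89) (nat_lit 1) (p (nat_lit 0xc9) (nat_lit 1) (p (nat_lit 0xc1) (nat_lit 0) (p (nat_lit 0x119) (nat_lit 1) (p (nat_lit 0xd1) (nat_lit 0) (p (nat_lit 0x81) (nat_lit 0) (p (nat_lit 0x41) (nat_lit 1) (p (nat_lit 0x10a0b0a89889a) (nat_lit 0) (p (nat_lit 0x898a8a09081a) (nat_lit 0) (p (nat_lit 0x109080988879a) (nat_lit 0) (p (nat_lit 0x88878908071a) (nat_lit 0) (p (nat_lit 0x8000080000000080887868a) (nat_lit 0) (p (nat_lit 0x10888070602) (nat_lit 0) (p (nat_lit 0x8807868582) (nat_lit 0) (p (nat_lit 0x10587060502) (nat_lit 0) (p (nat_lit 0x8506858482) (nat_lit 0) (p (nat_lit 0x160004) (nat_lit 0) (p (nat_lit 0x68612) (nat_lit 0) (p (nat_lit 0x50592) (nat_lit 0)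 (p (nat_lit 0x38512) (nat_lit 0) (p (nat_lit 0x50392) (nat_lit 0) (p (nat_lit 0x38312) (nat_lit 0) (p (nat_lit 0x20292) (nat_lit 0) (p (nat_lit 0x38112) (nat_lit 0) (p (nat_lit 0x20092) (nat_lit 0) (p (nat_lit 0x8012) (nat_lit 0) pn)))))))))))))))))))))))))) :=
  Cl.node (nat_lit 0x109) (nat_lit 2) (by decide +kernel) (ClAll.succ (ClAll.succ ClAll.zero n44) n45)

def n85 : Cl (O (nat_lit 6)) (R (nat_lit 14465))
    (p (nat_lit 0x89) (nat_lit 1) (p (nat_lit 0x101) (nat_lit 0) (p (nat_lit 0xc1) (nat_lit 1) (p (nat_lit 0x119) (nat_lit 1) (p (nat_lit 0xd1) (nat_lit 0) (p (nat_lit 0x81) (nat_lit 0) (p (nat_lit 0x41) (nat_lit 1) (p (nat_lit 0x10a0b0a89889a) (nat_lit 0) (p (nat_lit 0x898a8a09081a) (nat_lit 0) (p (nat_lit 0x109080988879a) (nat_lit 0) (p (nat_lit 0x88878908071a) (nat_lit 0) (p (nat_lit 0x8000080000000080887868a) (nat_lit 0) (p (nat_lit 0x10888070602) (nat_lit 0) (p (nat_lit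 0x8807868582) (nat_lit 0) (p (nat_lit 0x10587060502) (nat_lit 0) (p (nat_lit 0x8506858482) (nat_lit 0) (p (nat_lit 0x160004) (nat_lit 0) (p (nat_lit 0x68612) (nat_lit 0) (p (nat_lit 0x50592) (nat_lit 0) (p (nat_lit 0x38512) (nat_lit 0) (p (nat_lit 0x50392) (nat_lit 0) (p (nat_lit 0x38312) (nat_lit 0) (p (nat_lit 0x20292) (nat_lit 0) (p (nat_lit 0x38112) (nat_lit 0) (p (nat_lit 0x20092) (nat_lit 0) (p (nat_lit 0x8012) (nat_lit 0) pn)))))))))))))))))))))))))) :=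
  Cl.node (nat_lit 0x109) (nat_lit 2) (by decide +kernel) (ClAll.succ (ClAll.succ ClAll.zero n46) n47)

def n86 : Cl (O (nat_lit 6)) (R (nat_lit 14465))
    (p (nat_lit 0x89) (nat_lit 0) (p (nat_lit 0x101) (nat_lit 1) (p (nat_lit 0xc1) (nat_lit 1) (p (nat_lit 0x119) (nat_lit 1) (p (nat_lit 0xd1) (nat_lit 0) (p (nat_lit 0x81) (nat_lit 0) (p (nat_lit 0x41) (nat_lit 1) (p (nat_lit 0x10a0b0a89889a) (nat_lit 0) (p (nat_lit 0x898a8a09081a) (nat_lit 0) (p (nat_lit 0x109080988879a) (nat_lit 0) (p (nat_lit 0x88878908071a) (nat_lit 0) (p (nat_lit 0x8000080000000080887868a) (nat_lit 0) (p (nat_lit 0x10888070602) (nat_lit 0) (p (nat_lit 0x8807868582) (nat_lit 0) (p (nat_lit 0x10587060502) (nat_lit 0) (p (nat_lit 0x8506858482) (nat_lit 0) (p (nat_lit 0x160004) (nat_lit 0) (p (nat_lit 0x68612) (nat_lit 0) (p (nat_lit 0x50592) (nat_lit 0) (p (nat_lit 0x38512) (nat_lit 0) (p (nat_lit 0x50392)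 (nat_lit 0) (p (nat_lit 0x38312) (nat_lit 0) (p (nat_lit 0x20292) (nat_lit 0) (p (nat_lit 0x38112) (nat_lit 0) (p (nat_lit 0x20092) (nat_lit 0) (p (nat_lit 0x8012) (nat_lit 0) pn)))))))))))))))))))))))))) :=
  Cl.node (nat_lit 0x20000c) (nat_lit 2) (by decide +kernel) (ClAll.succ (ClAll.succ ClAll.zero s123) n48)

def n87 : Cl (O (nat_lit 6)) (R (nat_lit 14465))
    (p (nat_lit 0x89) (nat_lit 1) (p (nat_lit 0x101) (nat_lit 1) (p (nat_lit 0xc1) (nat_lit 1) (p (nat_lit 0x119) (nat_lit 1) (p (nat_lit 0xd1) (nat_lit 0) (p (nat_lit 0x81) (nat_lit 0) (p (nat_lit 0x41) (nat_lit 1) (p (nat_lit 0x10a0b0a89889a) (nat_lit 0) (p (nat_lit 0x898a8a09081a) (nat_lit 0) (p (nat_lit 0x109080988879a) (nat_lit 0) (p (nat_lit 0x88878908071a) (nat_lit 0) (p (nat_lit 0x8000080000000080887868a) (nat_lit 0) (p (nat_lit 0x10888070602) (nat_lit 0) (p (nat_lit 0x8807868582) (nat_lit 0) (p (nat_lit 0x10587060502)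 (nat_lit 0) (p (nat_lit 0x8506858482) (nat_lit 0) (p (nat_lit 0x160004) (nat_lit 0) (p (nat_lit 0x68612) (nat_lit 0) (p (nat_lit 0x50592) (nat_lit 0) (p (nat_lit 0x38512) (nat_lit 0) (p (nat_lit 0x50392) (nat_lit 0) (p (nat_lit 0x38312) (nat_lit 0) (p (nat_lit 0x20292) (nat_lit 0) (p (nat_lit 0x38112) (nat_lit 0) (p (nat_lit 0x20092) (nat_lit 0) (p (nat_lit 0x8012) (nat_lit 0) pn)))))))))))))))))))))))))) :=
  Cl.node (nat_lit 0x20000c) (nat_lit 2) (by decide +kernel) (ClAll.succ (ClAll.succ ClAll.zero n49) s129)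

def n88 : Cl (O (nat_lit 6)) (R (nat_lit 14465))
    (p (nat_lit 0x89) (nat_lit 0) (p (nat_lit 0x109) (nat_lit 1) (p (nat_lit 0x101) (nat_lit 0) (p (nat_lit 0x111) (nat_lit 0) (p (nat_lit 0xd1) (nat_lit 1) (p (nat_lit 0x81) (nat_lit 0) (p (nat_lit 0x41) (nat_lit 1) (p (nat_lit 0x10a0b0a89889a) (nat_lit 0) (p (nat_lit 0x898a8a09081a) (nat_lit 0) (p (nat_lit 0x109080988879a) (nat_lit 0) (p (nat_lit 0x88878908071a) (nat_lit 0) (p (nat_lit 0x8000080000000080887868a) (nat_lit 0) (p (nat_lit 0x10888070602) (nat_lit 0) (p (nat_lit 0x8807868582) (nat_lit 0) (p (nat_lit 0x10587060502) (nat_lit 0) (p (nat_lit 0x8506858482) (nat_lit 0) (p (nat_lit 0x160004) (nat_lit 0) (p (nat_lit 0x68612) (nat_lit 0) (p (nat_lit 0x50592) (nat_lit 0) (p (nat_lit 0x38512) (nat_lit 0) (p (nat_lit 0x50392) (nat_lit 0) (p (nat_lit 0x38312) (nat_lit 0) (p (nat_lit 0x20292) (nat_lit 0) (p (nat_lit 0x38112) (nat_lit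 0) (p (nat_lit 0x20092) (nat_lit 0) (p (nat_lit 0x8012) (nat_lit 0) pn)))))))))))))))))))))))))) :=
  Cl.node (nat_lit 0x20000c) (nat_lit 2) (by decide +kernel) (ClAll.succ (ClAll.succ ClAll.zero s131) s132)

def n89 : Cl (O (nat_lit 6)) (R (nat_lit 14465))
    (p (nat_lit 0x89) (nat_lit 1) (p (nat_lit 0x109) (nat_lit 1) (p (nat_lit 0x101) (nat_lit 0) (p (nat_lit 0x111) (nat_lit 0) (p (nat_lit 0xd1) (nat_lit 1) (p (nat_lit 0x81) (nat_lit 0) (p (nat_lit 0x41) (nat_lit 1) (p (nat_lit 0x10a0b0a89889a) (nat_lit 0) (p (nat_lit 0x898a8a09081a) (nat_lit 0) (p (nat_lit 0x109080988879a) (nat_lit 0) (p (nat_lit 0x88878908071a) (nat_lit 0) (p (nat_lit 0x8000080000000080887868a) (nat_lit 0) (p (nat_lit 0x10888070602) (nat_lit 0) (p (nat_lit 0x8807868582) (nat_lit 0) (p (nat_lit 0x10587060502) (nat_lit 0) (p (nat_lit 0x8506858482) (nat_lit 0) (p (nat_lit 0x160004) (nat_lit 0) (p (nat_lit 0x68612)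 (nat_lit 0) (p (nat_lit 0x50592) (nat_lit 0) (p (nat_lit 0x38512) (nat_lit 0) (p (nat_lit 0x50392) (nat_lit 0) (p (nat_lit 0x38312) (nat_lit 0) (p (nat_lit 0x20292) (nat_lit 0) (p (nat_lit 0x38112) (nat_lit 0) (p (nat_lit 0x20092) (nat_lit 0) (p (nat_lit 0x8012) (nat_lit 0) pn)))))))))))))))))))))))))) :=
  Cl.node (nat_lit 0xc9) (nat_lit 2) (by decide +kernel) (ClAll.succ (ClAll.succ ClAll.zero n50) s135)

def n90 : Cl (O (nat_lit 6)) (R (nat_lit 14465))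
    (p (nat_lit 0x20000c) (nat_lit 0) (p (nat_lit 0x89) (nat_lit 0) (p (nat_lit 0x101) (nat_lit 1) (p (nat_lit 0x111) (nat_lit 0) (p (nat_lit 0xd1) (nat_lit 1) (p (nat_lit 0x81) (nat_lit 0) (p (nat_lit 0x41) (nat_lit 1) (p (nat_lit 0x10a0b0a89889a) (nat_lit 0) (p (nat_lit 0x898a8a09081a) (nat_lit 0) (p (nat_lit 0x109080988879a) (nat_lit 0) (p (nat_lit 0x88878908071a) (nat_lit 0) (p (nat_lit 0x8000080000000080887868a) (nat_lit 0) (p (nat_lit 0x10888070602) (nat_lit 0) (p (nat_lit 0x8807868582) (nat_lit 0) (p (nat_lit 0x10587060502) (nat_lit 0) (p (nat_lit 0x8506858482) (nat_lit 0) (p (nat_lit 0x160004) (nat_lit 0) (p (nat_lit 0x68612) (nat_lit 0) (p (nat_lit 0x50592) (nat_lit 0) (p (nat_lit 0x38512) (nat_lit 0) (p (nat_lit 0x50392) (nat_lit 0) (p (nat_lit 0x38312) (nat_lit 0) (p (nat_lit 0x20292) (nat_lit 0) (p (nat_lit 0x38112) (nat_lit 0) (p (nat_lit 0x20092) (nat_lit 0) (p (nat_lit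 0x8012) (nat_lit 0) pn)))))))))))))))))))))))))) :=
  Cl.node (nat_lit 0x200014) (nat_lit 2) (by decide +kernel) (ClAll.succ (ClAll.succ ClAll.zero s136) s137)

def n91 : Cl (O (nat_lit 6)) (R (nat_lit 14465))
    (p (nat_lit 0xc9) (nat_lit 0) (p (nat_lit 0x89) (nat_lit 1) (p (nat_lit 0x101) (nat_lit 1) (p (nat_lit 0x111) (nat_lit 0) (p (nat_lit 0xd1) (nat_lit 1) (p (nat_lit 0x81) (nat_lit 0) (p (nat_lit 0x41) (nat_lit 1) (p (nat_lit 0x10a0b0a89889a) (nat_lit 0) (p (nat_lit 0x898a8a09081a) (nat_lit 0) (p (nat_lit 0x109080988879a) (nat_lit 0) (p (nat_lit 0x88878908071a) (nat_lit 0) (p (nat_lit 0x8000080000000080887868a) (nat_lit 0) (p (nat_lit 0x10888070602) (nat_lit 0) (p (nat_lit 0x8807868582) (nat_lit 0) (p (nat_lit 0x10587060502) (nat_lit 0) (p (nat_lit 0x8506858482) (nat_lit 0) (p (nat_lit 0x160004) (nat_lit 0) (p (nat_lit 0x68612) (nat_lit 0) (p (nat_lit 0x50592) (nat_lit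 0) (p (nat_lit 0x38512) (nat_lit 0) (p (nat_lit 0x50392) (nat_lit 0) (p (nat_lit 0x38312) (nat_lit 0) (p (nat_lit 0x20292) (nat_lit 0) (p (nat_lit 0x38112) (nat_lit 0) (p (nat_lit 0x20092) (nat_lit 0) (p (nat_lit 0x8012) (nat_lit 0) pn)))))))))))))))))))))))))) :=
  Cl.node (nat_lit 0x20000c) (nat_lit 2) (by decide +kernel) (ClAll.succ (ClAll.succ ClAll.zero n51) n52)

def n92 : Cl (O (nat_lit 6)) (R (nat_lit 14465))
    (p (nat_lit 0x109) (nat_lit 0) (p (nat_lit 0xc9) (nat_lit 1) (p (nat_lit 0x89) (nat_lit 1) (p (nat_lit 0x111) (nat_lit 1) (p (nat_lit 0xd1) (nat_lit 1) (p (nat_lit 0x81) (nat_lit 0) (p (nat_lit 0x41) (nat_lit 1) (p (nat_lit 0x10a0b0a89889a) (nat_lit 0) (p (nat_lit 0x898a8a09081a) (nat_lit 0) (p (nat_lit 0x109080988879a) (nat_lit 0) (p (nat_lit 0x88878908071a) (nat_lit 0) (p (nat_lit 0x8000080000000080887868a) (nat_lit 0) (p (nat_lit 0x10888070602) (nat_lit 0)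 (p (nat_lit 0x8807868582) (nat_lit 0) (p (nat_lit 0x10587060502) (nat_lit 0) (p (nat_lit 0x8506858482) (nat_lit 0) (p (nat_lit 0x160004) (nat_lit 0) (p (nat_lit 0x68612) (nat_lit 0) (p (nat_lit 0x50592) (nat_lit 0) (p (nat_lit 0x38512) (nat_lit 0) (p (nat_lit 0x50392) (nat_lit 0) (p (nat_lit 0x38312) (nat_lit 0) (p (nat_lit 0x20292) (nat_lit 0) (p (nat_lit 0x38112) (nat_lit 0) (p (nat_lit 0x20092) (nat_lit 0) (p (nat_lit 0x8012) (nat_lit 0) pn)))))))))))))))))))))))))) :=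
  Cl.node (nat_lit 0x20000c) (nat_lit 2) (by decide +kernel) (ClAll.succ (ClAll.succ ClAll.zero s149) s150)

def n93 : Cl (O (nat_lit 6)) (R (nat_lit 14465))
    (p (nat_lit 0x111) (nat_lit 1) (p (nat_lit 0x109) (nat_lit 0) (p (nat_lit 0x101) (nat_lit 0) (p (nat_lit 0x119) (nat_lit 0) (p (nat_lit 0xc1) (nat_lit 0) (p (nat_lit 0x81) (nat_lit 1) (p (nat_lit 0x41) (nat_lit 1) (p (nat_lit 0x10a0b0a89889a) (nat_lit 0) (p (nat_lit 0x898a8a09081a) (nat_lit 0) (p (nat_lit 0x109080988879a) (nat_lit 0) (p (nat_lit 0x88878908071a) (nat_lit 0) (p (nat_lit 0x8000080000000080887868a) (nat_lit 0) (p (nat_lit 0x10888070602) (nat_lit 0) (p (nat_lit 0x8807868582) (nat_lit 0) (p (nat_lit 0x10587060502) (nat_lit 0) (p (nat_lit 0x8506858482) (nat_lit 0) (p (nat_lit 0x160004) (nat_lit 0) (p (nat_lit 0x68612) (nat_lit 0) (p (nat_lit 0x50592) (nat_lit 0) (p (nat_lit 0x38512) (nat_lit 0) (p (nat_lit 0x50392)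 (nat_lit 0) (p (nat_lit 0x38312) (nat_lit 0) (p (nat_lit 0x20292) (nat_lit 0) (p (nat_lit 0x38112) (nat_lit 0) (p (nat_lit 0x20092) (nat_lit 0) (p (nat_lit 0x8012) (nat_lit 0) pn)))))))))))))))))))))))))) :=
  Cl.node (nat_lit 0xd1) (nat_lit 2) (by decide +kernel) (ClAll.succ (ClAll.succ ClAll.zero s153) n53)

def n94 : Cl (O (nat_lit 6)) (R (nat_lit 14465))
    (p (nat_lit 0xc9) (nat_lit 0) (p (nat_lit 0x109) (nat_lit 1) (p (nat_lit 0x101) (nat_lit 0) (p (nat_lit 0x119) (nat_lit 0) (p (nat_lit 0xc1) (nat_lit 0) (p (nat_lit 0x81) (nat_lit 1) (p (nat_lit 0x41) (nat_lit 1) (p (nat_lit 0x10a0b0a89889a) (nat_lit 0) (p (nat_lit 0x898a8a09081a) (nat_lit 0) (p (nat_lit 0x109080988879a) (nat_lit 0) (p (nat_lit 0x88878908071a) (nat_lit 0) (p (nat_lit 0x8000080000000080887868a) (nat_lit 0) (p (nat_lit 0x10888070602) (nat_lit 0) (p (nat_lit 0x8807868582) (nat_lit 0) (p (nat_lit 0x10587060502)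 (nat_lit 0) (p (nat_lit 0x8506858482) (nat_lit 0) (p (nat_lit 0x160004) (nat_lit 0) (p (nat_lit 0x68612) (nat_lit 0) (p (nat_lit 0x50592) (nat_lit 0) (p (nat_lit 0x38512) (nat_lit 0) (p (nat_lit 0x50392) (nat_lit 0) (p (nat_lit 0x38312) (nat_lit 0) (p (nat_lit 0x20292) (nat_lit 0) (p (nat_lit 0x38112) (nat_lit 0) (p (nat_lit 0x20092) (nat_lit 0) (p (nat_lit 0x8012) (nat_lit 0) pn)))))))))))))))))))))))))) :=
  Cl.node (nat_lit 0xd1) (nat_lit 2) (by decide +kernel) (ClAll.succ (ClAll.succ ClAll.zero s156) n54)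

def n95 : Cl (O (nat_lit 6)) (R (nat_lit 14465))
    (p (nat_lit 0xd1) (nat_lit 0) (p (nat_lit 0xc9) (nat_lit 0) (p (nat_lit 0x101) (nat_lit 1) (p (nat_lit 0x119) (nat_lit 0) (p (nat_lit 0xc1) (nat_lit 0) (p (nat_lit 0x81) (nat_lit 1) (p (nat_lit 0x41) (nat_lit 1) (p (nat_lit 0x10a0b0a89889a) (nat_lit 0) (p (nat_lit 0x898a8a09081a) (nat_lit 0) (p (nat_lit 0x109080988879a) (nat_lit 0) (p (nat_lit 0x88878908071a) (nat_lit 0) (p (nat_lit 0x8000080000000080887868a) (nat_lit 0) (p (nat_lit 0x10888070602) (nat_lit 0) (p (nat_lit 0x8807868582) (nat_lit 0) (p (nat_lit 0x10587060502) (nat_lit 0) (p (nat_lit 0x8506858482) (nat_lit 0) (p (nat_lit 0x160004) (nat_lit 0) (p (nat_lit 0x68612) (nat_lit 0) (p (nat_lit 0x50592) (nat_lit 0) (p (nat_lit 0x38512) (nat_lit 0) (p (nat_lit 0x50392) (nat_lit 0) (p (nat_lit 0x38312) (nat_lit 0) (p (nat_lit 0x20292) (nat_lit 0) (p (nat_lit 0x38112) (nat_lit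 0) (p (nat_lit 0x20092) (nat_lit 0) (p (nat_lit 0x8012) (nat_lit 0) pn)))))))))))))))))))))))))) :=
  Cl.node (nat_lit 0x20000c) (nat_lit 2) (by decide +kernel) (ClAll.succ (ClAll.succ ClAll.zero s160) s161)

def n96 : Cl (O (nat_lit 6)) (R (nat_lit 14465))
    (p (nat_lit 0xd1) (nat_lit 1) (p (nat_lit 0xc9) (nat_lit 0) (p (nat_lit 0x101) (nat_lit 1) (p (nat_lit 0x119) (nat_lit 0) (p (nat_lit 0xc1) (nat_lit 0) (p (nat_lit 0x81) (nat_lit 1) (p (nat_lit 0x41) (nat_lit 1) (p (nat_lit 0x10a0b0a89889a) (nat_lit 0) (p (nat_lit 0x898a8a09081a) (nat_lit 0) (p (nat_lit 0x109080988879a) (nat_lit 0) (p (nat_lit 0x88878908071a) (nat_lit 0) (p (nat_lit 0x8000080000000080887868a) (nat_lit 0) (p (nat_lit 0x10888070602) (nat_lit 0) (p (nat_lit 0x8807868582) (nat_lit 0) (p (nat_lit 0x10587060502) (nat_lit 0) (p (nat_lit 0x8506858482) (nat_lit 0) (p (nat_lit 0x160004) (nat_lit 0) (p (nat_lit 0x68612)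 (nat_lit 0) (p (nat_lit 0x50592) (nat_lit 0) (p (nat_lit 0x38512) (nat_lit 0) (p (nat_lit 0x50392) (nat_lit 0) (p (nat_lit 0x38312) (nat_lit 0) (p (nat_lit 0x20292) (nat_lit 0) (p (nat_lit 0x38112) (nat_lit 0) (p (nat_lit 0x20092) (nat_lit 0) (p (nat_lit 0x8012) (nat_lit 0) pn)))))))))))))))))))))))))) :=
  Cl.node (nat_lit 0x20000c) (nat_lit 2) (by decide +kernel) (ClAll.succ (ClAll.succ ClAll.zero n55) s167)

def n97 : Cl (O (nat_lit 6)) (R (nat_lit 14465))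
    (p (nat_lit 0x111) (nat_lit 1) (p (nat_lit 0xd1) (nat_lit 1) (p (nat_lit 0xc9) (nat_lit 0) (p (nat_lit 0x119) (nat_lit 1) (p (nat_lit 0xc1) (nat_lit 0) (p (nat_lit 0x81) (nat_lit 1) (p (nat_lit 0x41) (nat_lit 1) (p (nat_lit 0x10a0b0a89889a) (nat_lit 0) (p (nat_lit 0x898a8a09081a) (nat_lit 0) (p (nat_lit 0x109080988879a) (nat_lit 0) (p (nat_lit 0x88878908071a) (nat_lit 0) (p (nat_lit 0x8000080000000080887868a) (nat_lit 0) (p (nat_lit 0x10888070602) (nat_lit 0) (p (nat_lit 0x8807868582) (nat_lit 0) (p (nat_lit 0x10587060502) (nat_lit 0) (p (nat_lit 0x8506858482) (nat_lit 0) (p (nat_lit 0x160004) (nat_lit 0) (p (nat_lit 0x68612) (nat_lit 0) (p (nat_lit 0x50592) (nat_lit 0) (p (nat_lit 0x38512) (nat_lit 0) (p (nat_lit 0x50392) (nat_lit 0) (p (nat_lit 0x38312) (nat_lit 0) (p (nat_lit 0x20292) (nat_lit 0) (p (nat_lit 0x38112) (nat_lit 0) (p (nat_lit 0x20092) (nat_lit 0) (p (nat_lit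 0x8012) (nat_lit 0) pn)))))))))))))))))))))))))) :=
  Cl.node (nat_lit 0x20000c) (nat_lit 2) (by decide +kernel) (ClAll.succ (ClAll.succ ClAll.zero n56) s173)

def n98 : Cl (O (nat_lit 6)) (R (nat_lit 14465))
    (p (nat_lit 0x111) (nat_lit 1) (p (nat_lit 0x109) (nat_lit 0) (p (nat_lit 0xc9) (nat_lit 1) (p (nat_lit 0x119) (nat_lit 1) (p (nat_lit 0xc1) (nat_lit 0) (p (nat_lit 0x81) (nat_lit 1) (p (nat_lit 0x41) (nat_lit 1) (p (nat_lit 0x10a0b0a89889a) (nat_lit 0) (p (nat_lit 0x898a8a09081a) (nat_lit 0) (p (nat_lit 0x109080988879a) (nat_lit 0) (p (nat_lit 0x88878908071a) (nat_lit 0) (p (nat_lit 0x8000080000000080887868a) (nat_lit 0) (p (nat_lit 0x10888070602) (nat_lit 0) (p (nat_lit 0x8807868582) (nat_lit 0) (p (nat_lit 0x10587060502) (nat_lit 0) (p (nat_lit 0x8506858482) (nat_lit 0) (p (nat_lit 0x160004) (nat_lit 0) (p (nat_lit 0x68612) (nat_lit 0) (p (nat_lit 0x50592) (nat_lit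 0) (p (nat_lit 0x38512) (nat_lit 0) (p (nat_lit 0x50392) (nat_lit 0) (p (nat_lit 0x38312) (nat_lit 0) (p (nat_lit 0x20292) (nat_lit 0) (p (nat_lit 0x38112) (nat_lit 0) (p (nat_lit 0x20092) (nat_lit 0) (p (nat_lit 0x8012) (nat_lit 0) pn)))))))))))))))))))))))))) :=
  Cl.node (nat_lit 0x20000c) (nat_lit 2) (by decide +kernel) (ClAll.succ (ClAll.succ ClAll.zero n57) s177)

def n99 : Cl (O (nat_lit 6)) (R (nat_lit 14465))
    (p (nat_lit 0x109) (nat_lit 1) (p (nat_lit 0x101) (nat_lit 0) (p (nat_lit 0x119) (nat_lit 0) (p (nat_lit 0xd1) (nat_lit 0) (p (nat_lit 0x89) (nat_lit 0) (p (nat_lit 0x41) (nat_lit 0) (p (nat_lit 0x10a0b0a89889a) (nat_lit 0) (p (nat_lit 0x898a8a09081a) (nat_lit 0) (p (nat_lit 0x109080988879a) (nat_lit 0) (p (nat_lit 0x88878908071a) (nat_lit 0) (p (nat_lit 0x8000080000000080887868a) (nat_lit 0) (p (nat_lit 0x10888070602) (nat_lit 0) (p (nat_lit 0x8807868582) (nat_lit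 0) (p (nat_lit 0x10587060502) (nat_lit 0) (p (nat_lit 0x8506858482) (nat_lit 0) (p (nat_lit 0x160004) (nat_lit 0) (p (nat_lit 0x68612) (nat_lit 0) (p (nat_lit 0x50592) (nat_lit 0) (p (nat_lit 0x38512) (nat_lit 0) (p (nat_lit 0x50392) (nat_lit 0) (p (nat_lit 0x38312) (nat_lit 0) (p (nat_lit 0x20292) (nat_lit 0) (p (nat_lit 0x38112) (nat_lit 0) (p (nat_lit 0x20092) (nat_lit 0) (p (nat_lit 0x8012) (nat_lit 0) pn))))))))))))))))))))))))) :=
  Cl.node (nat_lit 0xc9) (nat_lit 2) (by decide +kernel) (ClAll.succ (ClAll.succ ClAll.zero s1) n58)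

def n100 : Cl (O (nat_lit 6)) (R (nat_lit 14465))
    (p (nat_lit 0x81) (nat_lit 0) (p (nat_lit 0x101) (nat_lit 1) (p (nat_lit 0x119) (nat_lit 0) (p (nat_lit 0xd1) (nat_lit 0) (p (nat_lit 0x89) (nat_lit 0) (p (nat_lit 0x41) (nat_lit 0) (p (nat_lit 0x10a0b0a89889a) (nat_lit 0) (p (nat_lit 0x898a8a09081a) (nat_lit 0) (p (nat_lit 0x109080988879a) (nat_lit 0) (p (nat_lit 0x88878908071a) (nat_lit 0) (p (nat_lit 0x8000080000000080887868a) (nat_lit 0) (p (nat_lit 0x10888070602) (nat_lit 0) (p (nat_lit 0x8807868582) (nat_lit 0) (p (nat_lit 0x10587060502) (nat_lit 0) (p (nat_lit 0x8506858482) (nat_lit 0) (p (nat_lit 0x160004) (nat_lit 0) (p (nat_lit 0x68612) (nat_lit 0) (p (nat_lit 0x50592) (nat_lit 0) (p (nat_lit 0x38512) (nat_lit 0) (p (nat_lit 0x50392) (nat_lit 0) (p (nat_lit 0x38312) (nat_lit 0) (p (nat_lit 0x20292) (nat_lit 0) (p (nat_lit 0x38112) (nat_lit 0) (p (nat_lit 0x20092)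 (nat_lit 0) (p (nat_lit 0x8012) (nat_lit 0) pn))))))))))))))))))))))))) :=
  Cl.node (nat_lit 0xc9) (nat_lit 2) (by decide +kernel) (ClAll.succ (ClAll.succ ClAll.zero n59) n60)

def n101 : Cl (O (nat_lit 6)) (R (nat_lit 14465))
    (p (nat_lit 0x81) (nat_lit 1) (p (nat_lit 0x101) (nat_lit 1) (p (nat_lit 0x119) (nat_lit 0) (p (nat_lit 0xd1) (nat_lit 0) (p (nat_lit 0x89) (nat_lit 0) (p (nat_lit 0x41) (nat_lit 0) (p (nat_lit 0x10a0b0a89889a) (nat_lit 0) (p (nat_lit 0x898a8a09081a) (nat_lit 0) (p (nat_lit 0x109080988879a) (nat_lit 0) (p (nat_lit 0x88878908071a) (nat_lit 0) (p (nat_lit 0x8000080000000080887868a) (nat_lit 0) (p (nat_lit 0x10888070602) (nat_lit 0) (p (nat_lit 0x8807868582) (nat_lit 0) (p (nat_lit 0x10587060502) (nat_lit 0) (p (nat_lit 0x8506858482) (nat_lit 0) (p (nat_lit 0x160004) (nat_lit 0) (p (nat_lit 0x68612) (nat_lit 0) (p (nat_lit 0x50592) (nat_lit 0) (p (nat_lit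 0x38512) (nat_lit 0) (p (nat_lit 0x50392) (nat_lit 0) (p (nat_lit 0x38312) (nat_lit 0) (p (nat_lit 0x20292) (nat_lit 0) (p (nat_lit 0x38112) (nat_lit 0) (p (nat_lit 0x20092) (nat_lit 0) (p (nat_lit 0x8012) (nat_lit 0) pn))))))))))))))))))))))))) :=
  Cl.node (nat_lit 0xc1) (nat_lit 2) (by decide +kernel) (ClAll.succ (ClAll.succ ClAll.zero n61) s13)

def n102 : Cl (O (nat_lit 6)) (R (nat_lit 14465))
    (p (nat_lit 0xc9) (nat_lit 1) (p (nat_lit 0xc1) (nat_lit 0) (p (nat_lit 0x119) (nat_lit 1) (p (nat_lit 0xd1) (nat_lit 0) (p (nat_lit 0x89) (nat_lit 0) (p (nat_lit 0x41) (nat_lit 0) (p (nat_lit 0x10a0b0a89889a) (nat_lit 0) (p (nat_lit 0x898a8a09081a) (nat_lit 0) (p (nat_lit 0x109080988879a) (nat_lit 0) (p (nat_lit 0x88878908071a) (nat_lit 0) (p (nat_lit 0x8000080000000080887868a) (nat_lit 0) (p (nat_lit 0x10888070602) (nat_lit 0) (p (nat_lit 0x8807868582) (nat_lit 0) (p (nat_lit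 0x10587060502) (nat_lit 0) (p (nat_lit 0x8506858482) (nat_lit 0) (p (nat_lit 0x160004) (nat_lit 0) (p (nat_lit 0x68612) (nat_lit 0) (p (nat_lit 0x50592) (nat_lit 0) (p (nat_lit 0x38512) (nat_lit 0) (p (nat_lit 0x50392) (nat_lit 0) (p (nat_lit 0x38312) (nat_lit 0) (p (nat_lit 0x20292) (nat_lit 0) (p (nat_lit 0x38112) (nat_lit 0) (p (nat_lit 0x20092) (nat_lit 0) (p (nat_lit 0x8012) (nat_lit 0) pn))))))))))))))))))))))))) :=
  Cl.node (nat_lit 0x109) (nat_lit 2) (by decide +kernel) (ClAll.succ (ClAll.succ ClAll.zero s15) n62)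

def n103 : Cl (O (nat_lit 6)) (R (nat_lit 14465))
    (p (nat_lit 0x81) (nat_lit 0) (p (nat_lit 0xc1) (nat_lit 1) (p (nat_lit 0x119) (nat_lit 1) (p (nat_lit 0xd1) (nat_lit 0) (p (nat_lit 0x89) (nat_lit 0) (p (nat_lit 0x41) (nat_lit 0) (p (nat_lit 0x10a0b0a89889a) (nat_lit 0) (p (nat_lit 0x898a8a09081a) (nat_lit 0) (p (nat_lit 0x109080988879a) (nat_lit 0) (p (nat_lit 0x88878908071a) (nat_lit 0) (p (nat_lit 0x8000080000000080887868a) (nat_lit 0) (p (nat_lit 0x10888070602) (nat_lit 0) (p (nat_lit 0x8807868582) (nat_lit 0) (p (nat_lit 0x10587060502) (nat_lit 0) (p (nat_lit 0x8506858482) (nat_lit 0) (p (nat_lit 0x160004) (nat_lit 0) (p (nat_lit 0x68612) (nat_lit 0) (p (nat_lit 0x50592) (nat_lit 0) (p (nat_lit 0x38512) (nat_lit 0) (p (nat_lit 0x50392) (nat_lit 0) (p (nat_lit 0x38312) (nat_lit 0) (p (nat_lit 0x20292) (nat_lit 0) (p (nat_lit 0x38112) (nat_lit 0) (p (nat_lit 0x20092)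 (nat_lit 0) (p (nat_lit 0x8012) (nat_lit 0) pn))))))))))))))))))))))))) :=
  Cl.node (nat_lit 0x109) (nat_lit 2) (by decide +kernel) (ClAll.succ (ClAll.succ ClAll.zero s18) n63)

def n104 : Cl (O (nat_lit 6)) (R (nat_lit 14465))
    (p (nat_lit 0x81) (nat_lit 1) (p (nat_lit 0xc1) (nat_lit 1) (p (nat_lit 0x119) (nat_lit 1) (p (nat_lit 0xd1) (nat_lit 0) (p (nat_lit 0x89) (nat_lit 0) (p (nat_lit 0x41) (nat_lit 0) (p (nat_lit 0x10a0b0a89889a) (nat_lit 0) (p (nat_lit 0x898a8a09081a) (nat_lit 0) (p (nat_lit 0x109080988879a) (nat_lit 0) (p (nat_lit 0x88878908071a) (nat_lit 0) (p (nat_lit 0x8000080000000080887868a) (nat_lit 0) (p (nat_lit 0x10888070602) (nat_lit 0) (p (nat_lit 0x8807868582) (nat_lit 0) (p (nat_lit 0x10587060502) (nat_lit 0) (p (nat_lit 0x8506858482) (nat_lit 0) (p (nat_lit 0x160004) (nat_lit 0) (p (nat_lit 0x68612) (nat_lit 0) (p (nat_lit 0x50592) (nat_lit 0) (p (nat_lit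 0x38512) (nat_lit 0) (p (nat_lit 0x50392) (nat_lit 0) (p (nat_lit 0x38312) (nat_lit 0) (p (nat_lit 0x20292) (nat_lit 0) (p (nat_lit 0x38112) (nat_lit 0) (p (nat_lit 0x20092) (nat_lit 0) (p (nat_lit 0x8012) (nat_lit 0) pn))))))))))))))))))))))))) :=
  Cl.node (nat_lit 0x101) (nat_lit 2) (by decide +kernel) (ClAll.succ (ClAll.succ ClAll.zero n64) s26)

def n105 : Cl (O (nat_lit 6)) (R (nat_lit 14465))
    (p (nat_lit 0x109) (nat_lit 1) (p (nat_lit 0x101) (nat_lit 0) (p (nat_lit 0x111) (nat_lit 0) (p (nat_lit 0xd1) (nat_lit 1) (p (nat_lit 0x89) (nat_lit 0) (p (nat_lit 0x41) (nat_lit 0) (p (nat_lit 0x10a0b0a89889a) (nat_lit 0) (p (nat_lit 0x898a8a09081a) (nat_lit 0) (p (nat_lit 0x109080988879a) (nat_lit 0) (p (nat_lit 0x88878908071a) (nat_lit 0) (p (nat_lit 0x8000080000000080887868a) (nat_lit 0) (p (nat_lit 0x10888070602) (nat_lit 0) (p (nat_lit 0x8807868582) (nat_lit 0) (p (nat_lit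 0x10587060502) (nat_lit 0) (p (nat_lit 0x8506858482) (nat_lit 0) (p (nat_lit 0x160004) (nat_lit 0) (p (nat_lit 0x68612) (nat_lit 0) (p (nat_lit 0x50592) (nat_lit 0) (p (nat_lit 0x38512) (nat_lit 0) (p (nat_lit 0x50392) (nat_lit 0) (p (nat_lit 0x38312) (nat_lit 0) (p (nat_lit 0x20292) (nat_lit 0) (p (nat_lit 0x38112) (nat_lit 0) (p (nat_lit 0x20092) (nat_lit 0) (p (nat_lit 0x8012) (nat_lit 0) pn))))))))))))))))))))))))) :=
  Cl.node (nat_lit 0x20000c) (nat_lit 2) (by decide +kernel) (ClAll.succ (ClAll.succ ClAll.zero n65) n66)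

def n106 : Cl (O (nat_lit 6)) (R (nat_lit 14465))
    (p (nat_lit 0x81) (nat_lit 0) (p (nat_lit 0x101) (nat_lit 1) (p (nat_lit 0x111) (nat_lit 0) (p (nat_lit 0xd1) (nat_lit 1) (p (nat_lit 0x89) (nat_lit 0) (p (nat_lit 0x41) (nat_lit 0) (p (nat_lit 0x10a0b0a89889a) (nat_lit 0) (p (nat_lit 0x898a8a09081a) (nat_lit 0) (p (nat_lit 0x109080988879a) (nat_lit 0) (p (nat_lit 0x88878908071a) (nat_lit 0) (p (nat_lit 0x8000080000000080887868a) (nat_lit 0) (p (nat_lit 0x10888070602) (nat_lit 0) (p (nat_lit 0x8807868582) (nat_lit 0) (p (nat_lit 0x10587060502) (nat_lit 0) (p (nat_lit 0x8506858482) (nat_lit 0) (p (nat_lit 0x160004) (nat_lit 0) (p (nat_lit 0x68612) (nat_lit 0) (p (nat_lit 0x50592) (nat_lit 0) (p (nat_lit 0x38512) (nat_lit 0) (p (nat_lit 0x50392) (nat_lit 0) (p (nat_lit 0x38312) (nat_lit 0) (p (nat_lit 0x20292) (nat_lit 0) (p (nat_lit 0x38112) (nat_lit 0) (p (nat_lit 0x20092)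 (nat_lit 0) (p (nat_lit 0x8012) (nat_lit 0) pn))))))))))))))))))))))))) :=
  Cl.node (nat_lit 0x20000c) (nat_lit 2) (by decide +kernel) (ClAll.succ (ClAll.succ ClAll.zero n67) n68)

def n107 : Cl (O (nat_lit 6)) (R (nat_lit 14465))
    (p (nat_lit 0x81) (nat_lit 1) (p (nat_lit 0x101) (nat_lit 1) (p (nat_lit 0x111) (nat_lit 0) (p (nat_lit 0xd1) (nat_lit 1) (p (nat_lit 0x89) (nat_lit 0) (p (nat_lit 0x41) (nat_lit 0) (p (nat_lit 0x10a0b0a89889a) (nat_lit 0) (p (nat_lit 0x898a8a09081a) (nat_lit 0) (p (nat_lit 0x109080988879a) (nat_lit 0) (p (nat_lit 0x88878908071a) (nat_lit 0) (p (nat_lit 0x8000080000000080887868a) (nat_lit 0) (p (nat_lit 0x10888070602) (nat_lit 0) (p (nat_lit 0x8807868582) (nat_lit 0) (p (nat_lit 0x10587060502) (nat_lit 0) (p (nat_lit 0x8506858482) (nat_lit 0) (p (nat_lit 0x160004) (nat_lit 0) (p (nat_lit 0x68612) (nat_lit 0) (p (nat_lit 0x50592) (nat_lit 0) (p (nat_lit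 0x38512) (nat_lit 0) (p (nat_lit 0x50392) (nat_lit 0) (p (nat_lit 0x38312) (nat_lit 0) (p (nat_lit 0x20292) (nat_lit 0) (p (nat_lit 0x38112) (nat_lit 0) (p (nat_lit 0x20092) (nat_lit 0) (p (nat_lit 0x8012) (nat_lit 0) pn))))))))))))))))))))))))) :=
  Cl.node (nat_lit 0xc1) (nat_lit 2) (by decide +kernel) (ClAll.succ (ClAll.succ ClAll.zero n69) s46)

def n108 : Cl (O (nat_lit 6)) (R (nat_lit 14465))
    (p (nat_lit 0xc1) (nat_lit 1) (p (nat_lit 0x81) (nat_lit 1) (p (nat_lit 0x111) (nat_lit 1) (p (nat_lit 0xd1) (nat_lit 1) (p (nat_lit 0x89) (nat_lit 0) (p (nat_lit 0x41) (nat_lit 0) (p (nat_lit 0x10a0b0a89889a) (nat_lit 0) (p (nat_lit 0x898a8a09081a) (nat_lit 0) (p (nat_lit 0x109080988879a) (nat_lit 0) (p (nat_lit 0x88878908071a) (nat_lit 0) (p (nat_lit 0x8000080000000080887868a) (nat_lit 0) (p (nat_lit 0x10888070602) (nat_lit 0) (p (nat_lit 0x8807868582) (nat_lit 0) (p (nat_lit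 0x10587060502) (nat_lit 0) (p (nat_lit 0x8506858482) (nat_lit 0) (p (nat_lit 0x160004) (nat_lit 0) (p (nat_lit 0x68612) (nat_lit 0) (p (nat_lit 0x50592) (nat_lit 0) (p (nat_lit 0x38512) (nat_lit 0) (p (nat_lit 0x50392) (nat_lit 0) (p (nat_lit 0x38312) (nat_lit 0) (p (nat_lit 0x20292) (nat_lit 0) (p (nat_lit 0x38112) (nat_lit 0) (p (nat_lit 0x20092) (nat_lit 0) (p (nat_lit 0x8012) (nat_lit 0) pn))))))))))))))))))))))))) :=
  Cl.node (nat_lit 0x101) (nat_lit 2) (by decide +kernel) (ClAll.succ (ClAll.succ ClAll.zero n70) s51)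

def n109 : Cl (O (nat_lit 6)) (R (nat_lit 14465))
    (p (nat_lit 0x109) (nat_lit 0) (p (nat_lit 0x101) (nat_lit 0) (p (nat_lit 0x119) (nat_lit 0) (p (nat_lit 0xc9) (nat_lit 0) (p (nat_lit 0x89) (nat_lit 1) (p (nat_lit 0x41) (nat_lit 0) (p (nat_lit 0x10a0b0a89889a) (nat_lit 0) (p (nat_lit 0x898a8a09081a) (nat_lit 0) (p (nat_lit 0x109080988879a) (nat_lit 0) (p (nat_lit 0x88878908071a) (nat_lit 0) (p (nat_lit 0x8000080000000080887868a) (nat_lit 0) (p (nat_lit 0x10888070602) (nat_lit 0) (p (nat_lit 0x8807868582) (nat_lit 0) (p (nat_lit 0x10587060502) (nat_lit 0) (p (nat_lit 0x8506858482) (nat_lit 0) (p (nat_lit 0x160004) (nat_lit 0) (p (nat_lit 0x68612) (nat_lit 0) (p (nat_lit 0x50592) (nat_lit 0) (p (nat_lit 0x38512) (nat_lit 0) (p (nat_lit 0x50392) (nat_lit 0) (p (nat_lit 0x38312) (nat_lit 0) (p (nat_lit 0x20292) (nat_lit 0) (p (nat_lit 0x38112) (nat_lit 0) (p (nat_lit 0x20092)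 (nat_lit 0) (p (nat_lit 0x8012) (nat_lit 0) pn))))))))))))))))))))))))) :=
  Cl.node (nat_lit 0x111) (nat_lit 2) (by decide +kernel) (ClAll.succ (ClAll.succ ClAll.zero s52) n71)

def n110 : Cl (O (nat_lit 6)) (R (nat_lit 14465))
    (p (nat_lit 0x109) (nat_lit 1) (p (nat_lit 0x101) (nat_lit 0) (p (nat_lit 0x119) (nat_lit 0) (p (nat_lit 0xc9) (nat_lit 0) (p (nat_lit 0x89) (nat_lit 1) (p (nat_lit 0x41) (nat_lit 0) (p (nat_lit 0x10a0b0a89889a) (nat_lit 0) (p (nat_lit 0x898a8a09081a) (nat_lit 0) (p (nat_lit 0x109080988879a) (nat_lit 0) (p (nat_lit 0x88878908071a) (nat_lit 0) (p (nat_lit 0x8000080000000080887868a) (nat_lit 0) (p (nat_lit 0x10888070602) (nat_lit 0) (p (nat_lit 0x8807868582) (nat_lit 0) (p (nat_lit 0x10587060502) (nat_lit 0) (p (nat_lit 0x8506858482) (nat_lit 0) (p (nat_lit 0x160004) (nat_lit 0) (p (nat_lit 0x68612) (nat_lit 0) (p (nat_lit 0x50592) (nat_lit 0) (p (nat_lit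 0x38512) (nat_lit 0) (p (nat_lit 0x50392) (nat_lit 0) (p (nat_lit 0x38312) (nat_lit 0) (p (nat_lit 0x20292) (nat_lit 0) (p (nat_lit 0x38112) (nat_lit 0) (p (nat_lit 0x20092) (nat_lit 0) (p (nat_lit 0x8012) (nat_lit 0) pn))))))))))))))))))))))))) :=
  Cl.node (nat_lit 0xd1) (nat_lit 2) (by decide +kernel) (ClAll.succ (ClAll.succ ClAll.zero n72) n73)

def n111 : Cl (O (nat_lit 6)) (R (nat_lit 14465))
    (p (nat_lit 0xc1) (nat_lit 0) (p (nat_lit 0x101) (nat_lit 1) (p (nat_lit 0x119) (nat_lit 0) (p (nat_lit 0xc9) (nat_lit 0) (p (nat_lit 0x89) (nat_lit 1) (p (nat_lit 0x41) (nat_lit 0) (p (nat_lit 0x10a0b0a89889a) (nat_lit 0) (p (nat_lit 0x898a8a09081a) (nat_lit 0) (p (nat_lit 0x109080988879a) (nat_lit 0) (p (nat_lit 0x88878908071a) (nat_lit 0) (p (nat_lit 0x8000080000000080887868a) (nat_lit 0) (p (nat_lit 0x10888070602) (nat_lit 0) (p (nat_lit 0x8807868582) (nat_lit 0) (p (nat_lit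 0x10587060502) (nat_lit 0) (p (nat_lit 0x8506858482) (nat_lit 0) (p (nat_lit 0x160004) (nat_lit 0) (p (nat_lit 0x68612) (nat_lit 0) (p (nat_lit 0x50592) (nat_lit 0) (p (nat_lit 0x38512) (nat_lit 0) (p (nat_lit 0x50392) (nat_lit 0) (p (nat_lit 0x38312) (nat_lit 0) (p (nat_lit 0x20292) (nat_lit 0) (p (nat_lit 0x38112) (nat_lit 0) (p (nat_lit 0x20092) (nat_lit 0) (p (nat_lit 0x8012) (nat_lit 0) pn))))))))))))))))))))))))) :=
  Cl.node (nat_lit 0xd1) (nat_lit 2) (by decide +kernel) (ClAll.succ (ClAll.succ ClAll.zero n74) n75)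

def n112 : Cl (O (nat_lit 6)) (R (nat_lit 14465))
    (p (nat_lit 0xd1) (nat_lit 1) (p (nat_lit 0xc1) (nat_lit 0) (p (nat_lit 0x119) (nat_lit 1) (p (nat_lit 0xc9) (nat_lit 0) (p (nat_lit 0x89) (nat_lit 1) (p (nat_lit 0x41) (nat_lit 0) (p (nat_lit 0x10a0b0a89889a) (nat_lit 0) (p (nat_lit 0x898a8a09081a) (nat_lit 0) (p (nat_lit 0x109080988879a) (nat_lit 0) (p (nat_lit 0x88878908071a) (nat_lit 0) (p (nat_lit 0x8000080000000080887868a) (nat_lit 0) (p (nat_lit 0x10888070602) (nat_lit 0) (p (nat_lit 0x8807868582) (nat_lit 0) (p (nat_lit 0x10587060502) (nat_lit 0) (p (nat_lit 0x8506858482) (nat_lit 0) (p (nat_lit 0x160004) (nat_lit 0) (p (nat_lit 0x68612) (nat_lit 0) (p (nat_lit 0x50592) (nat_lit 0) (p (nat_lit 0x38512) (nat_lit 0) (p (nat_lit 0x50392) (nat_lit 0) (p (nat_lit 0x38312) (nat_lit 0) (p (nat_lit 0x20292) (nat_lit 0) (p (nat_lit 0x38112) (nat_lit 0) (p (nat_lit 0x20092)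 (nat_lit 0) (p (nat_lit 0x8012) (nat_lit 0) pn))))))))))))))))))))))))) :=
  Cl.node (nat_lit 0x111) (nat_lit 2) (by decide +kernel) (ClAll.succ (ClAll.succ ClAll.zero s77) n76)

def n113 : Cl (O (nat_lit 6)) (R (nat_lit 14465))
    (p (nat_lit 0x101) (nat_lit 0) (p (nat_lit 0xc1) (nat_lit 1) (p (nat_lit 0x119) (nat_lit 1) (p (nat_lit 0xc9) (nat_lit 0) (p (nat_lit 0x89) (nat_lit 1) (p (nat_lit 0x41) (nat_lit 0) (p (nat_lit 0x10a0b0a89889a) (nat_lit 0) (p (nat_lit 0x898a8a09081a) (nat_lit 0) (p (nat_lit 0x109080988879a) (nat_lit 0) (p (nat_lit 0x88878908071a) (nat_lit 0) (p (nat_lit 0x8000080000000080887868a) (nat_lit 0) (p (nat_lit 0x10888070602) (nat_lit 0) (p (nat_lit 0x8807868582) (nat_lit 0) (p (nat_lit 0x10587060502) (nat_lit 0) (p (nat_lit 0x8506858482) (nat_lit 0) (p (nat_lit 0x160004) (nat_lit 0) (p (nat_lit 0x68612) (nat_lit 0) (p (nat_lit 0x50592) (nat_lit 0) (p (nat_lit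 0x38512) (nat_lit 0) (p (nat_lit 0x50392) (nat_lit 0) (p (nat_lit 0x38312) (nat_lit 0) (p (nat_lit 0x20292) (nat_lit 0) (p (nat_lit 0x38112) (nat_lit 0) (p (nat_lit 0x20092) (nat_lit 0) (p (nat_lit 0x8012) (nat_lit 0) pn))))))))))))))))))))))))) :=
  Cl.node (nat_lit 0x111) (nat_lit 2) (by decide +kernel) (ClAll.succ (ClAll.succ ClAll.zero s81) n77)

def n114 : Cl (O (nat_lit 6)) (R (nat_lit 14465))
    (p (nat_lit 0x109) (nat_lit 1) (p (nat_lit 0x101) (nat_lit 0) (p (nat_lit 0x119) (nat_lit 0) (p (nat_lit 0xd1) (nat_lit 0) (p (nat_lit 0x81) (nat_lit 0) (p (nat_lit 0x41) (nat_lit 1) (p (nat_lit 0x10a0b0a89889a) (nat_lit 0) (p (nat_lit 0x898a8a09081a) (nat_lit 0) (p (nat_lit 0x109080988879a) (nat_lit 0) (p (nat_lit 0x88878908071a) (nat_lit 0) (p (nat_lit 0x8000080000000080887868a) (nat_lit 0) (p (nat_lit 0x10888070602) (nat_lit 0) (p (nat_lit 0x8807868582) (nat_lit 0) (p (nat_lit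 0x10587060502) (nat_lit 0) (p (nat_lit 0x8506858482) (nat_lit 0) (p (nat_lit 0x160004) (nat_lit 0) (p (nat_lit 0x68612) (nat_lit 0) (p (nat_lit 0x50592) (nat_lit 0) (p (nat_lit 0x38512) (nat_lit 0) (p (nat_lit 0x50392) (nat_lit 0) (p (nat_lit 0x38312) (nat_lit 0) (p (nat_lit 0x20292) (nat_lit 0) (p (nat_lit 0x38112) (nat_lit 0) (p (nat_lit 0x20092) (nat_lit 0) (p (nat_lit 0x8012) (nat_lit 0) pn))))))))))))))))))))))))) :=
  Cl.node (nat_lit 0x89) (nat_lit 2) (by decide +kernel) (ClAll.succ (ClAll.succ ClAll.zero n78) n79)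

def n115 : Cl (O (nat_lit 6)) (R (nat_lit 14465))
    (p (nat_lit 0xc1) (nat_lit 0) (p (nat_lit 0x101) (nat_lit 1) (p (nat_lit 0x119) (nat_lit 0) (p (nat_lit 0xd1) (nat_lit 0) (p (nat_lit 0x81) (nat_lit 0) (p (nat_lit 0x41) (nat_lit 1) (p (nat_lit 0x10a0b0a89889a) (nat_lit 0) (p (nat_lit 0x898a8a09081a) (nat_lit 0) (p (nat_lit 0x109080988879a) (nat_lit 0) (p (nat_lit 0x88878908071a) (nat_lit 0) (p (nat_lit 0x8000080000000080887868a) (nat_lit 0) (p (nat_lit 0x10888070602) (nat_lit 0) (p (nat_lit 0x8807868582) (nat_lit 0) (p (nat_lit 0x10587060502) (nat_lit 0) (p (nat_lit 0x8506858482) (nat_lit 0) (p (nat_lit 0x160004) (nat_lit 0) (p (nat_lit 0x68612) (nat_lit 0) (p (nat_lit 0x50592) (nat_lit 0) (p (nat_lit 0x38512) (nat_lit 0) (p (nat_lit 0x50392) (nat_lit 0) (p (nat_lit 0x38312) (nat_lit 0) (p (nat_lit 0x20292) (nat_lit 0) (p (nat_lit 0x38112) (nat_lit 0) (p (nat_lit 0x20092)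 (nat_lit 0) (p (nat_lit 0x8012) (nat_lit 0) pn))))))))))))))))))))))))) :=
  Cl.node (nat_lit 0x89) (nat_lit 2) (by decide +kernel) (ClAll.succ (ClAll.succ ClAll.zero n80) n81)

def n116 : Cl (O (nat_lit 6)) (R (nat_lit 14465))
    (p (nat_lit 0xc1) (nat_lit 1) (p (nat_lit 0x101) (nat_lit 1) (p (nat_lit 0x119) (nat_lit 0) (p (nat_lit 0xd1) (nat_lit 0) (p (nat_lit 0x81) (nat_lit 0) (p (nat_lit 0x41) (nat_lit 1) (p (nat_lit 0x10a0b0a89889a) (nat_lit 0) (p (nat_lit 0x898a8a09081a) (nat_lit 0) (p (nat_lit 0x109080988879a) (nat_lit 0) (p (nat_lit 0x88878908071a) (nat_lit 0) (p (nat_lit 0x8000080000000080887868a) (nat_lit 0) (p (nat_lit 0x10888070602) (nat_lit 0) (p (nat_lit 0x8807868582) (nat_lit 0) (p (nat_lit 0x10587060502) (nat_lit 0) (p (nat_lit 0x8506858482) (nat_lit 0) (p (nat_lit 0x160004) (nat_lit 0) (p (nat_lit 0x68612) (nat_lit 0) (p (nat_lit 0x50592) (nat_lit 0) (p (nat_lit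 0x38512) (nat_lit 0) (p (nat_lit 0x50392) (nat_lit 0) (p (nat_lit 0x38312) (nat_lit 0) (p (nat_lit 0x20292) (nat_lit 0) (p (nat_lit 0x38112) (nat_lit 0) (p (nat_lit 0x20092) (nat_lit 0) (p (nat_lit 0x8012) (nat_lit 0) pn))))))))))))))))))))))))) :=
  Cl.node (nat_lit 0x89) (nat_lit 2) (by decide +kernel) (ClAll.succ (ClAll.succ ClAll.zero n82) n83)

def n117 : Cl (O (nat_lit 6)) (R (nat_lit 14465))
    (p (nat_lit 0xc9) (nat_lit 1) (p (nat_lit 0xc1) (nat_lit 0) (p (nat_lit 0x119) (nat_lit 1) (p (nat_lit 0xd1) (nat_lit 0) (p (nat_lit 0x81) (nat_lit 0) (p (nat_lit 0x41) (nat_lit 1) (p (nat_lit 0x10a0b0a89889a) (nat_lit 0) (p (nat_lit 0x898a8a09081a) (nat_lit 0) (p (nat_lit 0x109080988879a) (nat_lit 0) (p (nat_lit 0x88878908071a) (nat_lit 0) (p (nat_lit 0x8000080000000080887868a) (nat_lit 0) (p (nat_lit 0x10888070602) (nat_lit 0) (p (nat_lit 0x8807868582) (nat_lit 0) (p (nat_lit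 0x10587060502) (nat_lit 0) (p (nat_lit 0x8506858482) (nat_lit 0) (p (nat_lit 0x160004) (nat_lit 0) (p (nat_lit 0x68612) (nat_lit 0) (p (nat_lit 0x50592) (nat_lit 0) (p (nat_lit 0x38512) (nat_lit 0) (p (nat_lit 0x50392) (nat_lit 0) (p (nat_lit 0x38312) (nat_lit 0) (p (nat_lit 0x20292) (nat_lit 0) (p (nat_lit 0x38112) (nat_lit 0) (p (nat_lit 0x20092) (nat_lit 0) (p (nat_lit 0x8012) (nat_lit 0) pn))))))))))))))))))))))))) :=
  Cl.node (nat_lit 0x89) (nat_lit 2) (by decide +kernel) (ClAll.succ (ClAll.succ ClAll.zero s112) n84)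

def n118 : Cl (O (nat_lit 6)) (R (nat_lit 14465))
    (p (nat_lit 0x101) (nat_lit 0) (p (nat_lit 0xc1) (nat_lit 1) (p (nat_lit 0x119) (nat_lit 1) (p (nat_lit 0xd1) (nat_lit 0) (p (nat_lit 0x81) (nat_lit 0) (p (nat_lit 0x41) (nat_lit 1) (p (nat_lit 0x10a0b0a89889a) (nat_lit 0) (p (nat_lit 0x898a8a09081a) (nat_lit 0) (p (nat_lit 0x109080988879a) (nat_lit 0) (p (nat_lit 0x88878908071a) (nat_lit 0) (p (nat_lit 0x8000080000000080887868a) (nat_lit 0) (p (nat_lit 0x10888070602) (nat_lit 0) (p (nat_lit 0x8807868582) (nat_lit 0) (p (nat_lit 0x10587060502) (nat_lit 0) (p (nat_lit 0x8506858482) (nat_lit 0) (p (nat_lit 0x160004) (nat_lit 0) (p (nat_lit 0x68612) (nat_lit 0) (p (nat_lit 0x50592) (nat_lit 0) (p (nat_lit 0x38512) (nat_lit 0) (p (nat_lit 0x50392) (nat_lit 0) (p (nat_lit 0x38312) (nat_lit 0) (p (nat_lit 0x20292) (nat_lit 0) (p (nat_lit 0x38112) (nat_lit 0) (p (nat_lit 0x20092)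 (nat_lit 0) (p (nat_lit 0x8012) (nat_lit 0) pn))))))))))))))))))))))))) :=
  Cl.node (nat_lit 0x89) (nat_lit 2) (by decide +kernel) (ClAll.succ (ClAll.succ ClAll.zero s117) n85)

def n119 : Cl (O (nat_lit 6)) (R (nat_lit 14465))
    (p (nat_lit 0x101) (nat_lit 1) (p (nat_lit 0xc1) (nat_lit 1) (p (nat_lit 0x119) (nat_lit 1) (p (nat_lit 0xd1) (nat_lit 0) (p (nat_lit 0x81) (nat_lit 0) (p (nat_lit 0x41) (nat_lit 1) (p (nat_lit 0x10a0b0a89889a) (nat_lit 0) (p (nat_lit 0x898a8a09081a) (nat_lit 0) (p (nat_lit 0x109080988879a) (nat_lit 0) (p (nat_lit 0x88878908071a) (nat_lit 0) (p (nat_lit 0x8000080000000080887868a) (nat_lit 0) (p (nat_lit 0x10888070602) (nat_lit 0) (p (nat_lit 0x8807868582) (nat_lit 0) (p (nat_lit 0x10587060502) (nat_lit 0) (p (nat_lit 0x8506858482) (nat_lit 0) (p (nat_lit 0x160004) (nat_lit 0) (p (nat_lit 0x68612) (nat_lit 0) (p (nat_lit 0x50592) (nat_lit 0) (p (nat_lit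 0x38512) (nat_lit 0) (p (nat_lit 0x50392) (nat_lit 0) (p (nat_lit 0x38312) (nat_lit 0) (p (nat_lit 0x20292) (nat_lit 0) (p (nat_lit 0x38112) (nat_lit 0) (p (nat_lit 0x20092) (nat_lit 0) (p (nat_lit 0x8012) (nat_lit 0) pn))))))))))))))))))))))))) :=
  Cl.node (nat_lit 0x89) (nat_lit 2) (by decide +kernel) (ClAll.succ (ClAll.succ ClAll.zero n86) n87)

def n120 : Cl (O (nat_lit 6)) (R (nat_lit 14465))
    (p (nat_lit 0x109) (nat_lit 1) (p (nat_lit 0x101) (nat_lit 0) (p (nat_lit 0x111) (nat_lit 0) (p (nat_lit 0xd1) (nat_lit 1) (p (nat_lit 0x81) (nat_lit 0) (p (nat_lit 0x41) (nat_lit 1) (p (nat_lit 0x10a0b0a89889a) (nat_lit 0) (p (nat_lit 0x898a8a09081a) (nat_lit 0) (p (nat_lit 0x109080988879a) (nat_lit 0) (p (nat_lit 0x88878908071a) (nat_lit 0) (p (nat_lit 0x8000080000000080887868a) (nat_lit 0) (p (nat_lit 0x10888070602) (nat_lit 0) (p (nat_lit 0x8807868582) (nat_lit 0) (p (nat_lit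 0x10587060502) (nat_lit 0) (p (nat_lit 0x8506858482) (nat_lit 0) (p (nat_lit 0x160004) (nat_lit 0) (p (nat_lit 0x68612) (nat_lit 0) (p (nat_lit 0x50592) (nat_lit 0) (p (nat_lit 0x38512) (nat_lit 0) (p (nat_lit 0x50392) (nat_lit 0) (p (nat_lit 0x38312) (nat_lit 0) (p (nat_lit 0x20292) (nat_lit 0) (p (nat_lit 0x38112) (nat_lit 0) (p (nat_lit 0x20092) (nat_lit 0) (p (nat_lit 0x8012) (nat_lit 0) pn))))))))))))))))))))))))) :=
  Cl.node (nat_lit 0x89) (nat_lit 2) (by decide +kernel) (ClAll.succ (ClAll.succ ClAll.zero n88) n89)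

def n121 : Cl (O (nat_lit 6)) (R (nat_lit 14465))
    (p (nat_lit 0x89) (nat_lit 0) (p (nat_lit 0x101) (nat_lit 1) (p (nat_lit 0x111) (nat_lit 0) (p (nat_lit 0xd1) (nat_lit 1) (p (nat_lit 0x81) (nat_lit 0) (p (nat_lit 0x41) (nat_lit 1) (p (nat_lit 0x10a0b0a89889a) (nat_lit 0) (p (nat_lit 0x898a8a09081a) (nat_lit 0) (p (nat_lit 0x109080988879a) (nat_lit 0) (p (nat_lit 0x88878908071a) (nat_lit 0) (p (nat_lit 0x8000080000000080887868a) (nat_lit 0) (p (nat_lit 0x10888070602) (nat_lit 0) (p (nat_lit 0x8807868582) (nat_lit 0) (p (nat_lit 0x10587060502) (nat_lit 0) (p (nat_lit 0x8506858482) (nat_lit 0) (p (nat_lit 0x160004) (nat_lit 0) (p (nat_lit 0x68612) (nat_lit 0) (p (nat_lit 0x50592) (nat_lit 0) (p (nat_lit 0x38512) (nat_lit 0) (p (nat_lit 0x50392) (nat_lit 0) (p (nat_lit 0x38312) (nat_lit 0) (p (nat_lit 0x20292) (nat_lit 0) (p (nat_lit 0x38112) (nat_lit 0) (p (nat_lit 0x20092)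 (nat_lit 0) (p (nat_lit 0x8012) (nat_lit 0) pn))))))))))))))))))))))))) :=
  Cl.node (nat_lit 0x20000c) (nat_lit 2) (by decide +kernel) (ClAll.succ (ClAll.succ ClAll.zero n90) s138)

def n122 : Cl (O (nat_lit 6)) (R (nat_lit 14465))
    (p (nat_lit 0x89) (nat_lit 1) (p (nat_lit 0x101) (nat_lit 1) (p (nat_lit 0x111) (nat_lit 0) (p (nat_lit 0xd1) (nat_lit 1) (p (nat_lit 0x81) (nat_lit 0) (p (nat_lit 0x41) (nat_lit 1) (p (nat_lit 0x10a0b0a89889a) (nat_lit 0) (p (nat_lit 0x898a8a09081a) (nat_lit 0) (p (nat_lit 0x109080988879a) (nat_lit 0) (p (nat_lit 0x88878908071a) (nat_lit 0) (p (nat_lit 0x8000080000000080887868a) (nat_lit 0) (p (nat_lit 0x10888070602) (nat_lit 0) (p (nat_lit 0x8807868582) (nat_lit 0) (p (nat_lit 0x10587060502) (nat_lit 0) (p (nat_lit 0x8506858482) (nat_lit 0) (p (nat_lit 0x160004) (nat_lit 0) (p (nat_lit 0x68612) (nat_lit 0) (p (nat_lit 0x50592) (nat_lit 0) (p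 (nat_lit 0x38512) (nat_lit 0) (p (nat_lit 0x50392) (nat_lit 0) (p (nat_lit 0x38312) (nat_lit 0) (p (nat_lit 0x20292) (nat_lit 0) (p (nat_lit 0x38112) (nat_lit 0) (p (nat_lit 0x20092) (nat_lit 0) (p (nat_lit 0x8012) (nat_lit 0) pn))))))))))))))))))))))))) :=
  Cl.node (nat_lit 0xc9) (nat_lit 2) (by decide +kernel) (ClAll.succ (ClAll.succ ClAll.zero n91) s146)

def n123 : Cl (O (nat_lit 6)) (R (nat_lit 14465))
    (p (nat_lit 0xc9) (nat_lit 1) (p (nat_lit 0x89) (nat_lit 1) (p (nat_lit 0x111) (nat_lit 1) (p (nat_lit 0xd1) (nat_lit 1) (p (nat_lit 0x81) (nat_lit 0) (p (nat_lit 0x41) (nat_lit 1) (p (nat_lit 0x10a0b0a89889a) (nat_lit 0) (p (nat_lit 0x898a8a09081a) (nat_lit 0) (p (nat_lit 0x109080988879a) (nat_lit 0) (p (nat_lit 0x88878908071a) (nat_lit 0) (p (nat_lit 0x8000080000000080887868a) (nat_lit 0) (p (nat_lit 0x10888070602) (nat_lit 0) (p (nat_lit 0x8807868582) (nat_lit 0) (p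 (nat_lit 0x10587060502) (nat_lit 0) (p (nat_lit 0x8506858482) (nat_lit 0) (p (nat_lit 0x160004) (nat_lit 0) (p (nat_lit 0x68612) (nat_lit 0) (p (nat_lit 0x50592) (nat_lit 0) (p (nat_lit 0x38512) (nat_lit 0) (p (nat_lit 0x50392) (nat_lit 0) (p (nat_lit 0x38312) (nat_lit 0) (p (nat_lit 0x20292) (nat_lit 0) (p (nat_lit 0x38112) (nat_lit 0) (p (nat_lit 0x20092) (nat_lit 0) (p (nat_lit 0x8012) (nat_lit 0) pn))))))))))))))))))))))))) :=
  Cl.node (nat_lit 0x109) (nat_lit 2) (by decide +kernel) (ClAll.succ (ClAll.succ ClAll.zero n92) s151)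

def n124 : Cl (O (nat_lit 6)) (R (nat_lit 14465))
    (p (nat_lit 0x109) (nat_lit 0) (p (nat_lit 0x101) (nat_lit 0) (p (nat_lit 0x119) (nat_lit 0) (p (nat_lit 0xc1) (nat_lit 0) (p (nat_lit 0x81) (nat_lit 1) (p (nat_lit 0x41) (nat_lit 1) (p (nat_lit 0x10a0b0a89889a) (nat_lit 0) (p (nat_lit 0x898a8a09081a) (nat_lit 0) (p (nat_lit 0x109080988879a) (nat_lit 0) (p (nat_lit 0x88878908071a) (nat_lit 0) (p (nat_lit 0x8000080000000080887868a) (nat_lit 0) (p (nat_lit 0x10888070602) (nat_lit 0) (p (nat_lit 0x8807868582) (nat_lit 0) (p (nat_lit 0x10587060502) (nat_lit 0) (p (nat_lit 0x8506858482) (nat_lit 0) (p (nat_lit 0x160004) (nat_lit 0) (p (nat_lit 0x68612) (nat_lit 0) (p (nat_lit 0x50592) (nat_lit 0) (p (nat_lit 0x38512) (nat_lit 0) (p (nat_lit 0x50392) (nat_lit 0) (p (nat_lit 0x38312) (nat_lit 0) (p (nat_lit 0x20292) (nat_lit 0) (p (nat_lit 0x38112) (nat_lit 0) (p (nat_lit 0x20092)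 (nat_lit 0) (p (nat_lit 0x8012) (nat_lit 0) pn))))))))))))))))))))))))) :=
  Cl.node (nat_lit 0x111) (nat_lit 2) (by decide +kernel) (ClAll.succ (ClAll.succ ClAll.zero s152) n93)

def n125 : Cl (O (nat_lit 6)) (R (nat_lit 14465))
    (p (nat_lit 0x109) (nat_lit 1) (p (nat_lit 0x101) (nat_lit 0) (p (nat_lit 0x119) (nat_lit 0) (p (nat_lit 0xc1) (nat_lit 0) (p (nat_lit 0x81) (nat_lit 1) (p (nat_lit 0x41) (nat_lit 1) (p (nat_lit 0x10a0b0a89889a) (nat_lit 0) (p (nat_lit 0x898a8a09081a) (nat_lit 0) (p (nat_lit 0x109080988879a) (nat_lit 0) (p (nat_lit 0x88878908071a) (nat_lit 0) (p (nat_lit 0x8000080000000080887868a) (nat_lit 0) (p (nat_lit 0x10888070602) (nat_lit 0) (p (nat_lit 0x8807868582) (nat_lit 0) (p (nat_lit 0x10587060502) (nat_lit 0) (p (nat_lit 0x8506858482) (nat_lit 0) (p (nat_lit 0x160004) (nat_lit 0) (p (nat_lit 0x68612) (nat_lit 0) (p (nat_lit 0x50592) (nat_lit 0) (p (nat_lit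 0x38512) (nat_lit 0) (p (nat_lit 0x50392) (nat_lit 0) (p (nat_lit 0x38312) (nat_lit 0) (p (nat_lit 0x20292) (nat_lit 0) (p (nat_lit 0x38112) (nat_lit 0) (p (nat_lit 0x20092) (nat_lit 0) (p (nat_lit 0x8012) (nat_lit 0) pn))))))))))))))))))))))))) :=
  Cl.node (nat_lit 0xc9) (nat_lit 2) (by decide +kernel) (ClAll.succ (ClAll.succ ClAll.zero n94) s159)

def n126 : Cl (O (nat_lit 6)) (R (nat_lit 14465))
    (p (nat_lit 0xc9) (nat_lit 0) (p (nat_lit 0x101) (nat_lit 1) (p (nat_lit 0x119) (nat_lit 0) (p (nat_lit 0xc1) (nat_lit 0) (p (nat_lit 0x81) (nat_lit 1) (p (nat_lit 0x41) (nat_lit 1) (p (nat_lit 0x10a0b0a89889a) (nat_lit 0) (p (nat_lit 0x898a8a09081a) (nat_lit 0) (p (nat_lit 0x109080988879a) (nat_lit 0) (p (nat_lit 0x88878908071a) (nat_lit 0) (p (nat_lit 0x8000080000000080887868a) (nat_lit 0) (p (nat_lit 0x10888070602) (nat_lit 0) (p (nat_lit 0x8807868582) (nat_lit 0) (p (nat_lit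 0x10587060502) (nat_lit 0) (p (nat_lit 0x8506858482) (nat_lit 0) (p (nat_lit 0x160004) (nat_lit 0) (p (nat_lit 0x68612) (nat_lit 0) (p (nat_lit 0x50592) (nat_lit 0) (p (nat_lit 0x38512) (nat_lit 0) (p (nat_lit 0x50392) (nat_lit 0) (p (nat_lit 0x38312) (nat_lit 0) (p (nat_lit 0x20292) (nat_lit 0) (p (nat_lit 0x38112) (nat_lit 0) (p (nat_lit 0x20092) (nat_lit 0) (p (nat_lit 0x8012) (nat_lit 0) pn))))))))))))))))))))))))) :=
  Cl.node (nat_lit 0xd1) (nat_lit 2) (by decide +kernel) (ClAll.succ (ClAll.succ ClAll.zero n95) n96)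

def n127 : Cl (O (nat_lit 6)) (R (nat_lit 14465))
    (p (nat_lit 0xd1) (nat_lit 1) (p (nat_lit 0xc9) (nat_lit 0) (p (nat_lit 0x119) (nat_lit 1) (p (nat_lit 0xc1) (nat_lit 0) (p (nat_lit 0x81) (nat_lit 1) (p (nat_lit 0x41) (nat_lit 1) (p (nat_lit 0x10a0b0a89889a) (nat_lit 0) (p (nat_lit 0x898a8a09081a) (nat_lit 0) (p (nat_lit 0x109080988879a) (nat_lit 0) (p (nat_lit 0x88878908071a) (nat_lit 0) (p (nat_lit 0x8000080000000080887868a) (nat_lit 0) (p (nat_lit 0x10888070602) (nat_lit 0) (p (nat_lit 0x8807868582) (nat_lit 0) (p (nat_lit 0x10587060502) (nat_lit 0) (p (nat_lit 0x8506858482) (nat_lit 0) (p (nat_lit 0x160004) (nat_lit 0) (p (nat_lit 0x68612) (nat_lit 0) (p (nat_lit 0x50592) (nat_lit 0) (p (nat_lit 0x38512) (nat_lit 0) (p (nat_lit 0x50392) (nat_lit 0) (p (nat_lit 0x38312) (nat_lit 0) (p (nat_lit 0x20292) (nat_lit 0) (p (nat_lit 0x38112) (nat_lit 0) (p (nat_lit 0x20092)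 (nat_lit 0) (p (nat_lit 0x8012) (nat_lit 0) pn))))))))))))))))))))))))) :=
  Cl.node (nat_lit 0x111) (nat_lit 2) (by decide +kernel) (ClAll.succ (ClAll.succ ClAll.zero s170) n97)

def n128 : Cl (O (nat_lit 6)) (R (nat_lit 14465))
    (p (nat_lit 0x109) (nat_lit 0) (p (nat_lit 0xc9) (nat_lit 1) (p (nat_lit 0x119) (nat_lit 1) (p (nat_lit 0xc1) (nat_lit 0) (p (nat_lit 0x81) (nat_lit 1) (p (nat_lit 0x41) (nat_lit 1) (p (nat_lit 0x10a0b0a89889a) (nat_lit 0) (p (nat_lit 0x898a8a09081a) (nat_lit 0) (p (nat_lit 0x109080988879a) (nat_lit 0) (p (nat_lit 0x88878908071a) (nat_lit 0) (p (nat_lit 0x8000080000000080887868a) (nat_lit 0) (p (nat_lit 0x10888070602) (nat_lit 0) (p (nat_lit 0x8807868582) (nat_lit 0) (p (nat_lit 0x10587060502) (nat_lit 0) (p (nat_lit 0x8506858482) (nat_lit 0) (p (nat_lit 0x160004) (nat_lit 0) (p (nat_lit 0x68612) (nat_lit 0) (p (nat_lit 0x50592) (nat_lit 0) (p (nat_lit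 0x38512) (nat_lit 0) (p (nat_lit 0x50392) (nat_lit 0) (p (nat_lit 0x38312) (nat_lit 0) (p (nat_lit 0x20292) (nat_lit 0) (p (nat_lit 0x38112) (nat_lit 0) (p (nat_lit 0x20092) (nat_lit 0) (p (nat_lit 0x8012) (nat_lit 0) pn))))))))))))))))))))))))) :=
  Cl.node (nat_lit 0x111) (nat_lit 2) (by decide +kernel) (ClAll.succ (ClAll.succ ClAll.zero s174) n98)

def n129 : Cl (O (nat_lit 6)) (R (nat_lit 14465))
    (p (nat_lit 0x101) (nat_lit 0) (p (nat_lit 0x119) (nat_lit 0) (p (nat_lit 0xd1) (nat_lit 0) (p (nat_lit 0x89) (nat_lit 0) (p (nat_lit 0x41) (nat_lit 0) (p (nat_lit 0x10a0b0a89889a) (nat_lit 0) (p (nat_lit 0x898a8a09081a) (nat_lit 0) (p (nat_lit 0x109080988879a) (nat_lit 0) (p (nat_lit 0x88878908071a) (nat_lit 0) (p (nat_lit 0x8000080000000080887868a) (nat_lit 0) (p (nat_lit 0x10888070602) (nat_lit 0) (p (nat_lit 0x8807868582) (nat_lit 0) (p (nat_lit 0x10587060502) (nat_lit 0)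 (p (nat_lit 0x8506858482) (nat_lit 0) (p (nat_lit 0x160004) (nat_lit 0) (p (nat_lit 0x68612) (nat_lit 0) (p (nat_lit 0x50592) (nat_lit 0) (p (nat_lit 0x38512) (nat_lit 0) (p (nat_lit 0x50392) (nat_lit 0) (p (nat_lit 0x38312) (nat_lit 0) (p (nat_lit 0x20292) (nat_lit 0) (p (nat_lit 0x38112) (nat_lit 0) (p (nat_lit 0x20092) (nat_lit 0) (p (nat_lit 0x8012) (nat_lit 0) pn)))))))))))))))))))))))) :=
  Cl.node (nat_lit 0x109) (nat_lit 2) (by decide +kernel) (ClAll.succ (ClAll.succ ClAll.zero s0) n99)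

def n130 : Cl (O (nat_lit 6)) (R (nat_lit 14465))
    (p (nat_lit 0x101) (nat_lit 1) (p (nat_lit 0x119) (nat_lit 0) (p (nat_lit 0xd1) (nat_lit 0) (p (nat_lit 0x89) (nat_lit 0) (p (nat_lit 0x41) (nat_lit 0) (p (nat_lit 0x10a0b0a89889a) (nat_lit 0) (p (nat_lit 0x898a8a09081a) (nat_lit 0) (p (nat_lit 0x109080988879a) (nat_lit 0) (p (nat_lit 0x88878908071a) (nat_lit 0) (p (nat_lit 0x8000080000000080887868a) (nat_lit 0) (p (nat_lit 0x10888070602) (nat_lit 0) (p (nat_lit 0x8807868582) (nat_lit 0) (p (nat_lit 0x10587060502) (nat_lit 0) (p (nat_lit 0x8506858482) (nat_lit 0) (p (nat_lit 0x160004) (nat_lit 0) (p (nat_lit 0x68612) (nat_lit 0) (p (nat_lit 0x50592) (nat_lit 0) (p (nat_lit 0x38512) (nat_lit 0) (p (nat_lit 0x50392) (nat_lit 0) (p (nat_lit 0x38312) (nat_lit 0) (p (nat_lit 0x20292) (nat_lit 0) (p (nat_lit 0x38112) (nat_lit 0) (p (nat_lit 0x20092) (nat_lit 0) (p (nat_lit 0x8012)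 (nat_lit 0) pn)))))))))))))))))))))))) :=
  Cl.node (nat_lit 0x81) (nat_lit 2) (by decide +kernel) (ClAll.succ (ClAll.succ ClAll.zero n100) n101)

def n131 : Cl (O (nat_lit 6)) (R (nat_lit 14465))
    (p (nat_lit 0xc1) (nat_lit 0) (p (nat_lit 0x119) (nat_lit 1) (p (nat_lit 0xd1) (nat_lit 0) (p (nat_lit 0x89) (nat_lit 0) (p (nat_lit 0x41) (nat_lit 0) (p (nat_lit 0x10a0b0a89889a) (nat_lit 0) (p (nat_lit 0x898a8a09081a) (nat_lit 0) (p (nat_lit 0x109080988879a) (nat_lit 0) (p (nat_lit 0x88878908071a) (nat_lit 0) (p (nat_lit 0x8000080000000080887868a) (nat_lit 0) (p (nat_lit 0x10888070602) (nat_lit 0) (p (nat_lit 0x8807868582) (nat_lit 0) (p (nat_lit 0x10587060502) (nat_lit 0) (p (nat_lit 0x8506858482) (nat_lit 0) (p (nat_lit 0x160004) (nat_lit 0) (p (nat_lit 0x68612) (nat_lit 0) (p (nat_lit 0x50592) (nat_lit 0) (p (nat_lit 0x38512) (nat_lit 0) (p (nat_lit 0x50392) (nat_lit 0) (p (nat_lit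 0x38312) (nat_lit 0) (p (nat_lit 0x20292) (nat_lit 0) (p (nat_lit 0x38112) (nat_lit 0) (p (nat_lit 0x20092) (nat_lit 0) (p (nat_lit 0x8012) (nat_lit 0) pn)))))))))))))))))))))))) :=
  Cl.node (nat_lit 0xc9) (nat_lit 2) (by decide +kernel) (ClAll.succ (ClAll.succ ClAll.zero s14) n102)

def n132 : Cl (O (nat_lit 6)) (R (nat_lit 14465))
    (p (nat_lit 0xc1) (nat_lit 1) (p (nat_lit 0x119) (nat_lit 1) (p (nat_lit 0xd1) (nat_lit 0) (p (nat_lit 0x89) (nat_lit 0) (p (nat_lit 0x41) (nat_lit 0) (p (nat_lit 0x10a0b0a89889a) (nat_lit 0) (p (nat_lit 0x898a8a09081a) (nat_lit 0) (p (nat_lit 0x109080988879a) (nat_lit 0) (p (nat_lit 0x88878908071a) (nat_lit 0) (p (nat_lit 0x8000080000000080887868a) (nat_lit 0) (p (nat_lit 0x10888070602) (nat_lit 0) (p (nat_lit 0x8807868582) (nat_lit 0) (p (nat_lit 0x10587060502) (nat_lit 0) (p (nat_lit 0x8506858482) (nat_lit 0) (p (nat_lit 0x160004) (nat_lit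 0) (p (nat_lit 0x68612) (nat_lit 0) (p (nat_lit 0x50592) (nat_lit 0) (p (nat_lit 0x38512) (nat_lit 0) (p (nat_lit 0x50392) (nat_lit 0) (p (nat_lit 0x38312) (nat_lit 0) (p (nat_lit 0x20292) (nat_lit 0) (p (nat_lit 0x38112) (nat_lit 0) (p (nat_lit 0x20092) (nat_lit 0) (p (nat_lit 0x8012) (nat_lit 0) pn)))))))))))))))))))))))) :=
  Cl.node (nat_lit 0x81) (nat_lit 2) (by decide +kernel) (ClAll.succ (ClAll.succ ClAll.zero n103) n104)

def n133 : Cl (O (nat_lit 6)) (R (nat_lit 14465))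
    (p (nat_lit 0x101) (nat_lit 0) (p (nat_lit 0x111) (nat_lit 0) (p (nat_lit 0xd1) (nat_lit 1) (p (nat_lit 0x89) (nat_lit 0) (p (nat_lit 0x41) (nat_lit 0) (p (nat_lit 0x10a0b0a89889a) (nat_lit 0) (p (nat_lit 0x898a8a09081a) (nat_lit 0) (p (nat_lit 0x109080988879a) (nat_lit 0) (p (nat_lit 0x88878908071a) (nat_lit 0) (p (nat_lit 0x8000080000000080887868a) (nat_lit 0) (p (nat_lit 0x10888070602) (nat_lit 0) (p (nat_lit 0x8807868582) (nat_lit 0) (p (nat_lit 0x10587060502) (nat_lit 0) (p (nat_lit 0x8506858482) (nat_lit 0) (p (nat_lit 0x160004) (nat_lit 0) (p (nat_lit 0x68612) (nat_lit 0) (p (nat_lit 0x50592) (nat_lit 0) (p (nat_lit 0x38512) (nat_lit 0) (p (nat_lit 0x50392) (nat_lit 0) (p (nat_lit 0x38312) (nat_lit 0) (p (nat_lit 0x20292) (nat_lit 0) (p (nat_lit 0x38112) (nat_lit 0) (p (nat_lit 0x20092) (nat_lit 0) (p (nat_lit 0x8012) (nat_lit 0) pn)))))))))))))))))))))))) :=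
  Cl.node (nat_lit 0x109) (nat_lit 2) (by decide +kernel) (ClAll.succ (ClAll.succ ClAll.zero s27) n105)

def n134 : Cl (O (nat_lit 6)) (R (nat_lit 14465))
    (p (nat_lit 0x101) (nat_lit 1) (p (nat_lit 0x111) (nat_lit 0) (p (nat_lit 0xd1) (nat_lit 1) (p (nat_lit 0x89) (nat_lit 0) (p (nat_lit 0x41) (nat_lit 0) (p (nat_lit 0x10a0b0a89889a) (nat_lit 0) (p (nat_lit 0x898a8a09081a) (nat_lit 0) (p (nat_lit 0x109080988879a) (nat_lit 0) (p (nat_lit 0x88878908071a) (nat_lit 0) (p (nat_lit 0x8000080000000080887868a) (nat_lit 0) (p (nat_lit 0x10888070602) (nat_lit 0) (p (nat_lit 0x8807868582) (nat_lit 0) (p (nat_lit 0x10587060502) (nat_lit 0) (p (nat_lit 0x8506858482) (nat_lit 0) (p (nat_lit 0x160004) (nat_lit 0) (p (nat_lit 0x68612) (nat_lit 0) (p (nat_lit 0x50592) (nat_lit 0) (p (nat_lit 0x38512) (nat_lit 0) (p (nat_lit 0x50392) (nat_lit 0) (p (nat_lit 0x38312) (nat_lit 0) (p (nat_lit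 0x20292) (nat_lit 0) (p (nat_lit 0x38112) (nat_lit 0) (p (nat_lit 0x20092) (nat_lit 0) (p (nat_lit 0x8012) (nat_lit 0) pn)))))))))))))))))))))))) :=
  Cl.node (nat_lit 0x81) (nat_lit 2) (by decide +kernel) (ClAll.succ (ClAll.succ ClAll.zero n106) n107)

def n135 : Cl (O (nat_lit 6)) (R (nat_lit 14465))
    (p (nat_lit 0x81) (nat_lit 1) (p (nat_lit 0x111) (nat_lit 1) (p (nat_lit 0xd1) (nat_lit 1) (p (nat_lit 0x89) (nat_lit 0) (p (nat_lit 0x41) (nat_lit 0) (p (nat_lit 0x10a0b0a89889a) (nat_lit 0) (p (nat_lit 0x898a8a09081a) (nat_lit 0) (p (nat_lit 0x109080988879a) (nat_lit 0) (p (nat_lit 0x88878908071a) (nat_lit 0) (p (nat_lit 0x8000080000000080887868a) (nat_lit 0) (p (nat_lit 0x10888070602) (nat_lit 0) (p (nat_lit 0x8807868582) (nat_lit 0) (p (nat_lit 0x10587060502) (nat_lit 0) (p (nat_lit 0x8506858482) (nat_lit 0) (p (nat_lit 0x160004) (nat_lit 0) (p (nat_lit 0x68612) (nat_lit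 0) (p (nat_lit 0x50592) (nat_lit 0) (p (nat_lit 0x38512) (nat_lit 0) (p (nat_lit 0x50392) (nat_lit 0) (p (nat_lit 0x38312) (nat_lit 0) (p (nat_lit 0x20292) (nat_lit 0) (p (nat_lit 0x38112) (nat_lit 0) (p (nat_lit 0x20092) (nat_lit 0) (p (nat_lit 0x8012) (nat_lit 0) pn)))))))))))))))))))))))) :=
  Cl.node (nat_lit 0xc1) (nat_lit 2) (by decide +kernel) (ClAll.succ (ClAll.succ ClAll.zero s48) n108)

def n136 : Cl (O (nat_lit 6)) (R (nat_lit 14465))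
    (p (nat_lit 0x101) (nat_lit 0) (p (nat_lit 0x119) (nat_lit 0) (p (nat_lit 0xc9) (nat_lit 0) (p (nat_lit 0x89) (nat_lit 1) (p (nat_lit 0x41) (nat_lit 0) (p (nat_lit 0x10a0b0a89889a) (nat_lit 0) (p (nat_lit 0x898a8a09081a) (nat_lit 0) (p (nat_lit 0x109080988879a) (nat_lit 0) (p (nat_lit 0x88878908071a) (nat_lit 0) (p (nat_lit 0x8000080000000080887868a) (nat_lit 0) (p (nat_lit 0x10888070602) (nat_lit 0) (p (nat_lit 0x8807868582) (nat_lit 0) (p (nat_lit 0x10587060502) (nat_lit 0) (p (nat_lit 0x8506858482) (nat_lit 0) (p (nat_lit 0x160004) (nat_lit 0) (p (nat_lit 0x68612) (nat_lit 0) (p (nat_lit 0x50592) (nat_lit 0) (p (nat_lit 0x38512) (nat_lit 0) (p (nat_lit 0x50392) (nat_lit 0) (p (nat_lit 0x38312) (nat_lit 0) (p (nat_lit 0x20292) (nat_lit 0) (p (nat_lit 0x38112) (nat_lit 0) (p (nat_lit 0x20092) (nat_lit 0) (p (nat_lit 0x8012) (nat_lit 0) pn)))))))))))))))))))))))) :=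
  Cl.node (nat_lit 0x109) (nat_lit 2) (by decide +kernel) (ClAll.succ (ClAll.succ ClAll.zero n109) n110)

def n137 : Cl (O (nat_lit 6)) (R (nat_lit 14465))
    (p (nat_lit 0x101) (nat_lit 1) (p (nat_lit 0x119) (nat_lit 0) (p (nat_lit 0xc9) (nat_lit 0) (p (nat_lit 0x89) (nat_lit 1) (p (nat_lit 0x41) (nat_lit 0) (p (nat_lit 0x10a0b0a89889a) (nat_lit 0) (p (nat_lit 0x898a8a09081a) (nat_lit 0) (p (nat_lit 0x109080988879a) (nat_lit 0) (p (nat_lit 0x88878908071a) (nat_lit 0) (p (nat_lit 0x8000080000000080887868a) (nat_lit 0) (p (nat_lit 0x10888070602) (nat_lit 0) (p (nat_lit 0x8807868582) (nat_lit 0) (p (nat_lit 0x10587060502) (nat_lit 0) (p (nat_lit 0x8506858482) (nat_lit 0) (p (nat_lit 0x160004) (nat_lit 0) (p (nat_lit 0x68612) (nat_lit 0) (p (nat_lit 0x50592) (nat_lit 0) (p (nat_lit 0x38512) (nat_lit 0) (p (nat_lit 0x50392) (nat_lit 0) (p (nat_lit 0x38312) (nat_lit 0) (p (nat_lit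 0x20292) (nat_lit 0) (p (nat_lit 0x38112) (nat_lit 0) (p (nat_lit 0x20092) (nat_lit 0) (p (nat_lit 0x8012) (nat_lit 0) pn)))))))))))))))))))))))) :=
  Cl.node (nat_lit 0xc1) (nat_lit 2) (by decide +kernel) (ClAll.succ (ClAll.succ ClAll.zero n111) s75)

def n138 : Cl (O (nat_lit 6)) (R (nat_lit 14465))
    (p (nat_lit 0xc1) (nat_lit 0) (p (nat_lit 0x119) (nat_lit 1) (p (nat_lit 0xc9) (nat_lit 0) (p (nat_lit 0x89) (nat_lit 1) (p (nat_lit 0x41) (nat_lit 0) (p (nat_lit 0x10a0b0a89889a) (nat_lit 0) (p (nat_lit 0x898a8a09081a) (nat_lit 0) (p (nat_lit 0x109080988879a) (nat_lit 0) (p (nat_lit 0x88878908071a) (nat_lit 0) (p (nat_lit 0x8000080000000080887868a) (nat_lit 0) (p (nat_lit 0x10888070602) (nat_lit 0) (p (nat_lit 0x8807868582) (nat_lit 0) (p (nat_lit 0x10587060502) (nat_lit 0) (p (nat_lit 0x8506858482) (nat_lit 0) (p (nat_lit 0x160004) (nat_lit 0) (p (nat_lit 0x68612) (nat_lit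 0) (p (nat_lit 0x50592) (nat_lit 0) (p (nat_lit 0x38512) (nat_lit 0) (p (nat_lit 0x50392) (nat_lit 0) (p (nat_lit 0x38312) (nat_lit 0) (p (nat_lit 0x20292) (nat_lit 0) (p (nat_lit 0x38112) (nat_lit 0) (p (nat_lit 0x20092) (nat_lit 0) (p (nat_lit 0x8012) (nat_lit 0) pn)))))))))))))))))))))))) :=
  Cl.node (nat_lit 0xd1) (nat_lit 2) (by decide +kernel) (ClAll.succ (ClAll.succ ClAll.zero s76) n112)

def n139 : Cl (O (nat_lit 6)) (R (nat_lit 14465))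
    (p (nat_lit 0xc1) (nat_lit 1) (p (nat_lit 0x119) (nat_lit 1) (p (nat_lit 0xc9) (nat_lit 0) (p (nat_lit 0x89) (nat_lit 1) (p (nat_lit 0x41) (nat_lit 0) (p (nat_lit 0x10a0b0a89889a) (nat_lit 0) (p (nat_lit 0x898a8a09081a) (nat_lit 0) (p (nat_lit 0x109080988879a) (nat_lit 0) (p (nat_lit 0x88878908071a) (nat_lit 0) (p (nat_lit 0x8000080000000080887868a) (nat_lit 0) (p (nat_lit 0x10888070602) (nat_lit 0) (p (nat_lit 0x8807868582) (nat_lit 0) (p (nat_lit 0x10587060502) (nat_lit 0) (p (nat_lit 0x8506858482) (nat_lit 0) (p (nat_lit 0x160004) (nat_lit 0) (p (nat_lit 0x68612) (nat_lit 0) (p (nat_lit 0x50592) (nat_lit 0) (p (nat_lit 0x38512) (nat_lit 0) (p (nat_lit 0x50392) (nat_lit 0) (p (nat_lit 0x38312) (nat_lit 0) (p (nat_lit 0x20292) (nat_lit 0) (p (nat_lit 0x38112) (nat_lit 0) (p (nat_lit 0x20092) (nat_lit 0) (p (nat_lit 0x8012) (nat_lit 0) pn)))))))))))))))))))))))) :=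
  Cl.node (nat_lit 0x101) (nat_lit 2) (by decide +kernel) (ClAll.succ (ClAll.succ ClAll.zero n113) s89)

def n140 : Cl (O (nat_lit 6)) (R (nat_lit 14465))
    (p (nat_lit 0x101) (nat_lit 0) (p (nat_lit 0x109) (nat_lit 0) (p (nat_lit 0xc9) (nat_lit 1) (p (nat_lit 0x89) (nat_lit 1) (p (nat_lit 0x41) (nat_lit 0) (p (nat_lit 0x10a0b0a89889a) (nat_lit 0) (p (nat_lit 0x898a8a09081a) (nat_lit 0) (p (nat_lit 0x109080988879a) (nat_lit 0) (p (nat_lit 0x88878908071a) (nat_lit 0) (p (nat_lit 0x8000080000000080887868a) (nat_lit 0) (p (nat_lit 0x10888070602) (nat_lit 0) (p (nat_lit 0x8807868582) (nat_lit 0) (p (nat_lit 0x10587060502) (nat_lit 0) (p (nat_lit 0x8506858482) (nat_lit 0) (p (nat_lit 0x160004) (nat_lit 0) (p (nat_lit 0x68612) (nat_lit 0) (p (nat_lit 0x50592) (nat_lit 0) (p (nat_lit 0x38512) (nat_lit 0) (p (nat_lit 0x50392) (nat_lit 0) (p (nat_lit 0x38312) (nat_lit 0) (p (nat_lit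 0x20292) (nat_lit 0) (p (nat_lit 0x38112) (nat_lit 0) (p (nat_lit 0x20092) (nat_lit 0) (p (nat_lit 0x8012) (nat_lit 0) pn)))))))))))))))))))))))) :=
  Cl.node (nat_lit 0x111) (nat_lit 2) (by decide +kernel) (ClAll.succ (ClAll.succ ClAll.zero s90) s91)

def n141 : Cl (O (nat_lit 6)) (R (nat_lit 14465))
    (p (nat_lit 0x101) (nat_lit 0) (p (nat_lit 0x119) (nat_lit 0) (p (nat_lit 0xd1) (nat_lit 0) (p (nat_lit 0x81) (nat_lit 0) (p (nat_lit 0x41) (nat_lit 1) (p (nat_lit 0x10a0b0a89889a) (nat_lit 0) (p (nat_lit 0x898a8a09081a) (nat_lit 0) (p (nat_lit 0x109080988879a) (nat_lit 0) (p (nat_lit 0x88878908071a) (nat_lit 0) (p (nat_lit 0x8000080000000080887868a) (nat_lit 0) (p (nat_lit 0x10888070602) (nat_lit 0) (p (nat_lit 0x8807868582) (nat_lit 0) (p (nat_lit 0x10587060502) (nat_lit 0) (p (nat_lit 0x8506858482) (nat_lit 0) (p (nat_lit 0x160004) (nat_lit 0) (p (nat_lit 0x68612) (nat_lit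 0) (p (nat_lit 0x50592) (nat_lit 0) (p (nat_lit 0x38512) (nat_lit 0) (p (nat_lit 0x50392) (nat_lit 0) (p (nat_lit 0x38312) (nat_lit 0) (p (nat_lit 0x20292) (nat_lit 0) (p (nat_lit 0x38112) (nat_lit 0) (p (nat_lit 0x20092) (nat_lit 0) (p (nat_lit 0x8012) (nat_lit 0) pn)))))))))))))))))))))))) :=
  Cl.node (nat_lit 0x109) (nat_lit 2) (by decide +kernel) (ClAll.succ (ClAll.succ ClAll.zero s94) n114)

def n142 : Cl (O (nat_lit 6)) (R (nat_lit 14465))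
    (p (nat_lit 0x101) (nat_lit 1) (p (nat_lit 0x119) (nat_lit 0) (p (nat_lit 0xd1) (nat_lit 0) (p (nat_lit 0x81) (nat_lit 0) (p (nat_lit 0x41) (nat_lit 1) (p (nat_lit 0x10a0b0a89889a) (nat_lit 0) (p (nat_lit 0x898a8a09081a) (nat_lit 0) (p (nat_lit 0x109080988879a) (nat_lit 0) (p (nat_lit 0x88878908071a) (nat_lit 0) (p (nat_lit 0x8000080000000080887868a) (nat_lit 0) (p (nat_lit 0x10888070602) (nat_lit 0) (p (nat_lit 0x8807868582) (nat_lit 0) (p (nat_lit 0x10587060502) (nat_lit 0) (p (nat_lit 0x8506858482) (nat_lit 0) (p (nat_lit 0x160004) (nat_lit 0) (p (nat_lit 0x68612) (nat_lit 0) (p (nat_lit 0x50592) (nat_lit 0) (p (nat_lit 0x38512) (nat_lit 0) (p (nat_lit 0x50392) (nat_lit 0) (p (nat_lit 0x38312) (nat_lit 0) (p (nat_lit 0x20292) (nat_lit 0) (p (nat_lit 0x38112) (nat_lit 0) (p (nat_lit 0x20092) (nat_lit 0) (p (nat_lit 0x8012) (nat_lit 0) pn)))))))))))))))))))))))) :=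
  Cl.node (nat_lit 0xc1) (nat_lit 2) (by decide +kernel) (ClAll.succ (ClAll.succ ClAll.zero n115) n116)

def n143 : Cl (O (nat_lit 6)) (R (nat_lit 14465))
    (p (nat_lit 0xc1) (nat_lit 0) (p (nat_lit 0x119) (nat_lit 1) (p (nat_lit 0xd1) (nat_lit 0) (p (nat_lit 0x81) (nat_lit 0) (p (nat_lit 0x41) (nat_lit 1) (p (nat_lit 0x10a0b0a89889a) (nat_lit 0) (p (nat_lit 0x898a8a09081a) (nat_lit 0) (p (nat_lit 0x109080988879a) (nat_lit 0) (p (nat_lit 0x88878908071a) (nat_lit 0) (p (nat_lit 0x8000080000000080887868a) (nat_lit 0) (p (nat_lit 0x10888070602) (nat_lit 0) (p (nat_lit 0x8807868582) (nat_lit 0) (p (nat_lit 0x10587060502) (nat_lit 0) (p (nat_lit 0x8506858482) (nat_lit 0) (p (nat_lit 0x160004) (nat_lit 0) (p (nat_lit 0x68612) (nat_lit 0) (p (nat_lit 0x50592) (nat_lit 0) (p (nat_lit 0x38512) (nat_lit 0) (p (nat_lit 0x50392) (nat_lit 0) (p (nat_lit 0x38312) (nat_lit 0) (p (nat_lit 0x20292)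 (nat_lit 0) (p (nat_lit 0x38112) (nat_lit 0) (p (nat_lit 0x20092) (nat_lit 0) (p (nat_lit 0x8012) (nat_lit 0) pn)))))))))))))))))))))))) :=
  Cl.node (nat_lit 0xc9) (nat_lit 2) (by decide +kernel) (ClAll.succ (ClAll.succ ClAll.zero s111) n117)

def n144 : Cl (O (nat_lit 6)) (R (nat_lit 14465))
    (p (nat_lit 0xc1) (nat_lit 1) (p (nat_lit 0x119) (nat_lit 1) (p (nat_lit 0xd1) (nat_lit 0) (p (nat_lit 0x81) (nat_lit 0) (p (nat_lit 0x41) (nat_lit 1) (p (nat_lit 0x10a0b0a89889a) (nat_lit 0) (p (nat_lit 0x898a8a09081a) (nat_lit 0) (p (nat_lit 0x109080988879a) (nat_lit 0) (p (nat_lit 0x88878908071a) (nat_lit 0) (p (nat_lit 0x8000080000000080887868a) (nat_lit 0) (p (nat_lit 0x10888070602) (nat_lit 0) (p (nat_lit 0x8807868582) (nat_lit 0) (p (nat_lit 0x10587060502) (nat_lit 0) (p (nat_lit 0x8506858482) (nat_lit 0) (p (nat_lit 0x160004) (nat_lit 0) (p (nat_lit 0x68612) (nat_lit 0) (p (nat_lit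 0x50592) (nat_lit 0) (p (nat_lit 0x38512) (nat_lit 0) (p (nat_lit 0x50392) (nat_lit 0) (p (nat_lit 0x38312) (nat_lit 0) (p (nat_lit 0x20292) (nat_lit 0) (p (nat_lit 0x38112) (nat_lit 0) (p (nat_lit 0x20092) (nat_lit 0) (p (nat_lit 0x8012) (nat_lit 0) pn)))))))))))))))))))))))) :=
  Cl.node (nat_lit 0x101) (nat_lit 2) (by decide +kernel) (ClAll.succ (ClAll.succ ClAll.zero n118) n119)

def n145 : Cl (O (nat_lit 6)) (R (nat_lit 14465))
    (p (nat_lit 0x101) (nat_lit 0) (p (nat_lit 0x111) (nat_lit 0) (p (nat_lit 0xd1) (nat_lit 1) (p (nat_lit 0x81) (nat_lit 0) (p (nat_lit 0x41) (nat_lit 1) (p (nat_lit 0x10a0b0a89889a) (nat_lit 0) (p (nat_lit 0x898a8a09081a) (nat_lit 0) (p (nat_lit 0x109080988879a) (nat_lit 0) (p (nat_lit 0x88878908071a) (nat_lit 0) (p (nat_lit 0x8000080000000080887868a) (nat_lit 0) (p (nat_lit 0x10888070602) (nat_lit 0) (p (nat_lit 0x8807868582) (nat_lit 0) (p (nat_lit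 0x10587060502) (nat_lit 0) (p (nat_lit 0x8506858482) (nat_lit 0) (p (nat_lit 0x160004) (nat_lit 0) (p (nat_lit 0x68612) (nat_lit 0) (p (nat_lit 0x50592) (nat_lit 0) (p (nat_lit 0x38512) (nat_lit 0) (p (nat_lit 0x50392) (nat_lit 0) (p (nat_lit 0x38312) (nat_lit 0) (p (nat_lit 0x20292) (nat_lit 0) (p (nat_lit 0x38112) (nat_lit 0) (p (nat_lit 0x20092) (nat_lit 0) (p (nat_lit 0x8012) (nat_lit 0) pn)))))))))))))))))))))))) :=
  Cl.node (nat_lit 0x109) (nat_lit 2) (by decide +kernel) (ClAll.succ (ClAll.succ ClAll.zero s130) n120)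

def n146 : Cl (O (nat_lit 6)) (R (nat_lit 14465))
    (p (nat_lit 0x101) (nat_lit 1) (p (nat_lit 0x111) (nat_lit 0) (p (nat_lit 0xd1) (nat_lit 1) (p (nat_lit 0x81) (nat_lit 0) (p (nat_lit 0x41) (nat_lit 1) (p (nat_lit 0x10a0b0a89889a) (nat_lit 0) (p (nat_lit 0x898a8a09081a) (nat_lit 0) (p (nat_lit 0x109080988879a) (nat_lit 0) (p (nat_lit 0x88878908071a) (nat_lit 0) (p (nat_lit 0x8000080000000080887868a) (nat_lit 0) (p (nat_lit 0x10888070602) (nat_lit 0) (p (nat_lit 0x8807868582) (nat_lit 0) (p (nat_lit 0x10587060502) (nat_lit 0) (p (nat_lit 0x8506858482) (nat_lit 0) (p (nat_lit 0x160004) (nat_lit 0) (p (nat_lit 0x68612) (nat_lit 0) (p (nat_lit 0x50592) (nat_lit 0) (p (nat_lit 0x38512) (nat_lit 0) (p (nat_lit 0x50392) (nat_lit 0) (p (nat_lit 0x38312) (nat_lit 0) (p (nat_lit 0x20292) (nat_lit 0) (p (nat_lit 0x38112) (nat_lit 0) (p (nat_lit 0x20092) (nat_lit 0) (p (nat_lit 0x8012)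 (nat_lit 0) pn)))))))))))))))))))))))) :=
  Cl.node (nat_lit 0x89) (nat_lit 2) (by decide +kernel) (ClAll.succ (ClAll.succ ClAll.zero n121) n122)

def n147 : Cl (O (nat_lit 6)) (R (nat_lit 14465))
    (p (nat_lit 0x89) (nat_lit 1) (p (nat_lit 0x111) (nat_lit 1) (p (nat_lit 0xd1) (nat_lit 1) (p (nat_lit 0x81) (nat_lit 0) (p (nat_lit 0x41) (nat_lit 1) (p (nat_lit 0x10a0b0a89889a) (nat_lit 0) (p (nat_lit 0x898a8a09081a) (nat_lit 0) (p (nat_lit 0x109080988879a) (nat_lit 0) (p (nat_lit 0x88878908071a) (nat_lit 0) (p (nat_lit 0x8000080000000080887868a) (nat_lit 0) (p (nat_lit 0x10888070602) (nat_lit 0) (p (nat_lit 0x8807868582) (nat_lit 0) (p (nat_lit 0x10587060502) (nat_lit 0) (p (nat_lit 0x8506858482) (nat_lit 0) (p (nat_lit 0x160004) (nat_lit 0) (p (nat_lit 0x68612) (nat_lit 0) (p (nat_lit 0x50592) (nat_lit 0) (p (nat_lit 0x38512) (nat_lit 0) (p (nat_lit 0x50392) (nat_lit 0) (p (nat_lit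 0x38312) (nat_lit 0) (p (nat_lit 0x20292) (nat_lit 0) (p (nat_lit 0x38112) (nat_lit 0) (p (nat_lit 0x20092) (nat_lit 0) (p (nat_lit 0x8012) (nat_lit 0) pn)))))))))))))))))))))))) :=
  Cl.node (nat_lit 0xc9) (nat_lit 2) (by decide +kernel) (ClAll.succ (ClAll.succ ClAll.zero s148) n123)

def n148 : Cl (O (nat_lit 6)) (R (nat_lit 14465))
    (p (nat_lit 0x101) (nat_lit 0) (p (nat_lit 0x119) (nat_lit 0) (p (nat_lit 0xc1) (nat_lit 0) (p (nat_lit 0x81) (nat_lit 1) (p (nat_lit 0x41) (nat_lit 1) (p (nat_lit 0x10a0b0a89889a) (nat_lit 0) (p (nat_lit 0x898a8a09081a) (nat_lit 0) (p (nat_lit 0x109080988879a) (nat_lit 0) (p (nat_lit 0x88878908071a) (nat_lit 0) (p (nat_lit 0x8000080000000080887868a) (nat_lit 0) (p (nat_lit 0x10888070602) (nat_lit 0) (p (nat_lit 0x8807868582) (nat_lit 0) (p (nat_lit 0x10587060502) (nat_lit 0) (p (nat_lit 0x8506858482) (nat_lit 0) (p (nat_lit 0x160004) (nat_lit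 0) (p (nat_lit 0x68612) (nat_lit 0) (p (nat_lit 0x50592) (nat_lit 0) (p (nat_lit 0x38512) (nat_lit 0) (p (nat_lit 0x50392) (nat_lit 0) (p (nat_lit 0x38312) (nat_lit 0) (p (nat_lit 0x20292) (nat_lit 0) (p (nat_lit 0x38112) (nat_lit 0) (p (nat_lit 0x20092) (nat_lit 0) (p (nat_lit 0x8012) (nat_lit 0) pn)))))))))))))))))))))))) :=
  Cl.node (nat_lit 0x109) (nat_lit 2) (by decide +kernel) (ClAll.succ (ClAll.succ ClAll.zero n124) n125)

def n149 : Cl (O (nat_lit 6)) (R (nat_lit 14465))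
    (p (nat_lit 0x101) (nat_lit 1) (p (nat_lit 0x119) (nat_lit 0) (p (nat_lit 0xc1) (nat_lit 0) (p (nat_lit 0x81) (nat_lit 1) (p (nat_lit 0x41) (nat_lit 1) (p (nat_lit 0x10a0b0a89889a) (nat_lit 0) (p (nat_lit 0x898a8a09081a) (nat_lit 0) (p (nat_lit 0x109080988879a) (nat_lit 0) (p (nat_lit 0x88878908071a) (nat_lit 0) (p (nat_lit 0x8000080000000080887868a) (nat_lit 0) (p (nat_lit 0x10888070602) (nat_lit 0) (p (nat_lit 0x8807868582) (nat_lit 0) (p (nat_lit 0x10587060502) (nat_lit 0) (p (nat_lit 0x8506858482) (nat_lit 0) (p (nat_lit 0x160004) (nat_lit 0) (p (nat_lit 0x68612) (nat_lit 0) (p (nat_lit 0x50592) (nat_lit 0) (p (nat_lit 0x38512) (nat_lit 0) (p (nat_lit 0x50392) (nat_lit 0) (p (nat_lit 0x38312) (nat_lit 0) (p (nat_lit 0x20292) (nat_lit 0) (p (nat_lit 0x38112) (nat_lit 0) (p (nat_lit 0x20092) (nat_lit 0) (p (nat_lit 0x8012) (nat_lit 0) pn)))))))))))))))))))))))) :=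
  Cl.node (nat_lit 0xc9) (nat_lit 2) (by decide +kernel) (ClAll.succ (ClAll.succ ClAll.zero n126) s168)

def n150 : Cl (O (nat_lit 6)) (R (nat_lit 14465))
    (p (nat_lit 0xc9) (nat_lit 0) (p (nat_lit 0x119) (nat_lit 1) (p (nat_lit 0xc1) (nat_lit 0) (p (nat_lit 0x81) (nat_lit 1) (p (nat_lit 0x41) (nat_lit 1) (p (nat_lit 0x10a0b0a89889a) (nat_lit 0) (p (nat_lit 0x898a8a09081a) (nat_lit 0) (p (nat_lit 0x109080988879a) (nat_lit 0) (p (nat_lit 0x88878908071a) (nat_lit 0) (p (nat_lit 0x8000080000000080887868a) (nat_lit 0) (p (nat_lit 0x10888070602) (nat_lit 0) (p (nat_lit 0x8807868582) (nat_lit 0) (p (nat_lit 0x10587060502) (nat_lit 0) (p (nat_lit 0x8506858482) (nat_lit 0) (p (nat_lit 0x160004) (nat_lit 0) (p (nat_lit 0x68612) (nat_lit 0) (p (nat_lit 0x50592) (nat_lit 0) (p (nat_lit 0x38512) (nat_lit 0) (p (nat_lit 0x50392) (nat_lit 0) (p (nat_lit 0x38312) (nat_lit 0) (p (nat_lit 0x20292)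 (nat_lit 0) (p (nat_lit 0x38112) (nat_lit 0) (p (nat_lit 0x20092) (nat_lit 0) (p (nat_lit 0x8012) (nat_lit 0) pn)))))))))))))))))))))))) :=
  Cl.node (nat_lit 0xd1) (nat_lit 2) (by decide +kernel) (ClAll.succ (ClAll.succ ClAll.zero s169) n127)

def n151 : Cl (O (nat_lit 6)) (R (nat_lit 14465))
    (p (nat_lit 0xc9) (nat_lit 1) (p (nat_lit 0x119) (nat_lit 1) (p (nat_lit 0xc1) (nat_lit 0) (p (nat_lit 0x81) (nat_lit 1) (p (nat_lit 0x41) (nat_lit 1) (p (nat_lit 0x10a0b0a89889a) (nat_lit 0) (p (nat_lit 0x898a8a09081a) (nat_lit 0) (p (nat_lit 0x109080988879a) (nat_lit 0) (p (nat_lit 0x88878908071a) (nat_lit 0) (p (nat_lit 0x8000080000000080887868a) (nat_lit 0) (p (nat_lit 0x10888070602) (nat_lit 0) (p (nat_lit 0x8807868582) (nat_lit 0) (p (nat_lit 0x10587060502) (nat_lit 0) (p (nat_lit 0x8506858482) (nat_lit 0) (p (nat_lit 0x160004) (nat_lit 0) (p (nat_lit 0x68612) (nat_lit 0) (p (nat_lit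 0x50592) (nat_lit 0) (p (nat_lit 0x38512) (nat_lit 0) (p (nat_lit 0x50392) (nat_lit 0) (p (nat_lit 0x38312) (nat_lit 0) (p (nat_lit 0x20292) (nat_lit 0) (p (nat_lit 0x38112) (nat_lit 0) (p (nat_lit 0x20092) (nat_lit 0) (p (nat_lit 0x8012) (nat_lit 0) pn)))))))))))))))))))))))) :=
  Cl.node (nat_lit 0x109) (nat_lit 2) (by decide +kernel) (ClAll.succ (ClAll.succ ClAll.zero n128) s178)

def n152 : Cl (O (nat_lit 6)) (R (nat_lit 14465))
    (p (nat_lit 0x109) (nat_lit 0) (p (nat_lit 0x101) (nat_lit 0) (p (nat_lit 0xc1) (nat_lit 1) (p (nat_lit 0x81) (nat_lit 1) (p (nat_lit 0x41) (nat_lit 1) (p (nat_lit 0x10a0b0a89889a) (nat_lit 0) (p (nat_lit 0x898a8a09081a) (nat_lit 0) (p (nat_lit 0x109080988879a) (nat_lit 0) (p (nat_lit 0x88878908071a) (nat_lit 0) (p (nat_lit 0x8000080000000080887868a) (nat_lit 0) (p (nat_lit 0x10888070602) (nat_lit 0) (p (nat_lit 0x8807868582) (nat_lit 0) (p (nat_lit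 0x10587060502) (nat_lit 0) (p (nat_lit 0x8506858482) (nat_lit 0) (p (nat_lit 0x160004) (nat_lit 0) (p (nat_lit 0x68612) (nat_lit 0) (p (nat_lit 0x50592) (nat_lit 0) (p (nat_lit 0x38512) (nat_lit 0) (p (nat_lit 0x50392) (nat_lit 0) (p (nat_lit 0x38312) (nat_lit 0) (p (nat_lit 0x20292) (nat_lit 0) (p (nat_lit 0x38112) (nat_lit 0) (p (nat_lit 0x20092) (nat_lit 0) (p (nat_lit 0x8012) (nat_lit 0) pn)))))))))))))))))))))))) :=
  Cl.node (nat_lit 0x111) (nat_lit 2) (by decide +kernel) (ClAll.succ (ClAll.succ ClAll.zero s179) s180)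

def n153 : Cl (O (nat_lit 6)) (R (nat_lit 14465))
    (p (nat_lit 0x119) (nat_lit 0) (p (nat_lit 0xd1) (nat_lit 0) (p (nat_lit 0x89) (nat_lit 0) (p (nat_lit 0x41) (nat_lit 0) (p (nat_lit 0x10a0b0a89889a) (nat_lit 0) (p (nat_lit 0x898a8a09081a) (nat_lit 0) (p (nat_lit 0x109080988879a) (nat_lit 0) (p (nat_lit 0x88878908071a) (nat_lit 0) (p (nat_lit 0x8000080000000080887868a) (nat_lit 0) (p (nat_lit 0x10888070602) (nat_lit 0) (p (nat_lit 0x8807868582) (nat_lit 0) (p (nat_lit 0x10587060502) (nat_lit 0) (p (nat_lit 0x8506858482) (nat_lit 0) (p (nat_lit 0x160004) (nat_lit 0) (p (nat_lit 0x68612) (nat_lit 0) (p (nat_lit 0x50592) (nat_lit 0) (p (nat_lit 0x38512) (nat_lit 0) (p (nat_lit 0x50392) (nat_lit 0) (p (nat_lit 0x38312) (nat_lit 0) (p (nat_lit 0x20292) (nat_lit 0) (p (nat_lit 0x38112) (nat_lit 0) (p (nat_lit 0x20092) (nat_lit 0) (p (nat_lit 0x8012) (nat_lit 0) pn)))))))))))))))))))))))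 :=
  Cl.node (nat_lit 0x101) (nat_lit 2) (by decide +kernel) (ClAll.succ (ClAll.succ ClAll.zero n129) n130)

def n154 : Cl (O (nat_lit 6)) (R (nat_lit 14465))
    (p (nat_lit 0x119) (nat_lit 1) (p (nat_lit 0xd1) (nat_lit 0) (p (nat_lit 0x89) (nat_lit 0) (p (nat_lit 0x41) (nat_lit 0) (p (nat_lit 0x10a0b0a89889a) (nat_lit 0) (p (nat_lit 0x898a8a09081a) (nat_lit 0) (p (nat_lit 0x109080988879a) (nat_lit 0) (p (nat_lit 0x88878908071a) (nat_lit 0) (p (nat_lit 0x8000080000000080887868a) (nat_lit 0) (p (nat_lit 0x10888070602) (nat_lit 0) (p (nat_lit 0x8807868582) (nat_lit 0) (p (nat_lit 0x10587060502) (nat_lit 0) (p (nat_lit 0x8506858482) (nat_lit 0) (p (nat_lit 0x160004) (nat_lit 0) (p (nat_lit 0x68612) (nat_lit 0) (p (nat_lit 0x50592) (nat_lit 0) (p (nat_lit 0x38512) (nat_lit 0) (p (nat_lit 0x50392) (nat_lit 0) (p (nat_lit 0x38312) (nat_lit 0) (p (nat_lit 0x20292) (nat_lit 0) (p (nat_lit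 0x38112) (nat_lit 0) (p (nat_lit 0x20092) (nat_lit 0) (p (nat_lit 0x8012) (nat_lit 0) pn))))))))))))))))))))))) :=
  Cl.node (nat_lit 0xc1) (nat_lit 2) (by decide +kernel) (ClAll.succ (ClAll.succ ClAll.zero n131) n132)

def n155 : Cl (O (nat_lit 6)) (R (nat_lit 14465))
    (p (nat_lit 0x111) (nat_lit 0) (p (nat_lit 0xd1) (nat_lit 1) (p (nat_lit 0x89) (nat_lit 0) (p (nat_lit 0x41) (nat_lit 0) (p (nat_lit 0x10a0b0a89889a) (nat_lit 0) (p (nat_lit 0x898a8a09081a) (nat_lit 0) (p (nat_lit 0x109080988879a) (nat_lit 0) (p (nat_lit 0x88878908071a) (nat_lit 0) (p (nat_lit 0x8000080000000080887868a) (nat_lit 0) (p (nat_lit 0x10888070602) (nat_lit 0) (p (nat_lit 0x8807868582) (nat_lit 0) (p (nat_lit 0x10587060502) (nat_lit 0) (p (nat_lit 0x8506858482) (nat_lit 0) (p (nat_lit 0x160004) (nat_lit 0) (p (nat_lit 0x68612) (nat_lit 0) (p (nat_lit 0x50592) (nat_lit 0) (p (nat_lit 0x38512) (nat_lit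 0) (p (nat_lit 0x50392) (nat_lit 0) (p (nat_lit 0x38312) (nat_lit 0) (p (nat_lit 0x20292) (nat_lit 0) (p (nat_lit 0x38112) (nat_lit 0) (p (nat_lit 0x20092) (nat_lit 0) (p (nat_lit 0x8012) (nat_lit 0) pn))))))))))))))))))))))) :=
  Cl.node (nat_lit 0x101) (nat_lit 2) (by decide +kernel) (ClAll.succ (ClAll.succ ClAll.zero n133) n134)

def n156 : Cl (O (nat_lit 6)) (R (nat_lit 14465))
    (p (nat_lit 0x111) (nat_lit 1) (p (nat_lit 0xd1) (nat_lit 1) (p (nat_lit 0x89) (nat_lit 0) (p (nat_lit 0x41) (nat_lit 0) (p (nat_lit 0x10a0b0a89889a) (nat_lit 0) (p (nat_lit 0x898a8a09081a) (nat_lit 0) (p (nat_lit 0x109080988879a) (nat_lit 0) (p (nat_lit 0x88878908071a) (nat_lit 0) (p (nat_lit 0x8000080000000080887868a) (nat_lit 0) (p (nat_lit 0x10888070602) (nat_lit 0) (p (nat_lit 0x8807868582) (nat_lit 0) (p (nat_lit 0x10587060502) (nat_lit 0) (p (nat_lit 0x8506858482) (nat_lit 0) (p (nat_lit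 0x160004) (nat_lit 0) (p (nat_lit 0x68612) (nat_lit 0) (p (nat_lit 0x50592) (nat_lit 0) (p (nat_lit 0x38512) (nat_lit 0) (p (nat_lit 0x50392) (nat_lit 0) (p (nat_lit 0x38312) (nat_lit 0) (p (nat_lit 0x20292) (nat_lit 0) (p (nat_lit 0x38112) (nat_lit 0) (p (nat_lit 0x20092) (nat_lit 0) (p (nat_lit 0x8012) (nat_lit 0) pn))))))))))))))))))))))) :=
  Cl.node (nat_lit 0x81) (nat_lit 2) (by decide +kernel) (ClAll.succ (ClAll.succ ClAll.zero s47) n135)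

def n157 : Cl (O (nat_lit 6)) (R (nat_lit 14465))
    (p (nat_lit 0x119) (nat_lit 0) (p (nat_lit 0xc9) (nat_lit 0) (p (nat_lit 0x89) (nat_lit 1) (p (nat_lit 0x41) (nat_lit 0) (p (nat_lit 0x10a0b0a89889a) (nat_lit 0) (p (nat_lit 0x898a8a09081a) (nat_lit 0) (p (nat_lit 0x109080988879a) (nat_lit 0) (p (nat_lit 0x88878908071a) (nat_lit 0) (p (nat_lit 0x8000080000000080887868a) (nat_lit 0) (p (nat_lit 0x10888070602) (nat_lit 0) (p (nat_lit 0x8807868582) (nat_lit 0) (p (nat_lit 0x10587060502) (nat_lit 0) (p (nat_lit 0x8506858482) (nat_lit 0) (p (nat_lit 0x160004) (nat_lit 0) (p (nat_lit 0x68612) (nat_lit 0) (p (nat_lit 0x50592) (nat_lit 0) (p (nat_lit 0x38512) (nat_lit 0) (p (nat_lit 0x50392) (nat_lit 0) (p (nat_lit 0x38312) (nat_lit 0) (p (nat_lit 0x20292) (nat_lit 0) (p (nat_lit 0x38112) (nat_lit 0) (p (nat_lit 0x20092) (nat_lit 0) (p (nat_lit 0x8012) (nat_lit 0) pn)))))))))))))))))))))))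 :=
  Cl.node (nat_lit 0x101) (nat_lit 2) (by decide +kernel) (ClAll.succ (ClAll.succ ClAll.zero n136) n137)

def n158 : Cl (O (nat_lit 6)) (R (nat_lit 14465))
    (p (nat_lit 0x119) (nat_lit 1) (p (nat_lit 0xc9) (nat_lit 0) (p (nat_lit 0x89) (nat_lit 1) (p (nat_lit 0x41) (nat_lit 0) (p (nat_lit 0x10a0b0a89889a) (nat_lit 0) (p (nat_lit 0x898a8a09081a) (nat_lit 0) (p (nat_lit 0x109080988879a) (nat_lit 0) (p (nat_lit 0x88878908071a) (nat_lit 0) (p (nat_lit 0x8000080000000080887868a) (nat_lit 0) (p (nat_lit 0x10888070602) (nat_lit 0) (p (nat_lit 0x8807868582) (nat_lit 0) (p (nat_lit 0x10587060502) (nat_lit 0) (p (nat_lit 0x8506858482) (nat_lit 0) (p (nat_lit 0x160004) (nat_lit 0) (p (nat_lit 0x68612) (nat_lit 0) (p (nat_lit 0x50592) (nat_lit 0) (p (nat_lit 0x38512) (nat_lit 0) (p (nat_lit 0x50392) (nat_lit 0) (p (nat_lit 0x38312) (nat_lit 0) (p (nat_lit 0x20292) (nat_lit 0) (p (nat_lit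 0x38112) (nat_lit 0) (p (nat_lit 0x20092) (nat_lit 0) (p (nat_lit 0x8012) (nat_lit 0) pn))))))))))))))))))))))) :=
  Cl.node (nat_lit 0xc1) (nat_lit 2) (by decide +kernel) (ClAll.succ (ClAll.succ ClAll.zero n138) n139)

def n159 : Cl (O (nat_lit 6)) (R (nat_lit 14465))
    (p (nat_lit 0x109) (nat_lit 0) (p (nat_lit 0xc9) (nat_lit 1) (p (nat_lit 0x89) (nat_lit 1) (p (nat_lit 0x41) (nat_lit 0) (p (nat_lit 0x10a0b0a89889a) (nat_lit 0) (p (nat_lit 0x898a8a09081a) (nat_lit 0) (p (nat_lit 0x109080988879a) (nat_lit 0) (p (nat_lit 0x88878908071a) (nat_lit 0) (p (nat_lit 0x8000080000000080887868a) (nat_lit 0) (p (nat_lit 0x10888070602) (nat_lit 0) (p (nat_lit 0x8807868582) (nat_lit 0) (p (nat_lit 0x10587060502) (nat_lit 0) (p (nat_lit 0x8506858482) (nat_lit 0) (p (nat_lit 0x160004) (nat_lit 0) (p (nat_lit 0x68612) (nat_lit 0) (p (nat_lit 0x50592) (nat_lit 0) (p (nat_lit 0x38512) (nat_lit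 0) (p (nat_lit 0x50392) (nat_lit 0) (p (nat_lit 0x38312) (nat_lit 0) (p (nat_lit 0x20292) (nat_lit 0) (p (nat_lit 0x38112) (nat_lit 0) (p (nat_lit 0x20092) (nat_lit 0) (p (nat_lit 0x8012) (nat_lit 0) pn))))))))))))))))))))))) :=
  Cl.node (nat_lit 0x101) (nat_lit 2) (by decide +kernel) (ClAll.succ (ClAll.succ ClAll.zero n140) s92)

def n160 : Cl (O (nat_lit 6)) (R (nat_lit 14465))
    (p (nat_lit 0x119) (nat_lit 0) (p (nat_lit 0xd1) (nat_lit 0) (p (nat_lit 0x81) (nat_lit 0) (p (nat_lit 0x41) (nat_lit 1) (p (nat_lit 0x10a0b0a89889a) (nat_lit 0) (p (nat_lit 0x898a8a09081a) (nat_lit 0) (p (nat_lit 0x109080988879a) (nat_lit 0) (p (nat_lit 0x88878908071a) (nat_lit 0) (p (nat_lit 0x8000080000000080887868a) (nat_lit 0) (p (nat_lit 0x10888070602) (nat_lit 0) (p (nat_lit 0x8807868582) (nat_lit 0) (p (nat_lit 0x10587060502) (nat_lit 0) (p (nat_lit 0x8506858482) (nat_lit 0) (p (nat_lit 0x160004)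 (nat_lit 0) (p (nat_lit 0x68612) (nat_lit 0) (p (nat_lit 0x50592) (nat_lit 0) (p (nat_lit 0x38512) (nat_lit 0) (p (nat_lit 0x50392) (nat_lit 0) (p (nat_lit 0x38312) (nat_lit 0) (p (nat_lit 0x20292) (nat_lit 0) (p (nat_lit 0x38112) (nat_lit 0) (p (nat_lit 0x20092) (nat_lit 0) (p (nat_lit 0x8012) (nat_lit 0) pn))))))))))))))))))))))) :=
  Cl.node (nat_lit 0x101) (nat_lit 2) (by decide +kernel) (ClAll.succ (ClAll.succ ClAll.zero n141) n142)

def n161 : Cl (O (nat_lit 6)) (R (nat_lit 14465))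
    (p (nat_lit 0x119) (nat_lit 1) (p (nat_lit 0xd1) (nat_lit 0) (p (nat_lit 0x81) (nat_lit 0) (p (nat_lit 0x41) (nat_lit 1) (p (nat_lit 0x10a0b0a89889a) (nat_lit 0) (p (nat_lit 0x898a8a09081a) (nat_lit 0) (p (nat_lit 0x109080988879a) (nat_lit 0) (p (nat_lit 0x88878908071a) (nat_lit 0) (p (nat_lit 0x8000080000000080887868a) (nat_lit 0) (p (nat_lit 0x10888070602) (nat_lit 0) (p (nat_lit 0x8807868582) (nat_lit 0) (p (nat_lit 0x10587060502) (nat_lit 0) (p (nat_lit 0x8506858482) (nat_lit 0) (p (nat_lit 0x160004) (nat_lit 0) (p (nat_lit 0x68612) (nat_lit 0) (p (nat_lit 0x50592) (nat_lit 0) (p (nat_lit 0x38512) (nat_lit 0) (p (nat_lit 0x50392) (nat_lit 0) (p (nat_lit 0x38312) (nat_lit 0) (p (nat_lit 0x20292) (nat_lit 0) (p (nat_lit 0x38112) (nat_lit 0) (p (nat_lit 0x20092) (nat_lit 0) (p (nat_lit 0x8012) (nat_lit 0) pn))))))))))))))))))))))) :=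
  Cl.node (nat_lit 0xc1) (nat_lit 2) (by decide +kernel) (ClAll.succ (ClAll.succ ClAll.zero n143) n144)

def n162 : Cl (O (nat_lit 6)) (R (nat_lit 14465))
    (p (nat_lit 0x111) (nat_lit 0) (p (nat_lit 0xd1) (nat_lit 1) (p (nat_lit 0x81) (nat_lit 0) (p (nat_lit 0x41) (nat_lit 1) (p (nat_lit 0x10a0b0a89889a) (nat_lit 0) (p (nat_lit 0x898a8a09081a) (nat_lit 0) (p (nat_lit 0x109080988879a) (nat_lit 0) (p (nat_lit 0x88878908071a) (nat_lit 0) (p (nat_lit 0x8000080000000080887868a) (nat_lit 0) (p (nat_lit 0x10888070602) (nat_lit 0) (p (nat_lit 0x8807868582) (nat_lit 0) (p (nat_lit 0x10587060502) (nat_lit 0) (p (nat_lit 0x8506858482) (nat_lit 0) (p (nat_lit 0x160004) (nat_lit 0) (p (nat_lit 0x68612) (nat_lit 0) (p (nat_lit 0x50592) (nat_lit 0) (p (nat_lit 0x38512) (nat_lit 0) (p (nat_lit 0x50392) (nat_lit 0) (p (nat_lit 0x38312) (nat_lit 0) (p (nat_lit 0x20292) (nat_lit 0) (p (nat_lit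 0x38112) (nat_lit 0) (p (nat_lit 0x20092) (nat_lit 0) (p (nat_lit 0x8012) (nat_lit 0) pn))))))))))))))))))))))) :=
  Cl.node (nat_lit 0x101) (nat_lit 2) (by decide +kernel) (ClAll.succ (ClAll.succ ClAll.zero n145) n146)

def n163 : Cl (O (nat_lit 6)) (R (nat_lit 14465))
    (p (nat_lit 0x111) (nat_lit 1) (p (nat_lit 0xd1) (nat_lit 1) (p (nat_lit 0x81) (nat_lit 0) (p (nat_lit 0x41) (nat_lit 1) (p (nat_lit 0x10a0b0a89889a) (nat_lit 0) (p (nat_lit 0x898a8a09081a) (nat_lit 0) (p (nat_lit 0x109080988879a) (nat_lit 0) (p (nat_lit 0x88878908071a) (nat_lit 0) (p (nat_lit 0x8000080000000080887868a) (nat_lit 0) (p (nat_lit 0x10888070602) (nat_lit 0) (p (nat_lit 0x8807868582) (nat_lit 0) (p (nat_lit 0x10587060502) (nat_lit 0) (p (nat_lit 0x8506858482) (nat_lit 0) (p (nat_lit 0x160004) (nat_lit 0) (p (nat_lit 0x68612) (nat_lit 0) (p (nat_lit 0x50592) (nat_lit 0) (p (nat_lit 0x38512) (nat_lit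 0) (p (nat_lit 0x50392) (nat_lit 0) (p (nat_lit 0x38312) (nat_lit 0) (p (nat_lit 0x20292) (nat_lit 0) (p (nat_lit 0x38112) (nat_lit 0) (p (nat_lit 0x20092) (nat_lit 0) (p (nat_lit 0x8012) (nat_lit 0) pn))))))))))))))))))))))) :=
  Cl.node (nat_lit 0x89) (nat_lit 2) (by decide +kernel) (ClAll.succ (ClAll.succ ClAll.zero s147) n147)

def n164 : Cl (O (nat_lit 6)) (R (nat_lit 14465))
    (p (nat_lit 0x119) (nat_lit 0) (p (nat_lit 0xc1) (nat_lit 0) (p (nat_lit 0x81) (nat_lit 1) (p (nat_lit 0x41) (nat_lit 1) (p (nat_lit 0x10a0b0a89889a) (nat_lit 0) (p (nat_lit 0x898a8a09081a) (nat_lit 0) (p (nat_lit 0x109080988879a) (nat_lit 0) (p (nat_lit 0x88878908071a) (nat_lit 0) (p (nat_lit 0x8000080000000080887868a) (nat_lit 0) (p (nat_lit 0x10888070602) (nat_lit 0) (p (nat_lit 0x8807868582) (nat_lit 0) (p (nat_lit 0x10587060502) (nat_lit 0) (p (nat_lit 0x8506858482) (nat_lit 0) (p (nat_lit 0x160004)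 (nat_lit 0) (p (nat_lit 0x68612) (nat_lit 0) (p (nat_lit 0x50592) (nat_lit 0) (p (nat_lit 0x38512) (nat_lit 0) (p (nat_lit 0x50392) (nat_lit 0) (p (nat_lit 0x38312) (nat_lit 0) (p (nat_lit 0x20292) (nat_lit 0) (p (nat_lit 0x38112) (nat_lit 0) (p (nat_lit 0x20092) (nat_lit 0) (p (nat_lit 0x8012) (nat_lit 0) pn))))))))))))))))))))))) :=
  Cl.node (nat_lit 0x101) (nat_lit 2) (by decide +kernel) (ClAll.succ (ClAll.succ ClAll.zero n148) n149)

def n165 : Cl (O (nat_lit 6)) (R (nat_lit 14465))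
    (p (nat_lit 0x119) (nat_lit 1) (p (nat_lit 0xc1) (nat_lit 0) (p (nat_lit 0x81) (nat_lit 1) (p (nat_lit 0x41) (nat_lit 1) (p (nat_lit 0x10a0b0a89889a) (nat_lit 0) (p (nat_lit 0x898a8a09081a) (nat_lit 0) (p (nat_lit 0x109080988879a) (nat_lit 0) (p (nat_lit 0x88878908071a) (nat_lit 0) (p (nat_lit 0x8000080000000080887868a) (nat_lit 0) (p (nat_lit 0x10888070602) (nat_lit 0) (p (nat_lit 0x8807868582) (nat_lit 0) (p (nat_lit 0x10587060502) (nat_lit 0) (p (nat_lit 0x8506858482) (nat_lit 0) (p (nat_lit 0x160004) (nat_lit 0) (p (nat_lit 0x68612) (nat_lit 0) (p (nat_lit 0x50592) (nat_lit 0) (p (nat_lit 0x38512) (nat_lit 0) (p (nat_lit 0x50392) (nat_lit 0) (p (nat_lit 0x38312) (nat_lit 0) (p (nat_lit 0x20292) (nat_lit 0) (p (nat_lit 0x38112) (nat_lit 0) (p (nat_lit 0x20092) (nat_lit 0) (p (nat_lit 0x8012) (nat_lit 0) pn))))))))))))))))))))))) :=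
  Cl.node (nat_lit 0xc9) (nat_lit 2) (by decide +kernel) (ClAll.succ (ClAll.succ ClAll.zero n150) n151)

def n166 : Cl (O (nat_lit 6)) (R (nat_lit 14465))
    (p (nat_lit 0x101) (nat_lit 0) (p (nat_lit 0xc1) (nat_lit 1) (p (nat_lit 0x81) (nat_lit 1) (p (nat_lit 0x41) (nat_lit 1) (p (nat_lit 0x10a0b0a89889a) (nat_lit 0) (p (nat_lit 0x898a8a09081a) (nat_lit 0) (p (nat_lit 0x109080988879a) (nat_lit 0) (p (nat_lit 0x88878908071a) (nat_lit 0) (p (nat_lit 0x8000080000000080887868a) (nat_lit 0) (p (nat_lit 0x10888070602) (nat_lit 0) (p (nat_lit 0x8807868582) (nat_lit 0) (p (nat_lit 0x10587060502) (nat_lit 0) (p (nat_lit 0x8506858482) (nat_lit 0) (p (nat_lit 0x160004) (nat_lit 0) (p (nat_lit 0x68612) (nat_lit 0) (p (nat_lit 0x50592) (nat_lit 0) (p (nat_lit 0x38512) (nat_lit 0) (p (nat_lit 0x50392) (nat_lit 0) (p (nat_lit 0x38312) (nat_lit 0) (p (nat_lit 0x20292) (nat_lit 0) (p (nat_lit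 0x38112) (nat_lit 0) (p (nat_lit 0x20092) (nat_lit 0) (p (nat_lit 0x8012) (nat_lit 0) pn))))))))))))))))))))))) :=
  Cl.node (nat_lit 0x109) (nat_lit 2) (by decide +kernel) (ClAll.succ (ClAll.succ ClAll.zero n152) s181)

def n167 : Cl (O (nat_lit 6)) (R (nat_lit 14465))
    (p (nat_lit 0xd1) (nat_lit 0) (p (nat_lit 0x89) (nat_lit 0) (p (nat_lit 0x41) (nat_lit 0) (p (nat_lit 0x10a0b0a89889a) (nat_lit 0) (p (nat_lit 0x898a8a09081a) (nat_lit 0) (p (nat_lit 0x109080988879a) (nat_lit 0) (p (nat_lit 0x88878908071a) (nat_lit 0) (p (nat_lit 0x8000080000000080887868a) (nat_lit 0) (p (nat_lit 0x10888070602) (nat_lit 0) (p (nat_lit 0x8807868582) (nat_lit 0) (p (nat_lit 0x10587060502) (nat_lit 0) (p (nat_lit 0x8506858482) (nat_lit 0) (p (nat_lit 0x160004) (nat_lit 0) (p (nat_lit 0x68612) (nat_lit 0) (p (nat_lit 0x50592) (nat_lit 0) (p (nat_lit 0x38512) (nat_lit 0) (p (nat_lit 0x50392) (nat_lit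 0) (p (nat_lit 0x38312) (nat_lit 0) (p (nat_lit 0x20292) (nat_lit 0) (p (nat_lit 0x38112) (nat_lit 0) (p (nat_lit 0x20092) (nat_lit 0) (p (nat_lit 0x8012) (nat_lit 0) pn)))))))))))))))))))))) :=
  Cl.node (nat_lit 0x119) (nat_lit 2) (by decide +kernel) (ClAll.succ (ClAll.succ ClAll.zero n153) n154)

def n168 : Cl (O (nat_lit 6)) (R (nat_lit 14465))
    (p (nat_lit 0xd1) (nat_lit 1) (p (nat_lit 0x89) (nat_lit 0) (p (nat_lit 0x41) (nat_lit 0) (p (nat_lit 0x10a0b0a89889a) (nat_lit 0) (p (nat_lit 0x898a8a09081a) (nat_lit 0) (p (nat_lit 0x109080988879a) (nat_lit 0) (p (nat_lit 0x88878908071a) (nat_lit 0) (p (nat_lit 0x8000080000000080887868a) (nat_lit 0) (p (nat_lit 0x10888070602) (nat_lit 0) (p (nat_lit 0x8807868582) (nat_lit 0) (p (nat_lit 0x10587060502) (nat_lit 0) (p (nat_lit 0x8506858482) (nat_lit 0) (p (nat_lit 0x160004) (nat_lit 0) (p (nat_lit 0x68612) (nat_lit 0) (p (nat_lit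 0x50592) (nat_lit 0) (p (nat_lit 0x38512) (nat_lit 0) (p (nat_lit 0x50392) (nat_lit 0) (p (nat_lit 0x38312) (nat_lit 0) (p (nat_lit 0x20292) (nat_lit 0) (p (nat_lit 0x38112) (nat_lit 0) (p (nat_lit 0x20092) (nat_lit 0) (p (nat_lit 0x8012) (nat_lit 0) pn)))))))))))))))))))))) :=
  Cl.node (nat_lit 0x111) (nat_lit 2) (by decide +kernel) (ClAll.succ (ClAll.succ ClAll.zero n155) n156)

def n169 : Cl (O (nat_lit 6)) (R (nat_lit 14465))
    (p (nat_lit 0xc9) (nat_lit 0) (p (nat_lit 0x89) (nat_lit 1) (p (nat_lit 0x41) (nat_lit 0) (p (nat_lit 0x10a0b0a89889a) (nat_lit 0) (p (nat_lit 0x898a8a09081a) (nat_lit 0) (p (nat_lit 0x109080988879a) (nat_lit 0) (p (nat_lit 0x88878908071a) (nat_lit 0) (p (nat_lit 0x8000080000000080887868a) (nat_lit 0) (p (nat_lit 0x10888070602) (nat_lit 0) (p (nat_lit 0x8807868582) (nat_lit 0) (p (nat_lit 0x10587060502) (nat_lit 0) (p (nat_lit 0x8506858482) (nat_lit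 0) (p (nat_lit 0x160004) (nat_lit 0) (p (nat_lit 0x68612) (nat_lit 0) (p (nat_lit 0x50592) (nat_lit 0) (p (nat_lit 0x38512) (nat_lit 0) (p (nat_lit 0x50392) (nat_lit 0) (p (nat_lit 0x38312) (nat_lit 0) (p (nat_lit 0x20292) (nat_lit 0) (p (nat_lit 0x38112) (nat_lit 0) (p (nat_lit 0x20092) (nat_lit 0) (p (nat_lit 0x8012) (nat_lit 0) pn)))))))))))))))))))))) :=
  Cl.node (nat_lit 0x119) (nat_lit 2) (by decide +kernel) (ClAll.succ (ClAll.succ ClAll.zero n157) n158)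

def n170 : Cl (O (nat_lit 6)) (R (nat_lit 14465))
    (p (nat_lit 0xc9) (nat_lit 1) (p (nat_lit 0x89) (nat_lit 1) (p (nat_lit 0x41) (nat_lit 0) (p (nat_lit 0x10a0b0a89889a) (nat_lit 0) (p (nat_lit 0x898a8a09081a) (nat_lit 0) (p (nat_lit 0x109080988879a) (nat_lit 0) (p (nat_lit 0x88878908071a) (nat_lit 0) (p (nat_lit 0x8000080000000080887868a) (nat_lit 0) (p (nat_lit 0x10888070602) (nat_lit 0) (p (nat_lit 0x8807868582) (nat_lit 0) (p (nat_lit 0x10587060502) (nat_lit 0) (p (nat_lit 0x8506858482) (nat_lit 0) (p (nat_lit 0x160004) (nat_lit 0) (p (nat_lit 0x68612) (nat_lit 0) (p (nat_lit 0x50592) (nat_lit 0) (p (nat_lit 0x38512) (nat_lit 0) (p (nat_lit 0x50392) (nat_lit 0) (p (nat_lit 0x38312) (nat_lit 0) (p (nat_lit 0x20292) (nat_lit 0) (p (nat_lit 0x38112) (nat_lit 0) (p (nat_lit 0x20092) (nat_lit 0) (p (nat_lit 0x8012) (nat_lit 0) pn)))))))))))))))))))))) :=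
  Cl.node (nat_lit 0x109) (nat_lit 2) (by decide +kernel) (ClAll.succ (ClAll.succ ClAll.zero n159) s93)

def n171 : Cl (O (nat_lit 6)) (R (nat_lit 14465))
    (p (nat_lit 0xd1) (nat_lit 0) (p (nat_lit 0x81) (nat_lit 0) (p (nat_lit 0x41) (nat_lit 1) (p (nat_lit 0x10a0b0a89889a) (nat_lit 0) (p (nat_lit 0x898a8a09081a) (nat_lit 0) (p (nat_lit 0x109080988879a) (nat_lit 0) (p (nat_lit 0x88878908071a) (nat_lit 0) (p (nat_lit 0x8000080000000080887868a) (nat_lit 0) (p (nat_lit 0x10888070602) (nat_lit 0) (p (nat_lit 0x8807868582) (nat_lit 0) (p (nat_lit 0x10587060502) (nat_lit 0) (p (nat_lit 0x8506858482) (nat_lit 0) (p (nat_lit 0x160004) (nat_lit 0) (p (nat_lit 0x68612) (nat_lit 0) (p (nat_lit 0x50592) (nat_lit 0) (p (nat_lit 0x38512) (nat_lit 0) (p (nat_lit 0x50392) (nat_lit 0) (p (nat_lit 0x38312) (nat_lit 0) (p (nat_lit 0x20292) (nat_lit 0) (p (nat_lit 0x38112) (nat_lit 0) (p (nat_lit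 0x20092) (nat_lit 0) (p (nat_lit 0x8012) (nat_lit 0) pn)))))))))))))))))))))) :=
  Cl.node (nat_lit 0x119) (nat_lit 2) (by decide +kernel) (ClAll.succ (ClAll.succ ClAll.zero n160) n161)

def n172 : Cl (O (nat_lit 6)) (R (nat_lit 14465))
    (p (nat_lit 0xd1) (nat_lit 1) (p (nat_lit 0x81) (nat_lit 0) (p (nat_lit 0x41) (nat_lit 1) (p (nat_lit 0x10a0b0a89889a) (nat_lit 0) (p (nat_lit 0x898a8a09081a) (nat_lit 0) (p (nat_lit 0x109080988879a) (nat_lit 0) (p (nat_lit 0x88878908071a) (nat_lit 0) (p (nat_lit 0x8000080000000080887868a) (nat_lit 0) (p (nat_lit 0x10888070602) (nat_lit 0) (p (nat_lit 0x8807868582) (nat_lit 0) (p (nat_lit 0x10587060502) (nat_lit 0) (p (nat_lit 0x8506858482) (nat_lit 0) (p (nat_lit 0x160004) (nat_lit 0) (p (nat_lit 0x68612) (nat_lit 0) (p (nat_lit 0x50592) (nat_lit 0) (p (nat_lit 0x38512) (nat_lit 0) (p (nat_lit 0x50392) (nat_lit 0) (p (nat_lit 0x38312) (nat_lit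 0) (p (nat_lit 0x20292) (nat_lit 0) (p (nat_lit 0x38112) (nat_lit 0) (p (nat_lit 0x20092) (nat_lit 0) (p (nat_lit 0x8012) (nat_lit 0) pn)))))))))))))))))))))) :=
  Cl.node (nat_lit 0x111) (nat_lit 2) (by decide +kernel) (ClAll.succ (ClAll.succ ClAll.zero n162) n163)

def n173 : Cl (O (nat_lit 6)) (R (nat_lit 14465))
    (p (nat_lit 0xc1) (nat_lit 0) (p (nat_lit 0x81) (nat_lit 1) (p (nat_lit 0x41) (nat_lit 1) (p (nat_lit 0x10a0b0a89889a) (nat_lit 0) (p (nat_lit 0x898a8a09081a) (nat_lit 0) (p (nat_lit 0x109080988879a) (nat_lit 0) (p (nat_lit 0x88878908071a) (nat_lit 0) (p (nat_lit 0x8000080000000080887868a) (nat_lit 0) (p (nat_lit 0x10888070602) (nat_lit 0) (p (nat_lit 0x8807868582) (nat_lit 0) (p (nat_lit 0x10587060502) (nat_lit 0) (p (nat_lit 0x8506858482) (nat_lit 0) (p (nat_lit 0x160004) (nat_lit 0) (p (nat_lit 0x68612) (nat_lit 0) (p (nat_lit 0x50592) (nat_lit 0) (p (nat_lit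 0x38512) (nat_lit 0) (p (nat_lit 0x50392) (nat_lit 0) (p (nat_lit 0x38312) (nat_lit 0) (p (nat_lit 0x20292) (nat_lit 0) (p (nat_lit 0x38112) (nat_lit 0) (p (nat_lit 0x20092) (nat_lit 0) (p (nat_lit 0x8012) (nat_lit 0) pn)))))))))))))))))))))) :=
  Cl.node (nat_lit 0x119) (nat_lit 2) (by decide +kernel) (ClAll.succ (ClAll.succ ClAll.zero n164) n165)

def n174 : Cl (O (nat_lit 6)) (R (nat_lit 14465))
    (p (nat_lit 0xc1) (nat_lit 1) (p (nat_lit 0x81) (nat_lit 1) (p (nat_lit 0x41) (nat_lit 1) (p (nat_lit 0x10a0b0a89889a) (nat_lit 0) (p (nat_lit 0x898a8a09081a) (nat_lit 0) (p (nat_lit 0x109080988879a) (nat_lit 0) (p (nat_lit 0x88878908071a) (nat_lit 0) (p (nat_lit 0x8000080000000080887868a) (nat_lit 0) (p (nat_lit 0x10888070602) (nat_lit 0) (p (nat_lit 0x8807868582) (nat_lit 0) (p (nat_lit 0x10587060502) (nat_lit 0) (p (nat_lit 0x8506858482) (nat_lit 0) (p (nat_lit 0x160004) (nat_lit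 0) (p (nat_lit 0x68612) (nat_lit 0) (p (nat_lit 0x50592) (nat_lit 0) (p (nat_lit 0x38512) (nat_lit 0) (p (nat_lit 0x50392) (nat_lit 0) (p (nat_lit 0x38312) (nat_lit 0) (p (nat_lit 0x20292) (nat_lit 0) (p (nat_lit 0x38112) (nat_lit 0) (p (nat_lit 0x20092) (nat_lit 0) (p (nat_lit 0x8012) (nat_lit 0) pn)))))))))))))))))))))) :=
  Cl.node (nat_lit 0x101) (nat_lit 2) (by decide +kernel) (ClAll.succ (ClAll.succ ClAll.zero n166) s182)

def n175 : Cl (O (nat_lit 6)) (R (nat_lit 14465))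
    (p (nat_lit 0x89) (nat_lit 0) (p (nat_lit 0x41) (nat_lit 0) (p (nat_lit 0x10a0b0a89889a) (nat_lit 0) (p (nat_lit 0x898a8a09081a) (nat_lit 0) (p (nat_lit 0x109080988879a) (nat_lit 0) (p (nat_lit 0x88878908071a) (nat_lit 0) (p (nat_lit 0x8000080000000080887868a) (nat_lit 0) (p (nat_lit 0x10888070602) (nat_lit 0) (p (nat_lit 0x8807868582) (nat_lit 0) (p (nat_lit 0x10587060502) (nat_lit 0) (p (nat_lit 0x8506858482) (nat_lit 0) (p (nat_lit 0x160004) (nat_lit 0) (p (nat_lit 0x68612) (nat_lit 0) (p (nat_lit 0x50592) (nat_lit 0) (p (nat_lit 0x38512) (nat_lit 0) (p (nat_lit 0x50392) (nat_lit 0) (p (nat_lit 0x38312) (nat_lit 0) (p (nat_lit 0x20292) (nat_lit 0) (p (nat_lit 0x38112) (nat_lit 0) (p (nat_lit 0x20092) (nat_lit 0) (p (nat_lit 0x8012) (nat_lit 0) pn))))))))))))))))))))) :=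
  Cl.node (nat_lit 0xd1) (nat_lit 2) (by decide +kernel) (ClAll.succ (ClAll.succ ClAll.zero n167) n168)

def n176 : Cl (O (nat_lit 6)) (R (nat_lit 14465))
    (p (nat_lit 0x89) (nat_lit 1) (p (nat_lit 0x41) (nat_lit 0) (p (nat_lit 0x10a0b0a89889a) (nat_lit 0) (p (nat_lit 0x898a8a09081a) (nat_lit 0) (p (nat_lit 0x109080988879a) (nat_lit 0) (p (nat_lit 0x88878908071a) (nat_lit 0) (p (nat_lit 0x8000080000000080887868a) (nat_lit 0) (p (nat_lit 0x10888070602) (nat_lit 0) (p (nat_lit 0x8807868582) (nat_lit 0) (p (nat_lit 0x10587060502) (nat_lit 0) (p (nat_lit 0x8506858482) (nat_lit 0) (p (nat_lit 0x160004) (nat_lit 0) (p (nat_lit 0x68612) (nat_lit 0) (p (nat_lit 0x50592) (nat_lit 0) (p (nat_lit 0x38512) (nat_lit 0) (p (nat_lit 0x50392) (nat_lit 0) (p (nat_lit 0x38312) (nat_lit 0) (p (nat_lit 0x20292) (nat_lit 0) (p (nat_lit 0x38112) (nat_lit 0) (p (nat_lit 0x20092) (nat_lit 0) (p (nat_lit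 0x8012) (nat_lit 0) pn))))))))))))))))))))) :=
  Cl.node (nat_lit 0xc9) (nat_lit 2) (by decide +kernel) (ClAll.succ (ClAll.succ ClAll.zero n169) n170)

def n177 : Cl (O (nat_lit 6)) (R (nat_lit 14465))
    (p (nat_lit 0x81) (nat_lit 0) (p (nat_lit 0x41) (nat_lit 1) (p (nat_lit 0x10a0b0a89889a) (nat_lit 0) (p (nat_lit 0x898a8a09081a) (nat_lit 0) (p (nat_lit 0x109080988879a) (nat_lit 0) (p (nat_lit 0x88878908071a) (nat_lit 0) (p (nat_lit 0x8000080000000080887868a) (nat_lit 0) (p (nat_lit 0x10888070602) (nat_lit 0) (p (nat_lit 0x8807868582) (nat_lit 0) (p (nat_lit 0x10587060502) (nat_lit 0) (p (nat_lit 0x8506858482) (nat_lit 0) (p (nat_lit 0x160004) (nat_lit 0) (p (nat_lit 0x68612) (nat_lit 0) (p (nat_lit 0x50592) (nat_lit 0) (p (nat_lit 0x38512) (nat_lit 0) (p (nat_lit 0x50392) (nat_lit 0) (p (nat_lit 0x38312) (nat_lit 0) (p (nat_lit 0x20292) (nat_lit 0) (p (nat_lit 0x38112) (nat_lit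 0) (p (nat_lit 0x20092) (nat_lit 0) (p (nat_lit 0x8012) (nat_lit 0) pn))))))))))))))))))))) :=
  Cl.node (nat_lit 0xd1) (nat_lit 2) (by decide +kernel) (ClAll.succ (ClAll.succ ClAll.zero n171) n172)

def n178 : Cl (O (nat_lit 6)) (R (nat_lit 14465))
    (p (nat_lit 0x81) (nat_lit 1) (p (nat_lit 0x41) (nat_lit 1) (p (nat_lit 0x10a0b0a89889a) (nat_lit 0) (p (nat_lit 0x898a8a09081a) (nat_lit 0) (p (nat_lit 0x109080988879a) (nat_lit 0) (p (nat_lit 0x88878908071a) (nat_lit 0) (p (nat_lit 0x8000080000000080887868a) (nat_lit 0) (p (nat_lit 0x10888070602) (nat_lit 0) (p (nat_lit 0x8807868582) (nat_lit 0) (p (nat_lit 0x10587060502) (nat_lit 0) (p (nat_lit 0x8506858482) (nat_lit 0) (p (nat_lit 0x160004) (nat_lit 0) (p (nat_lit 0x68612) (nat_lit 0) (p (nat_lit 0x50592) (nat_lit 0) (p (nat_lit 0x38512) (nat_lit 0) (p (nat_lit 0x50392) (nat_lit 0) (p (nat_lit 0x38312) (nat_lit 0) (p (nat_lit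 0x20292) (nat_lit 0) (p (nat_lit 0x38112) (nat_lit 0) (p (nat_lit 0x20092) (nat_lit 0) (p (nat_lit 0x8012) (nat_lit 0) pn))))))))))))))))))))) :=
  Cl.node (nat_lit 0xc1) (nat_lit 2) (by decide +kernel) (ClAll.succ (ClAll.succ ClAll.zero n173) n174)

def n179 : Cl (O (nat_lit 6)) (R (nat_lit 14465))
    (p (nat_lit 0x41) (nat_lit 0) (p (nat_lit 0x10a0b0a89889a) (nat_lit 0) (p (nat_lit 0x898a8a09081a) (nat_lit 0) (p (nat_lit 0x109080988879a) (nat_lit 0) (p (nat_lit 0x88878908071a) (nat_lit 0) (p (nat_lit 0x8000080000000080887868a) (nat_lit 0) (p (nat_lit 0x10888070602) (nat_lit 0) (p (nat_lit 0x8807868582) (nat_lit 0) (p (nat_lit 0x10587060502) (nat_lit 0) (p (nat_lit 0x8506858482) (nat_lit 0) (p (nat_lit 0x160004) (nat_lit 0) (p (nat_lit 0x68612) (nat_lit 0) (p (nat_lit 0x50592) (nat_lit 0) (p (nat_lit 0x38512) (nat_lit 0) (p (nat_lit 0x50392) (nat_lit 0) (p (nat_lit 0x38312)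 (nat_lit 0) (p (nat_lit 0x20292) (nat_lit 0) (p (nat_lit 0x38112) (nat_lit 0) (p (nat_lit 0x20092) (nat_lit 0) (p (nat_lit 0x8012) (nat_lit 0) pn)))))))))))))))))))) :=
  Cl.node (nat_lit 0x89) (nat_lit 2) (by decide +kernel) (ClAll.succ (ClAll.succ ClAll.zero n175) n176)

def n180 : Cl (O (nat_lit 6)) (R (nat_lit 14465))
    (p (nat_lit 0x41) (nat_lit 1) (p (nat_lit 0x10a0b0a89889a) (nat_lit 0) (p (nat_lit 0x898a8a09081a) (nat_lit 0) (p (nat_lit 0x109080988879a) (nat_lit 0) (p (nat_lit 0x88878908071a) (nat_lit 0) (p (nat_lit 0x8000080000000080887868a) (nat_lit 0) (p (nat_lit 0x10888070602) (nat_lit 0) (p (nat_lit 0x8807868582) (nat_lit 0) (p (nat_lit 0x10587060502) (nat_lit 0) (p (nat_lit 0x8506858482) (nat_lit 0) (p (nat_lit 0x160004) (nat_lit 0) (p (nat_lit 0x68612) (nat_lit 0) (p (nat_lit 0x50592) (nat_lit 0) (p (nat_lit 0x38512) (nat_lit 0) (p (nat_lit 0x50392) (nat_lit 0)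 (p (nat_lit 0x38312) (nat_lit 0) (p (nat_lit 0x20292) (nat_lit 0) (p (nat_lit 0x38112) (nat_lit 0) (p (nat_lit 0x20092) (nat_lit 0) (p (nat_lit 0x8012) (nat_lit 0) pn)))))))))))))))))))) :=
  Cl.node (nat_lit 0x81) (nat_lit 2) (by decide +kernel) (ClAll.succ (ClAll.succ ClAll.zero n177) n178)

def n181 : Cl (O (nat_lit 6)) (R (nat_lit 14465))
    (p (nat_lit 0x10a0b0a89889a) (nat_lit 0) (p (nat_lit 0x898a8a09081a) (nat_lit 0) (p (nat_lit 0x109080988879a) (nat_lit 0) (p (nat_lit 0x88878908071a) (nat_lit 0) (p (nat_lit 0x8000080000000080887868a) (nat_lit 0) (p (nat_lit 0x10888070602) (nat_lit 0) (p (nat_lit 0x8807868582) (nat_lit 0) (p (nat_lit 0x10587060502) (nat_lit 0) (p (nat_lit 0x8506858482) (nat_lit 0) (p (nat_lit 0x160004) (nat_lit 0) (p (nat_lit 0x68612) (nat_lit 0) (p (nat_lit 0x50592) (nat_lit 0) (p (nat_lit 0x38512) (nat_lit 0) (p (nat_lit 0x50392) (nat_lit 0) (p (nat_lit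 0x38312) (nat_lit 0) (p (nat_lit 0x20292) (nat_lit 0) (p (nat_lit 0x38112) (nat_lit 0) (p (nat_lit 0x20092) (nat_lit 0) (p (nat_lit 0x8012) (nat_lit 0) pn))))))))))))))))))) :=
  Cl.node (nat_lit 0x41) (nat_lit 2) (by decide +kernel) (ClAll.succ (ClAll.succ ClAll.zero n179) n180)

def n182 : Cl (O (nat_lit 6)) (R (nat_lit 14465))
    (p (nat_lit 0x898a8a09081a) (nat_lit 0) (p (nat_lit 0x109080988879a) (nat_lit 0) (p (nat_lit 0x88878908071a) (nat_lit 0) (p (nat_lit 0x8000080000000080887868a) (nat_lit 0) (p (nat_lit 0x10888070602) (nat_lit 0) (p (nat_lit 0x8807868582) (nat_lit 0) (p (nat_lit 0x10587060502) (nat_lit 0) (p (nat_lit 0x8506858482) (nat_lit 0) (p (nat_lit 0x160004) (nat_lit 0) (p (nat_lit 0x68612) (nat_lit 0) (p (nat_lit 0x50592) (nat_lit 0) (p (nat_lit 0x38512) (nat_lit 0) (p (nat_lit 0x50392) (nat_lit 0) (p (nat_lit 0x38312) (nat_lit 0) (p (nat_lit 0x20292) (nat_lit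 0) (p (nat_lit 0x38112) (nat_lit 0) (p (nat_lit 0x20092) (nat_lit 0) (p (nat_lit 0x8012) (nat_lit 0) pn)))))))))))))))))) :=
  Cl.node (nat_lit 0x10a0b0a89889a) (nat_lit 1) (by decide +kernel) (ClAll.succ ClAll.zero n181)

def n183 : Cl (O (nat_lit 6)) (R (nat_lit 14465))
    (p (nat_lit 0x109080988879a) (nat_lit 0) (p (nat_lit 0x88878908071a) (nat_lit 0) (p (nat_lit 0x8000080000000080887868a) (nat_lit 0) (p (nat_lit 0x10888070602) (nat_lit 0) (p (nat_lit 0x8807868582) (nat_lit 0) (p (nat_lit 0x10587060502) (nat_lit 0) (p (nat_lit 0x8506858482) (nat_lit 0) (p (nat_lit 0x160004) (nat_lit 0) (p (nat_lit 0x68612) (nat_lit 0) (p (nat_lit 0x50592) (nat_lit 0) (p (nat_lit 0x38512) (nat_lit 0) (p (nat_lit 0x50392) (nat_lit 0) (p (nat_lit 0x38312) (nat_lit 0) (p (nat_lit 0x20292) (nat_lit 0) (p (nat_lit 0x38112) (nat_lit 0) (p (nat_lit 0x20092) (nat_lit 0) (p (nat_lit 0x8012) (nat_lit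 0) pn))))))))))))))))) :=
  Cl.node (nat_lit 0x898a8a09081a) (nat_lit 1) (by decide +kernel) (ClAll.succ ClAll.zero n182)

def n184 : Cl (O (nat_lit 6)) (R (nat_lit 14465))
    (p (nat_lit 0x88878908071a) (nat_lit 0) (p (nat_lit 0x8000080000000080887868a) (nat_lit 0) (p (nat_lit 0x10888070602) (nat_lit 0) (p (nat_lit 0x8807868582) (nat_lit 0) (p (nat_lit 0x10587060502) (nat_lit 0) (p (nat_lit 0x8506858482) (nat_lit 0) (p (nat_lit 0x160004) (nat_lit 0) (p (nat_lit 0x68612) (nat_lit 0) (p (nat_lit 0x50592) (nat_lit 0) (p (nat_lit 0x38512) (nat_lit 0) (p (nat_lit 0x50392) (nat_lit 0) (p (nat_lit 0x38312) (nat_lit 0) (p (nat_lit 0x20292) (nat_lit 0) (p (nat_lit 0x38112) (nat_lit 0) (p (nat_lit 0x20092) (nat_lit 0) (p (nat_lit 0x8012) (nat_lit 0) pn)))))))))))))))) :=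
  Cl.node (nat_lit 0x109080988879a) (nat_lit 1) (by decide +kernel) (ClAll.succ ClAll.zero n183)

def n185 : Cl (O (nat_lit 6)) (R (nat_lit 14465))
    (p (nat_lit 0x8000080000000080887868a) (nat_lit 0) (p (nat_lit 0x10888070602) (nat_lit 0) (p (nat_lit 0x8807868582) (nat_lit 0) (p (nat_lit 0x10587060502) (nat_lit 0) (p (nat_lit 0x8506858482) (nat_lit 0) (p (nat_lit 0x160004) (nat_lit 0) (p (nat_lit 0x68612) (nat_lit 0) (p (nat_lit 0x50592) (nat_lit 0) (p (nat_lit 0x38512) (nat_lit 0) (p (nat_lit 0x50392) (nat_lit 0) (p (nat_lit 0x38312) (nat_lit 0) (p (nat_lit 0x20292) (nat_lit 0) (p (nat_lit 0x38112) (nat_lit 0) (p (nat_lit 0x20092) (nat_lit 0) (p (nat_lit 0x8012) (nat_lit 0) pn))))))))))))))) :=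
  Cl.node (nat_lit 0x88878908071a) (nat_lit 1) (by decide +kernel) (ClAll.succ ClAll.zero n184)

def n186 : Cl (O (nat_lit 6)) (R (nat_lit 14465))
    (p (nat_lit 0x10888070602) (nat_lit 0) (p (nat_lit 0x8807868582) (nat_lit 0) (p (nat_lit 0x10587060502) (nat_lit 0) (p (nat_lit 0x8506858482) (nat_lit 0) (p (nat_lit 0x160004) (nat_lit 0) (p (nat_lit 0x68612) (nat_lit 0) (p (nat_lit 0x50592) (nat_lit 0) (p (nat_lit 0x38512) (nat_lit 0) (p (nat_lit 0x50392) (nat_lit 0) (p (nat_lit 0x38312) (nat_lit 0) (p (nat_lit 0x20292) (nat_lit 0) (p (nat_lit 0x38112) (nat_lit 0) (p (nat_lit 0x20092) (nat_lit 0) (p (nat_lit 0x8012) (nat_lit 0) pn)))))))))))))) :=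
  Cl.node (nat_lit 0x8000080000000080887868a) (nat_lit 1) (by decide +kernel) (ClAll.succ ClAll.zero n185)

def n187 : Cl (O (nat_lit 6)) (R (nat_lit 14465))
    (p (nat_lit 0x8807868582) (nat_lit 0) (p (nat_lit 0x10587060502) (nat_lit 0) (p (nat_lit 0x8506858482) (nat_lit 0) (p (nat_lit 0x160004) (nat_lit 0) (p (nat_lit 0x68612) (nat_lit 0) (p (nat_lit 0x50592) (nat_lit 0) (p (nat_lit 0x38512) (nat_lit 0) (p (nat_lit 0x50392) (nat_lit 0) (p (nat_lit 0x38312) (nat_lit 0) (p (nat_lit 0x20292) (nat_lit 0) (p (nat_lit 0x38112) (nat_lit 0) (p (nat_lit 0x20092) (nat_lit 0) (p (nat_lit 0x8012) (nat_lit 0) pn))))))))))))) :=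
  Cl.node (nat_lit 0x10888070602) (nat_lit 1) (by decide +kernel) (ClAll.succ ClAll.zero n186)

def n188 : Cl (O (nat_lit 6)) (R (nat_lit 14465))
    (p (nat_lit 0x10587060502) (nat_lit 0) (p (nat_lit 0x8506858482) (nat_lit 0) (p (nat_lit 0x160004) (nat_lit 0) (p (nat_lit 0x68612) (nat_lit 0) (p (nat_lit 0x50592) (nat_lit 0) (p (nat_lit 0x38512) (nat_lit 0) (p (nat_lit 0x50392) (nat_lit 0) (p (nat_lit 0x38312) (nat_lit 0) (p (nat_lit 0x20292) (nat_lit 0) (p (nat_lit 0x38112) (nat_lit 0) (p (nat_lit 0x20092) (nat_lit 0) (p (nat_lit 0x8012) (nat_lit 0) pn)))))))))))) :=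
  Cl.node (nat_lit 0x8807868582) (nat_lit 1) (by decide +kernel) (ClAll.succ ClAll.zero n187)

def n189 : Cl (O (nat_lit 6)) (R (nat_lit 14465))
    (p (nat_lit 0x8506858482) (nat_lit 0) (p (nat_lit 0x160004) (nat_lit 0) (p (nat_lit 0x68612) (nat_lit 0) (p (nat_lit 0x50592) (nat_lit 0) (p (nat_lit 0x38512) (nat_lit 0) (p (nat_lit 0x50392) (nat_lit 0) (p (nat_lit 0x38312) (nat_lit 0) (p (nat_lit 0x20292) (nat_lit 0) (p (nat_lit 0x38112) (nat_lit 0) (p (nat_lit 0x20092) (nat_lit 0) (p (nat_lit 0x8012) (nat_lit 0) pn))))))))))) :=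
  Cl.node (nat_lit 0x10587060502) (nat_lit 1) (by decide +kernel) (ClAll.succ ClAll.zero n188)

def n190 : Cl (O (nat_lit 6)) (R (nat_lit 14465))
    (p (nat_lit 0x160004) (nat_lit 0) (p (nat_lit 0x68612) (nat_lit 0) (p (nat_lit 0x50592) (nat_lit 0) (p (nat_lit 0x38512) (nat_lit 0) (p (nat_lit 0x50392) (nat_lit 0) (p (nat_lit 0x38312) (nat_lit 0) (p (nat_lit 0x20292) (nat_lit 0) (p (nat_lit 0x38112) (nat_lit 0) (p (nat_lit 0x20092) (nat_lit 0) (p (nat_lit 0x8012) (nat_lit 0) pn)))))))))) :=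
  Cl.node (nat_lit 0x8506858482) (nat_lit 1) (by decide +kernel) (ClAll.succ ClAll.zero n189)

def n191 : Cl (O (nat_lit 6)) (R (nat_lit 14465))
    (p (nat_lit 0x68612) (nat_lit 0) (p (nat_lit 0x50592) (nat_lit 0) (p (nat_lit 0x38512) (nat_lit 0) (p (nat_lit 0x50392) (nat_lit 0) (p (nat_lit 0x38312) (nat_lit 0) (p (nat_lit 0x20292) (nat_lit 0) (p (nat_lit 0x38112) (nat_lit 0) (p (nat_lit 0x20092) (nat_lit 0) (p (nat_lit 0x8012) (nat_lit 0) pn))))))))) :=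
  Cl.node (nat_lit 0x160004) (nat_lit 2) (by decide +kernel) (ClAll.succ (ClAll.succ ClAll.zero n190) s183)

def n192 : Cl (O (nat_lit 6)) (R (nat_lit 14465))
    (p (nat_lit 0x50592) (nat_lit 0) (p (nat_lit 0x38512) (nat_lit 0) (p (nat_lit 0x50392) (nat_lit 0) (p (nat_lit 0x38312) (nat_lit 0) (p (nat_lit 0x20292) (nat_lit 0) (p (nat_lit 0x38112) (nat_lit 0) (p (nat_lit 0x20092) (nat_lit 0) (p (nat_lit 0x8012) (nat_lit 0) pn)))))))) :=
  Cl.node (nat_lit 0x68612) (nat_lit 1) (by decide +kernel) (ClAll.succ ClAll.zero n191)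

def n193 : Cl (O (nat_lit 6)) (R (nat_lit 14465))
    (p (nat_lit 0x38512) (nat_lit 0) (p (nat_lit 0x50392) (nat_lit 0) (p (nat_lit 0x38312) (nat_lit 0) (p (nat_lit 0x20292) (nat_lit 0) (p (nat_lit 0x38112) (nat_lit 0) (p (nat_lit 0x20092) (nat_lit 0) (p (nat_lit 0x8012) (nat_lit 0) pn))))))) :=
  Cl.node (nat_lit 0x50592) (nat_lit 1) (by decide +kernel) (ClAll.succ ClAll.zero n192)

def n194 : Cl (O (nat_lit 6)) (R (nat_lit 14465))
    (p (nat_lit 0x50392) (nat_lit 0) (p (nat_lit 0x38312) (nat_lit 0) (p (nat_lit 0x20292) (nat_lit 0) (p (nat_lit 0x38112) (nat_lit 0) (p (nat_lit 0x20092) (nat_lit 0) (p (nat_lit 0x8012) (nat_lit 0) pn)))))) :=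
  Cl.node (nat_lit 0x38512) (nat_lit 1) (by decide +kernel) (ClAll.succ ClAll.zero n193)

def n195 : Cl (O (nat_lit 6)) (R (nat_lit 14465))
    (p (nat_lit 0x38312) (nat_lit 0) (p (nat_lit 0x20292) (nat_lit 0) (p (nat_lit 0x38112) (nat_lit 0) (p (nat_lit 0x20092) (nat_lit 0) (p (nat_lit 0x8012) (nat_lit 0) pn))))) :=
  Cl.node (nat_lit 0x50392) (nat_lit 1) (by decide +kernel) (ClAll.succ ClAll.zero n194)

def n196 : Cl (O (nat_lit 6)) (R (nat_lit 14465))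
    (p (nat_lit 0x20292) (nat_lit 0) (p (nat_lit 0x38112) (nat_lit 0) (p (nat_lit 0x20092) (nat_lit 0) (p (nat_lit 0x8012) (nat_lit 0) pn)))) :=
  Cl.node (nat_lit 0x38312) (nat_lit 1) (by decide +kernel) (ClAll.succ ClAll.zero n195)

def n197 : Cl (O (nat_lit 6)) (R (nat_lit 14465))
    (p (nat_lit 0x38112) (nat_lit 0) (p (nat_lit 0x20092) (nat_lit 0) (p (nat_lit 0x8012) (nat_lit 0) pn))) :=
  Cl.node (nat_lit 0x20292) (nat_lit 1) (by decide +kernel) (ClAll.succ ClAll.zero n196)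

def n198 : Cl (O (nat_lit 6)) (R (nat_lit 14465))
    (p (nat_lit 0x20092) (nat_lit 0) (p (nat_lit 0x8012) (nat_lit 0) pn)) :=
  Cl.node (nat_lit 0x38112) (nat_lit 1) (by decide +kernel) (ClAll.succ ClAll.zero n197)

def n199 : Cl (O (nat_lit 6)) (R (nat_lit 14465))
    (p (nat_lit 0x8012) (nat_lit 0) pn) :=
  Cl.node (nat_lit 0x20092) (nat_lit 1) (by decide +kernel) (ClAll.succ ClAll.zero n198)

def n200 : Cl (O (nat_lit 6)) (R (nat_lit 14465))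
    pn :=
  Cl.node (nat_lit 0x8012) (nat_lit 1) (by decide +kernel) (ClAll.succ ClAll.zero n199)

theorem top : Cl (O (nat_lit 6)) (R (nat_lit 14465)) pn := n200

end Pool.Agent.Gen.F5.X1C2D3Cm6
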